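import Pool.Agent.MP_2a6d4e_co.Orbit

/-! A wandering fibre with two points gives a continuum of siblings. -/

namespace Pool.Agent.MP_2a6d4e_co

open Set Function

namespace Gr

variable {V : Type} {g : Gr V}
variable {Q Q' R R' F A B X Y Z w : Set V} {a b x y z t u v p : V} {e : Bool} {f f' h φ : V → V}

theorem Mod.inflate (hX : g.Mod Q X) (hy : y ∈ X)
    (hf : g.Emb ((Q \ X) ∪ {y}) ((Q \ X) ∪ {y}) f) (hfy : f y = y) :
    ∃ f', g.Emb Q Q f' ∧ f' y = y ∧ ∀ v, v ∉ X → f' v = f v := by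
  classical
  have k : ∀ v ∈ Q, v ∉ X → f v ∈ Q \ X := fun v hv hv' =>
    (hf.maps (Or.inl ⟨hv, hv'⟩)).resolve_right fun h => hv' (by
      rw [hf.inj (Or.inl ⟨hv, hv'⟩) (Or.inr rfl) ((mem_singleton_iff.1 h).trans hfy.symm)]
      exact hy)
  have k2 : ∀ v ∈ Q, v ∉ X → ∀ u ∈ X, f v ≠ u ∧ g.c (f v) u = g.c v u := by
    intro v hv hv' u hu
    refine ⟨fun h => (k v hv hv').2 (h ▸ hu), ?_⟩
    rw [hX.eq' hu hy (k v hv hv').1 (k v hv hv').2, hX.eq' hu hy hv hv']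
    conv_lhs => rw [← hfy]
    exact hf.c (Or.inl ⟨hv, hv'⟩) (Or.inr rfl)
  refine ⟨fun v => if v ∈ X then v else f v, emb_of_ne (fun v hv => ?_) fun v hv u hu hne => ?_,
    by simp [hy], fun v hv => by simp [hv]⟩
  · by_cases h : v ∈ X <;> simp only [h, if_true, if_false]
    exacts [hv, (k v hv h).1]
  · by_cases h : v ∈ X <;> by_cases h' : u ∈ X <;> simp only [h, h', if_true, if_false]
    · exact ⟨hne, trivial⟩
    · rw [g.symm, g.symm v]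
      exact ⟨(k2 u hu h' v h).1.symm, (k2 u hu h' v h).2⟩
    · exact k2 v hv h u h'
    · exact ⟨hf.ne (Or.inl ⟨hv, h⟩) (Or.inl ⟨hu, h'⟩) hne, hf.c (Or.inl ⟨hv, h⟩) (Or.inl ⟨hu, h'⟩)⟩

variable (g) in
def Kf (Q : Set V) (h : V → V) (y : V) (r : ℕ) : Set V := g.Fib Q h (h^[r] y)

variable (g) in
def Uf (Q : Set V) (h : V → V) (y : V) (r l : ℕ) : Set V :=
  g.cl Q (h^[r] y) (h^[l + 1] (h^[r] y))

variable (g) in
def Gs (Q : Set V) (h : V → V) (y : V) : Set V := (Q \ g.Fib Q h y) ∪ {y}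

variable (g) in
/-- `(R, t)` and `(A, y)` embed in each other as pointed graphs. -/
def Sp (A : Set V) (y : V) (R : Set V) (t : V) : Prop :=
  t ∈ R ∧ (∃ f, g.Emb R A f ∧ f t = y) ∧ ∃ f, g.Emb A R f ∧ f y = t

theorem Sp.iso (hf : g.IsoMap R R' f) (h : g.Sp A y R t) : g.Sp A y R' (f t) := by
  obtain ⟨h1, ⟨f1, k1, k2⟩, f2, k3, k4⟩ := h
  obtain ⟨f', hf', k5, -⟩ := hf.inv
  exact ⟨hf.emb.maps h1, ⟨_, k1.comp hf'.emb, by simp only [comp_apply]; rw [k5 t h1, k2]⟩,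
    _, hf.emb.comp k3, by simp only [comp_apply]; rw [k4]⟩

variable (g) in
structure Soft2 (Q : Set V) (h : V → V) (y : V) : Prop where
  fin : g.FinP
  stab : g.Stab Q
  emb : g.Emb Q Q h
  mem : y ∈ Q
  beta : ∀ k, h^[k + 1] y ∉ g.Fib Q h y
  two : (g.Fib Q h y).Nontrivial

namespace Soft2

variable (H : g.Soft2 Q h y) {r s l : ℕ}
include H

theorem ym (r : ℕ) : h^[r] y ∈ Q := (H.emb.iter r).maps H.mem

theorem yK (r : ℕ) : h^[r] y ∈ g.Kf Q h y r := mem_fib (H.ym r) h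

theorem yU (r l : ℕ) : h^[r] y ∈ g.Uf Q h y r l := left_mem_cl (H.ym r) _

theorem yU' (r l : ℕ) : h^[l + 1] (h^[r] y) ∈ g.Uf Q h y r l :=
  right_mem_cl _ ((H.emb.iter _).maps (H.ym r))

omit H in
theorem sK (r : ℕ) : g.Str Q (g.Kf Q h y r) := str_fib _ _ _

omit H in
theorem sU (r l : ℕ) : g.Str Q (g.Uf Q h y r l) := str_cl _ _ _

theorem K_iff (n : ℕ) (hv : v ∈ Q) : h^[n] v ∈ g.Kf Q h y (n + r) ↔ v ∈ g.Kf Q h y r := by
  unfold Kf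
  rw [iterate_add_apply]
  exact H.stab.fib_iff H.fin H.emb (H.ym r) n hv

theorem beta' (r k : ℕ) : h^[k + 1] (h^[r] y) ∉ g.Kf Q h y r := by
  rw [iter_comm]
  exact fun h1 => H.beta k ((H.K_iff (r := 0) r (H.ym _)).1 h1)

theorem two' (r : ℕ) : (g.Kf Q h y r).Nontrivial := by
  obtain ⟨a, ha, b, hb, hab⟩ := H.two
  exact ⟨_, (H.K_iff (r := 0) r ha.1).2 ha, _, (H.K_iff (r := 0) r hb.1).2 hb,
    (H.emb.iter r).ne ha.1 hb.1 hab⟩

theorem disj (h1 : v ∈ g.Kf Q h y r) (h2 : v ∈ g.Kf Q h y s) : r = s := by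
  have key : ∀ r s, r < s → v ∈ g.Kf Q h y r → v ∈ g.Kf Q h y s → False := by
    intro r s hlt h1 h2
    obtain ⟨d, rfl⟩ := Nat.exists_eq_add_of_lt hlt
    have e1 : h^[r + d + 1] y = h^[d + 1] (h^[r] y) := by
      rw [← iterate_add_apply]; congr 1; omega
    rcases (sK r).cmp (sK (r + d + 1)).mod h1 h2 with h3 | h3
    · exact H.beta' (r + d + 1) d (H.stab.s4 H.fin (H.emb.iter (d + 1)) (sK _) (h3 (H.yK r))
        (e1 ▸ H.yK _) (H.yK _))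
    · exact H.beta' r d (e1 ▸ h3 (H.yK _))
  rcases lt_trichotomy r s with h | h | h
  · exact (key r s h h1 h2).elim
  · exact h
  · exact (key s r h h2 h1).elim

theorem U_per (r l n : ℕ) : g.Uf Q h y (r + (l + 1) * n) l = g.Uf Q h y r l := by
  unfold Uf
  rw [add_comm r, iterate_add_apply, iterate_mul]
  exact H.stab.period H.fin (H.emb.iter (l + 1)) (H.ym r) n

theorem U_map (hφ : g.Emb Q Q φ) (hx : x ∈ g.Kf Q h y r) (hx' : φ x ∈ g.Kf Q h y s)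
    (hv : v ∈ g.Uf Q h y r l) : φ v ∈ g.Uf Q h y s l := by
  have e1 : g.Uf Q h y (r + s * l + s) l = g.Uf Q h y r l := by
    rw [← H.U_per r l s]; congr 1; ring
  have k1 := ((H.K_iff (r + s * l) hx'.1).2 hx').2 l
  have k2 := H.stab.s4 H.fin ((H.emb.iter (r + s * l)).comp hφ) (sU r l) (hx.2 l) (e1 ▸ k1) hv
  rw [← e1] at k2
  unfold Uf at k2
  rw [iterate_add_apply h (r + s * l) s] at k2
  exact H.stab.conj_back H.fin H.emb (H.ym s) l _ (hφ.maps ((sU r l).sub hv)) k2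

theorem Gs_sub : g.Gs Q h y ⊆ Q := union_subset sdiff_subset (singleton_subset_iff.2 H.mem)

theorem no_emb (hφ : g.Emb Q (g.Gs Q h y) φ) (hx : x ∈ g.Kf Q h y r) : φ x ≠ y := by
  intro h1
  have hφ' := hφ.mono_right H.Gs_sub
  have key : ∀ v ∈ g.Kf Q h y r, φ v = y := fun v hv =>
    (hφ.maps hv.1).resolve_left fun h2 => h2.2 ⟨h2.1, fun l =>
      H.U_map (s := 0) hφ' hx (by rw [h1]; exact H.yK 0) (hv.2 l)⟩
  obtain ⟨a, ha, b, hb, hab⟩ := H.two' r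
  exact hφ.ne ha.1 hb.1 hab ((key a ha).trans (key b hb).symm)

theorem sp_K (ht : g.Sp (g.Gs Q h y) y Q t) (r : ℕ) : t ∉ g.Kf Q h y r := by
  obtain ⟨-, ⟨f, hf, h1⟩, -⟩ := ht
  exact fun h2 => H.no_emb hf h2 h1

theorem common (hF : F.Finite) (hK : ∀ u ∈ F, u ∉ g.Kf Q h y r) :
    ∃ l, ∀ u ∈ F, u ∉ g.Uf Q h y r l := by
  induction F, hF using Set.Finite.induction_on with
  | empty => exact ⟨0, fun u hu => absurd hu (notMem_empty u)⟩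
  | @insert a F _ _ ih =>
    obtain ⟨l, hl⟩ := ih fun u hu => hK u (mem_insert_of_mem _ hu)
    obtain ⟨l', hl'⟩ : ∃ l', a ∉ g.Uf Q h y r l' := by
      by_contra hcon
      push Not at hcon
      exact hK a (mem_insert _ _) ⟨(sU r 0).sub (hcon 0), hcon⟩
    rcases (sU r l).cmp (sU r l').mod (H.yU r l) (H.yU r l') with h1 | h1
    · refine ⟨l, ?_⟩
      rintro u (rfl | hu)
      exacts [fun h2 => hl' (h1 h2), hl u hu]
    · refine ⟨l', ?_⟩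
      rintro u (rfl | hu)
      exacts [hl', fun h2 => hl u hu (h1 h2)]

theorem stepK (ht : t ∈ g.Kf Q h y r) (hF : F.Finite) (hK : ∀ u ∈ F, u ∉ g.Kf Q h y r) :
    ∃ γ l, g.Emb Q Q γ ∧ (∀ u ∈ F, γ u = u) ∧ γ t ∈ g.Kf Q h y (l + 1 + r) ∧
      ∀ u ∈ F, u ∉ g.Uf Q h y r l := by
  obtain ⟨l, hl⟩ := H.common hF hK
  obtain ⟨γ, h1, h2, h3⟩ := (sU r l).mod.extend' ((H.emb.iter (l + 1)).mono (sU r l).sub
    fun v hv => H.stab.s1 H.fin (H.emb.iter (l + 1)) (H.ym r) hv)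
  refine ⟨γ, l, h1, fun u hu => h3 u (hl u hu), ?_, hl⟩
  rw [h2 t (ht.2 l)]
  exact (H.K_iff _ ht.1).2 ht

theorem avoid0 [Countable V] (l : ℕ) :
    ∃ φ, g.Emb Q (g.Gs Q h y) φ ∧ φ (h^[l + 1] y) = h^[l + 1] y := by
  obtain ⟨φ, h1, h2⟩ := forth (g := g) (Q := Q) (Δ := g.Kf Q h y 0) (fun t _ ht F hF hFQ => by
    obtain ⟨γ, l, k1, k2, k3, -⟩ := H.stepK ht hF fun u hu => (hFQ u hu).2
    exact ⟨γ, k1, k2, fun k4 => absurd (H.disj k3 k4) (by omega)⟩)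
    (finite_singleton (h^[l + 1] y)) (fun u hu => by
      rw [mem_singleton_iff.1 hu]; exact ⟨H.ym _, H.beta l⟩)
  exact ⟨φ, h1.mono_right subset_union_left, h2 _ rfl⟩

theorem stepS [Countable V] (ht : g.Sp (g.Gs Q h y) y Q t) (hF : F.Finite)
    (hFQ : ∀ u ∈ F, u ∈ Q ∧ u ≠ t) : ∃ γ, g.Emb Q Q γ ∧ (∀ u ∈ F, γ u = u) ∧
      ¬ g.Sp (g.Gs Q h y) y Q (γ t) ∧ ∀ u ∈ F, u ∉ g.cl Q t (γ t) := by
  obtain ⟨htQ, ⟨f, hf, h1⟩, f', hf', h2⟩ := ht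
  obtain ⟨l, hl⟩ := H.common (r := 0) (hF.image f) (by
    rintro _ ⟨u, hu, rfl⟩
    exact ((hf.maps (hFQ u hu).1).resolve_right fun h3 =>
      (hFQ u hu).2 (hf.inj (hFQ u hu).1 htQ ((mem_singleton_iff.1 h3).trans h1.symm))).2)
  obtain ⟨φ, p1, p2⟩ := H.avoid0 l
  have hf0 := hf.mono_right H.Gs_sub
  have hf1 : g.Emb Q Q (f' ∘ φ ∘ h^[l + 1]) := hf'.comp (p1.comp (H.emb.iter _))
  have e1 : (f' ∘ φ ∘ h^[l + 1]) (f t) = f' (h^[l + 1] y) := by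
    simp only [comp_apply]; rw [h1, p2]
  obtain ⟨E, E1, E2, E3⟩ := (str_fib Q h y).mod.inflate (mem_fib H.mem h) (hf.comp hf')
    (by simp only [comp_apply]; rw [h2, h1])
  have k1 : f (f' (h^[l + 1] y)) ∈ g.Uf Q h y 0 l := by
    have := H.stab.s4 H.fin E1 (sU 0 l) (H.yU 0 l) (by
      show E y ∈ _
      rw [E2]; exact H.yU 0 l) (H.yU' 0 l)
    change E (h^[l + 1] y) ∈ _ at this
    rwa [E3 _ (H.beta l)] at this
  have k2 : ∀ u ∈ F, u ∉ g.cl Q t (f' (h^[l + 1] y)) := by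
    intro u hu h3
    rw [← e1] at h3
    have := H.stab.conj H.fin hf0 hf1 htQ h3
    rw [e1, h1] at this
    exact hl _ (mem_image_of_mem f hu) ((sU 0 l).cl_sub (H.yU 0 l) k1 this)
  have hγ := hf1.comp hf0
  obtain ⟨γ, g1, g2, g3⟩ := (str_cl Q t (f' (h^[l + 1] y))).mod.extend'
    (hγ.mono (cl_sub _ _ _) fun v hv => by
      rw [← e1] at hv ⊢
      exact H.stab.s1 H.fin hγ htQ hv)
  have e2 : γ t = f' (h^[l + 1] y) := by rw [g2 t (left_mem_cl htQ _)]; exact e1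
  refine ⟨γ, g1, fun u hu => g3 u (k2 u hu), ?_, by rw [e2]; exact k2⟩
  rintro ⟨-, ⟨f'', hf'', h3⟩, -⟩
  refine H.no_emb (hf''.comp (hf'.comp p1)) (H.yK (l + 1)) ?_
  simp only [comp_apply]
  rw [p2, ← e2, h3]

theorem seq : ∃ ρ : ℕ → ℕ, (∀ i j, i < j → h^[ρ i + 1] y ∉ g.Uf Q h y 0 (ρ j) ∧
    g.Uf Q h y 0 (ρ j) ⊆ g.Uf Q h y 0 (ρ i)) ∧
    ∀ t, t ∉ g.Kf Q h y 0 → ∃ J, t ∉ g.Uf Q h y 0 (ρ J) := by
  obtain ⟨ρ, -, -, hρ⟩ := seq_exists (fun _ (_ : ℕ) => True)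
    (fun n a a' => h^[a + 1] y ∉ g.Uf Q h y 0 a' ∧ g.Uf Q h y 0 a' ⊆ g.Uf Q h y 0 n) 0 trivial (by
      intro n a _
      obtain ⟨l, hl⟩ := H.common (r := 0) (finite_singleton (h^[a + 1] y))
        (fun u hu => by rw [mem_singleton_iff.1 hu]; exact H.beta a)
      rcases (sU 0 l).cmp (sU 0 n).mod (H.yU 0 l) (H.yU 0 n) with h1 | h1
      · exact ⟨l, trivial, hl _ rfl, h1⟩
      · exact ⟨n, trivial, fun h2 => hl _ rfl (h1 h2), subset_rfl⟩)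
  have anti : Antitone fun j => g.Uf Q h y 0 (ρ j) := antitone_nat_of_succ_le fun n =>
    (sU 0 (ρ n)).sup_of (sU 0 _).mod (H.yU 0 _) (H.yU 0 _) (H.yU' 0 _) (hρ n).1
  refine ⟨ρ, fun i j hij => ⟨fun h1 => (hρ i).1 (anti hij h1), anti hij.le⟩, fun t ht => ?_⟩
  obtain ⟨l, hl⟩ := H.common (finite_singleton t) (fun u hu => by
    rw [mem_singleton_iff.1 hu]; exact ht)
  exact ⟨l + 1, fun h1 => hl t rfl ((hρ l).2 h1)⟩

theorem cont [Countable V] : g.Cont Q := by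
  obtain ⟨ρ, hρ, hcof⟩ := H.seq
  set G := g.Gs Q h y with hG
  have sep : ∀ X, g.Str Q X → ∀ i j, i ≠ j → h^[ρ i + 1] y ∈ X → h^[ρ j + 1] y ∈ X → y ∈ X := by
    have key : ∀ X, g.Str Q X → ∀ i j, i < j → h^[ρ i + 1] y ∈ X → h^[ρ j + 1] y ∈ X → y ∈ X :=
      fun X hX i j hij h1 h2 =>
        (sU 0 (ρ j)).sub_of hX.mod (H.yU' 0 _) h2 h1 (hρ i j hij).1 (H.yU 0 _)
    exact fun X hX i j hij h1 h2 => (lt_or_gt_of_ne hij).elim (fun h => key X hX i j h h1 h2)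
      fun h => key X hX j i h h2 h1
  have y0 : ∀ r, y ∉ g.Kf Q h y (r + 1) := fun r h1 => absurd (H.disj h1 (H.yK 0)) (by omega)
  have inj : ∀ i j, ρ i = ρ j → i = j := by
    intro i j hij
    by_contra hne
    exact y0 (ρ i) (sep _ (sK _) i j hne (H.yK _) (hij ▸ H.yK _))
  have KU : ∀ j, g.Kf Q h y (ρ j + 1) ⊆ g.Uf Q h y 0 (ρ j) := fun j v hv => by
    have := hv.2 (ρ j)
    have e := H.U_per 0 (ρ j) 1
    rw [zero_add, mul_one] at e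
    rw [← e]; exact this
  set Δ : Set ℕ → Set V := fun J => {v | g.Sp G y Q v ∨ ∃ j ∈ J, v ∈ g.Kf Q h y (ρ j + 1)} with hΔ
  have yΔ : ∀ J, y ∉ Δ J := by
    rintro J (h1 | ⟨j, -, h1⟩)
    exacts [H.sp_K h1 0 (H.yK 0), y0 _ h1]
  have fo : ∀ (J : Set ℕ) (F : Set V), F.Finite → (∀ u ∈ F, u ∈ Q ∧ u ∉ Δ J) →
      ∃ φ, g.Emb Q (Q \ Δ J) φ ∧ ∀ u ∈ F, φ u = u := by
    intro J F0 hF0 hF0'
    refine forth (fun t _ ht F hF hFQ => ?_) hF0 hF0'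
    rcases ht with ht | ⟨i, hi, ht⟩
    · obtain ⟨M, hM⟩ := hcof t (H.sp_K ht 0)
      obtain ⟨γ, k1, k2, k3, k4⟩ := H.stepS ht
        (((hF.insert y).union ((finite_lt_nat M).image fun j => h^[ρ j + 1] y))) (by
          rintro u ((rfl | hu) | ⟨j, -, rfl⟩)
          · exact ⟨H.mem, fun h1 => H.sp_K ht 0 (h1 ▸ H.yK 0)⟩
          · exact ⟨(hFQ u hu).1, fun h1 => (hFQ u hu).2 (Or.inl (h1 ▸ ht))⟩
          · exact ⟨H.ym _, fun h1 => H.sp_K ht (ρ j + 1) (by rw [← h1]; exact H.yK _)⟩)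
      refine ⟨γ, k1, fun u hu => k2 u (Or.inl (Or.inr hu)), ?_⟩
      rintro (h1 | ⟨j, -, h1⟩)
      · exact k3 h1
      · have b1 := left_mem_cl (g := g) ht.1 (γ t)
        have b2 := right_mem_cl (g := g) t (k1.maps ht.1)
        by_cases hj : j < M
        · exact k4 _ (Or.inr ⟨j, hj, rfl⟩) ((sK _).sub_of (str_cl _ _ _).mod h1 b2 b1
            (H.sp_K ht _) (H.yK _))
        · have h2 : γ t ∈ g.Uf Q h y 0 (ρ M) := by
            rcases (not_lt.1 hj).eq_or_lt with h3 | h3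
            · rw [h3]; exact KU j h1
            · exact (hρ M j h3).2 (KU j h1)
          exact k4 y (Or.inl (Or.inl rfl)) ((sU _ _).sub_of (str_cl _ _ _).mod h2 b2 b1 hM
            (H.yU 0 _))
    · obtain ⟨γ, l, k1, k2, k3, k4⟩ := H.stepK ht (hF.insert y) (by
        rintro u (rfl | hu)
        exacts [y0 _, fun h1 => (hFQ u hu).2 (Or.inr ⟨i, hi, h1⟩)])
      refine ⟨γ, k1, fun u hu => k2 u (Or.inr hu), ?_⟩
      rintro (h1 | ⟨j, -, h1⟩)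
      · exact H.sp_K h1 _ k3
      · have e := H.disj k3 h1
        refine k4 y (Or.inl rfl) (sep _ (sU _ _) i j (fun h2 => by subst h2; omega) (H.yU _ _) ?_)
        rw [← e, iterate_add_apply]
        exact H.yU' _ _
  have fo1 : ∀ j, ∀ t ∈ g.Kf Q h y (ρ j + 1), ∃ φ, g.Emb Q (Q \ Δ {j}ᶜ) φ ∧ φ t = t ∧
      ∀ v ∈ Q, v ∉ g.Kf Q h y (ρ j + 1) → φ v ∉ Δ univ := by
    intro j t ht
    obtain ⟨φ, k1, k2⟩ := fo {j}ᶜ {t} (finite_singleton t) (by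
      rintro u rfl
      refine ⟨ht.1, ?_⟩
      rintro (h1 | ⟨i, hi, h1⟩)
      · exact H.sp_K h1 _ ht
      · exact hi (inj i j (by have := H.disj h1 ht; omega)))
    refine ⟨φ, k1, k2 t rfl, fun v hv hv' => ?_⟩
    rintro (h1 | ⟨i, -, h1⟩)
    · exact (k1.maps hv).2 (Or.inl h1)
    · by_cases hij : i = j
      · subst hij
        exact hv' (H.stab.reflect H.fin (k1.mono_right sdiff_subset) (sK _) ht
          (by rw [k2 t rfl]; exact ht) hv h1)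
      · exact (k1.maps hv).2 (Or.inr ⟨i, hij, h1⟩)
  set P : Set ℕ → Set V := fun S => {v | v ∈ Q ∧ ¬ g.Sp G y Q v ∧
    ∀ j ∈ S, v ∈ g.Kf Q h y (ρ j + 1) → v = h^[ρ j + 1] y} with hP
  have P1 : ∀ S, ∀ v ∈ Q, v ∉ Δ univ → v ∈ P S := fun S v hv hv' =>
    ⟨hv, fun h1 => hv' (Or.inl h1), fun j _ h1 => absurd (Or.inr ⟨j, trivial, h1⟩) hv'⟩
  have P2 : ∀ S, P S ⊆ Q := fun S v hv => hv.1
  have P3 : ∀ S j, h^[ρ j + 1] y ∈ P S := fun S j => ⟨H.ym _, fun h1 => H.sp_K h1 _ (H.yK _),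
    fun i _ h1 => by rw [H.disj h1 (H.yK _)]⟩
  have P4 : ∀ S, y ∈ P S := fun S => P1 S y H.mem (yΔ _)
  have pa : ∀ S, ∀ j ∈ S, g.Sp G y (P S) (h^[ρ j + 1] y) := by
    intro S j hj
    obtain ⟨Θ, t1, t2, -⟩ := H.stab.theta H.fin (H.emb.iter (ρ j + 1)) H.mem
    rw [H.stab.fib_pow H.fin H.emb H.mem, H.stab.fib_pow H.fin H.emb (H.ym _)] at t1
    obtain ⟨φ, k1, k2, k3⟩ := fo1 j _ (H.yK (ρ j + 1))
    refine ⟨P3 S j, ⟨Θ, t1.mono_left fun v hv => ?_, t2⟩, φ ∘ h^[ρ j + 1],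
      ((k1.mono_right sdiff_subset).comp (H.emb.iter _)).mono H.Gs_sub ?_, k2⟩
    · by_cases h1 : v ∈ g.Kf Q h y (ρ j + 1)
      exacts [Or.inr (hv.2.2 j hj h1), Or.inl ⟨hv.1, h1⟩]
    · rintro v (hv | hv)
      · exact P1 S _ (k1.maps ((H.emb.iter _).maps hv.1)).1 (k3 _ ((H.emb.iter _).maps hv.1)
          fun h1 => hv.2 ((H.K_iff (r := 0) _ hv.1).1 h1))
      · rw [mem_singleton_iff.1 hv]
        simp only [comp_apply]
        rw [k2]; exact P3 S j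
  have pb : ∀ S t, g.Sp G y (P S) t → ∃ j ∈ S, t = h^[ρ j + 1] y := by
    rintro S t ⟨ht, ⟨f, hf, h1⟩, f', hf', h2⟩
    by_cases h3 : ∃ j, t ∈ g.Kf Q h y (ρ j + 1)
    · obtain ⟨j, hj⟩ := h3
      by_cases h4 : j ∈ S
      · exact ⟨j, h4, ht.2.2 j h4 hj⟩
      · obtain ⟨φ, k1, k2, -⟩ := fo1 j t hj
        refine absurd ?_ (H.no_emb (hf.comp (k1.mono_right fun v hv => ⟨hv.1,
          fun h5 => hv.2 (Or.inl h5), fun i hi h5 => absurd (Or.inr ⟨i, ?_, h5⟩) hv.2⟩)) hj)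
        · simp only [comp_apply]; rw [k2, h1]
        · exact fun h6 => h4 (mem_singleton_iff.1 h6 ▸ hi)
    · obtain ⟨φ, k1, k2⟩ := fo univ {t} (finite_singleton t) (by
        rintro u rfl
        refine ⟨ht.1, ?_⟩
        rintro (h4 | ⟨j, -, h4⟩)
        exacts [ht.2.1 h4, h3 ⟨j, h4⟩])
      refine absurd ⟨ht.1, ⟨_, hf.comp (k1.mono_right fun v hv => P1 S v hv.1 hv.2), ?_⟩, f',
        hf'.mono_right (P2 S), h2⟩ ht.2.1
      simp only [comp_apply]; rw [k2 t rfl, h1]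
  have pd : ∀ S S' ψ i j, g.IsoMap (P S) (P S') ψ → ψ y = y →
      ψ (h^[ρ i + 1] y) = h^[ρ j + 1] y → ¬ i < j := by
    intro S S' ψ i j hψ h0 h1 hij
    obtain ⟨l, hl⟩ := H.common (r := ρ i + 1) (finite_singleton y) (by rintro u rfl; exact y0 _)
    have hl := hl y rfl
    obtain ⟨l', hl'⟩ := H.common (r := ρ i + 1) (finite_singleton (h^[l + 1] (h^[ρ i + 1] y)))
      (by rintro u rfl; exact H.beta' _ _)
    have hl' := hl' _ rfl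
    obtain ⟨v0, a1, a2, a3⟩ := both_types (sU (ρ i + 1) l).mod (sU (ρ i + 1) l') (sK (ρ i + 1)).mod
      ((sU _ l).sup_of (sU _ l').mod (H.yU _ _) (H.yU _ _) (H.yU' _ _) hl')
      (fun v hv => hv.2 l') (H.yU' _ _) hl' (H.yU' _ _) (H.beta' _ _) (H.yK _)
      (!g.c (h^[ρ i + 1] y) y)
    have a4 := (sU _ _).sub a1
    obtain ⟨φ, k1, k2, k3⟩ := fo1 i _ (H.yK (ρ i + 1))
    have k1' := k1.mono_right sdiff_subset
    have b1 : φ v0 ∈ g.Uf Q h y (ρ i + 1) l :=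
      H.stab.s4 H.fin k1' (sU _ _) (H.yU _ _) (by rw [k2]; exact H.yU _ _) a1
    have b2 := k3 v0 a4 a2
    have b3 : g.c (φ v0) (h^[ρ i + 1] y) = !g.c (h^[ρ i + 1] y) y := by
      rw [← a3 _ (H.yK _), ← k1.c a4 (H.ym _), k2]
    have b4 : φ v0 ∉ g.Uf Q h y 0 (ρ j) := fun h2 =>
      hl ((sU 0 _).sub_of (sU _ _).mod h2 b1 (H.yU _ _) (hρ i j hij).1 (H.yU 0 _))
    obtain ⟨φ0, c1, c2⟩ := fo univ {y, φ v0} (toFinite _) (by
      rintro u (rfl | rfl)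
      exacts [⟨H.mem, yΔ _⟩, ⟨k1'.maps a4, b2⟩])
    have hψ' := hψ.emb.mono_right (P2 S')
    have c3 := hψ'.comp (c1.mono_right fun v hv => P1 S v hv.1 hv.2)
    have c4 : ψ (φ v0) ∉ g.Uf Q h y 0 (ρ j) := fun h2 => b4 (H.stab.reflect H.fin c3 (sU _ _)
      (H.yU 0 _) (by
        show ψ (φ0 y) ∈ _
        rw [c2 y (Or.inl rfl), h0]; exact H.yU 0 _) (k1'.maps a4) (by
        simp only [comp_apply]; rw [c2 _ (Or.inr rfl)]; exact h2))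
    have c5 := (hψ'.mod_pre (sU 0 (ρ j)).mod).eq' (a := y) (a' := h^[ρ i + 1] y)
      ⟨P4 S, by rw [h0]; exact H.yU 0 _⟩ ⟨P3 S i, by rw [h1]; exact H.yU' 0 _⟩
      (P1 S _ (k1'.maps a4) b2) fun h2 => c4 h2.2
    rw [b3, (sU _ _).mod.eq b1 (H.yU _ _) H.mem hl] at c5
    revert c5
    cases g.c (h^[ρ i + 1] y) y <;> simp
  obtain ⟨φ, k1, -⟩ := fo univ ∅ finite_empty fun u hu => absurd hu (notMem_empty u)
  refine cont_of P [y] (fun S => ⟨⟨φ, k1.mono_right fun v hv => P1 S v hv.1 hv.2⟩,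
    le_of_sub (P2 S)⟩) (fun S v hv => by rw [List.mem_singleton.1 hv]; exact P4 S) ?_
  intro S S' n ψ hψ hfix _ hn hn'
  have h0 := hfix y (by simp)
  obtain ⟨j, hj, h1⟩ := pb S' _ ((pa S n hn).iso hψ)
  rcases lt_trichotomy n j with h2 | h2 | h2
  · exact pd S S' ψ n j hψ h0 h1 h2
  · exact hn' (h2 ▸ hj)
  · obtain ⟨ψ', hψ', k2, -⟩ := hψ.inv
    refine pd S' S ψ' j n hψ' ?_ ?_ h2
    · conv_lhs => rw [← h0]
      exact k2 y (P4 S)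
    · rw [← h1]; exact k2 _ (P3 S n)

end Soft2

theorem thin_of_not_cont [Countable V] (hF : g.FinP) (hc : ¬ g.Cont Q) : g.Thin Q := by
  intro h z hh hz hβ
  by_contra h1
  exact hc (Soft2.cont ⟨hF, stab_of_not_cont hF hc, hh, hz, hβ, not_subsingleton_iff.1 h1⟩)

end Gr

end Pool.Agent.MP_2a6d4e_co
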