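import Pool.Agent.MP_2a6d4e_co.Ladder

/-! A graph that is not stable has a continuum of siblings. -/

namespace Pool.Agent.MP_2a6d4e_co

open Set Function

namespace Gr

variable {V : Type} {g : Gr V}
variable {Q Q' R F W K A B X Y Z w : Set V} {a b x y u v p : V} {e up : Bool} {f f' h : V → V}
  {lvl : V → ℕ} {τ : V → Bool} {mk : ℕ → V}

theorem pure {Q0 : Set V} {r : ℕ → V} (hle : g.Le Q Q0) (hQ0 : Q0 ⊆ Q) (hK : K ⊆ Q0)
    (hinj : Injective r) (hr : ∀ i, r i ∈ Q ∧ r i ∉ Q0)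
    (hcol : ∀ i j, hi up i j → g.c (r i) (r j) = pat i)
    (hKc : ∀ i, ∀ k ∈ K, g.c (r i) k = pat i)
    (hout : ∀ v ∈ Q0, v ∉ K → ∀ s ∈ K ∪ range r, ∀ s' ∈ K ∪ range r, g.c s v = g.c s' v)
    (hne : up = true → K.Nonempty) : g.Cont Q := by
  have hl : ∀ i, invFun r (r i) = i := leftInverse_invFun hinj
  have hrK : ∀ i, r i ∉ K := fun i h => (hr i).2 (hK h)
  have hex : ∀ v ∈ K ∪ range r, v ∉ K → ∃ i, r i = v := fun v hv hv' => hv.resolve_left hv'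
  have hP : g.Pre (Q0 ∪ range r) (K ∪ range r) K (invFun r) (fun v => pat (invFun r v)) r up := by
    refine ⟨⟨⟨union_subset_union_left _ hK, fun s hs s' hs' t ht ht' => ?_⟩, subset_union_left,
      fun v hv hv' u hu => ?_, fun v hv hv' u hu hu' h => ?_⟩,
      fun i _ _ => ⟨Or.inr ⟨i, rfl⟩, hrK i, hl i⟩, fun v hv hv' _ => ⟨?_, rfl⟩⟩
    · exact hout t (ht.resolve_right fun h => ht' (Or.inr h)) (fun h => ht' (Or.inl h)) s hs s' hs'
    · obtain ⟨i, rfl⟩ := hex v hv hv'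
      rw [hl]; exact hKc i u hu
    · obtain ⟨i, rfl⟩ := hex v hv hv'
      obtain ⟨j, rfl⟩ := hex u hu hu'
      rw [hl] at h ⊢
      rw [hl] at h
      exact hcol i j h
    · obtain ⟨i, rfl⟩ := hex v hv hv'
      rw [hl]
  have hz : ∀ n, r (5 * n + 7) ∈ K ∪ range r ∧ r (5 * n + 7) ∉ K ∧
      invFun r (r (5 * n + 7)) = 5 * n + 7 := fun n => ⟨Or.inr ⟨_, rfl⟩, hrK _, hl _⟩
  have hFQ : Q0 ∪ range r ⊆ Q := union_subset hQ0 (range_subset_iff.2 fun i => (hr i).1)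
  have hle' : g.Le Q (code (Q0 ∪ range r) r ∅) := hle.trans (le_of_sub fun v hv =>
    ⟨Or.inl hv, fun ⟨n, _, h⟩ => (hr _).2 (h ▸ hv)⟩)
  have hfin : ∀ (b : ℕ) (r' : ℕ → V), Injective r' →
      (∀ i, r' i ∈ K ∪ range r ∧ r' i ∉ K ∧ invFun r (r' i) < b) → False := by
    intro b r' h1 h2
    refine infinite_range_of_injective h1 (((finite_lt_nat b).image r).subset ?_)
    rintro _ ⟨i, rfl⟩
    obtain ⟨j, hj⟩ := hex _ (h2 i).1 (h2 i).2.1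
    refine ⟨j, ?_, hj⟩
    have := (h2 i).2.2
    rwa [← hj, hl] at this
  cases up
  · refine (hP.down_alt hz hFQ hle').resolve_right ?_
    rintro ⟨b, r', h1, h2, -⟩
    exact hfin b r' h1 h2
  · refine (hP.up_alt hz (hne rfl) hFQ hle').resolve_right ?_
    rintro ⟨b, r', h1, h2, -⟩
    exact hfin b r' h1 fun i => ⟨(h2 i).1, (h2 i).2.1, (h2 i).2.2.1⟩

variable (g) in
structure Lad (Q W K : Set V) (lvl : V → ℕ) (τ : V → Bool) (up : Bool) : Prop where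
  lev : g.Lev Q W K lvl τ up
  move : ∀ n b, ∃ b' f, g.Emb {v | v ∈ W ∧ v ∉ K ∧ lvl v = n}
    {v | v ∈ W ∧ v ∉ K ∧ b ≤ lvl v ∧ lvl v < b'} f ∧
    ∀ v ∈ W, v ∉ K → lvl v = n → τ (f v) = τ v
  both : ∀ b e, ∃ v ∈ W, v ∉ K ∧ b ≤ lvl v ∧ τ v = e
  ne : up = true → K.Nonempty

theorem Lad.build (hL : g.Lad Q W K lvl τ up) (b0 : ℕ) :
    ∃ (C : ℕ → ℕ) (mk : ℕ → V) (φ : V → V), C 0 = b0 ∧ Monotone C ∧
      (∀ i, i % 5 ≠ 4 → mk i ∈ W ∧ mk i ∉ K ∧ C i ≤ lvl (mk i) ∧ lvl (mk i) < C (i + 1) ∧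
        τ (mk i) = pat i) ∧ g.Emb Q Q φ ∧ (∀ v, ¬ (v ∈ W ∧ v ∉ K) → φ v = v) ∧
      ∀ v ∈ W, v ∉ K → φ v ∈ W ∧ φ v ∉ K ∧ C (5 * lvl v + 4) ≤ lvl (φ v) ∧
        lvl (φ v) < C (5 * lvl v + 4 + 1) := by
  classical
  choose mb mf hm1 hm2 using hL.move
  choose pt hp1 hp2 hp3 hp4 using hL.both
  let C : ℕ → ℕ := fun n => Nat.rec b0 (fun i c =>
    if i % 5 = 4 then max (mb (i / 5) c) c else lvl (pt c (pat i)) + 1) n
  have hC : ∀ i, C (i + 1) = if i % 5 = 4 then max (mb (i / 5) (C i)) (C i)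
      else lvl (pt (C i) (pat i)) + 1 := fun i => rfl
  have hmono : Monotone C := monotone_nat_of_le_succ fun i => by
    rw [hC]
    split_ifs
    · exact le_max_right _ _
    · exact (hp3 _ _).trans (Nat.le_succ _)
  set φ : V → V := fun v => if v ∈ W ∧ v ∉ K then mf (lvl v) (C (5 * lvl v + 4)) v else v with hφ
  have h1 : ∀ v ∈ W, v ∉ K → φ v = mf (lvl v) (C (5 * lvl v + 4)) v := fun v hv hv' => by
    simp only [hφ, hv, hv', not_false_eq_true, and_self, if_true]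
  have h2 : ∀ v, ¬ (v ∈ W ∧ v ∉ K) → φ v = v := fun v hv => by simp only [hφ, hv, if_false]
  have h3 : ∀ v ∈ W, v ∉ K → φ v ∈ W ∧ φ v ∉ K ∧ C (5 * lvl v + 4) ≤ lvl (φ v) ∧
      lvl (φ v) < C (5 * lvl v + 4 + 1) := by
    intro v hv hv'
    obtain ⟨k1, k2, k3, k4⟩ := (hm1 (lvl v) (C (5 * lvl v + 4))).maps ⟨hv, hv', rfl⟩
    rw [h1 v hv hv', hC (5 * lvl v + 4), if_pos (by omega), show (5 * lvl v + 4) / 5 = lvl v by omega]
    exact ⟨k1, k2, k3, k4.trans_le (le_max_left _ _)⟩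
  have h4 : ∀ v ∈ W, v ∉ K → τ (φ v) = τ v := fun v hv hv' => by
    rw [h1 v hv hv']; exact hm2 _ _ v hv hv' rfl
  have h5 : ∀ v ∈ W, v ∉ K → ∀ u ∈ W, u ∉ K → lvl v < lvl u → lvl (φ v) < lvl (φ u) := by
    intro v hv hv' u hu hu' hlt
    exact (h3 v hv hv').2.2.2.trans_le ((hmono (by omega : 5 * lvl v + 4 + 1 ≤ 5 * lvl u + 4)).trans (h3 u hu hu').2.2.1)
  have h6 : ∀ v ∈ W, v ∉ K → ∀ u ∈ W, u ∉ K → hi up (lvl v) (lvl u) →
      φ v ≠ φ u ∧ g.c (φ v) (φ u) = g.c v u := by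
    intro v hv hv' u hu hu' hlt
    have : hi up (lvl (φ v)) (lvl (φ u)) :=
      hlt.imp (fun h => ⟨h.1, h5 u hu hu' v hv hv' h.2⟩) fun h => ⟨h.1, h5 v hv hv' u hu hu' h.2⟩
    refine ⟨fun h => ?_, ?_⟩
    · rw [h] at this
      unfold hi at this
      omega
    · rw [hL.lev.col _ (h3 v hv hv').1 (h3 v hv hv').2.1 _ (h3 u hu hu').1 (h3 u hu hu').2.1 this,
        h4 v hv hv', hL.lev.col v hv hv' u hu hu' hlt]
  have h7 : ∀ v ∈ W, v ∉ K → ∀ u ∈ Q, ¬ (u ∈ W ∧ u ∉ K) → φ v ≠ u ∧ g.c (φ v) u = g.c v u := by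
    intro v hv hv' u hu hu'
    refine ⟨fun h => hu' (h ▸ ⟨(h3 v hv hv').1, (h3 v hv hv').2.1⟩), ?_⟩
    by_cases huK : u ∈ K
    · rw [hL.lev.colK _ (h3 v hv hv').1 (h3 v hv hv').2.1 u huK, h4 v hv hv',
        hL.lev.colK v hv hv' u huK]
    · exact hL.lev.mod.eq (h3 v hv hv').1 hv hu (fun h => hu' ⟨h, huK⟩)
  refine ⟨C, fun i => pt (C i) (pat i), φ, rfl, hmono, fun i hi => ⟨hp1 _ _, hp2 _ _, hp3 _ _, ?_,
    hp4 _ _⟩, emb_of_ne (fun v hv => ?_) fun v hv u hu hne => ?_, h2, h3⟩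
  · rw [hC, if_neg hi]; exact Nat.lt_succ_self _
  · by_cases h : v ∈ W ∧ v ∉ K
    · exact hL.lev.mod.sub (h3 v h.1 h.2).1
    · rw [h2 v h]; exact hv
  · by_cases h : v ∈ W ∧ v ∉ K <;> by_cases h' : u ∈ W ∧ u ∉ K
    · by_cases hl : lvl v = lvl u
      · rw [h1 v h.1 h.2, h1 u h'.1 h'.2, ← hl]
        exact ⟨(hm1 _ _).ne ⟨h.1, h.2, rfl⟩ ⟨h'.1, h'.2, hl.symm⟩ hne,
          (hm1 _ _).c ⟨h.1, h.2, rfl⟩ ⟨h'.1, h'.2, hl.symm⟩⟩
      · by_cases hh : hi up (lvl v) (lvl u)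
        · exact h6 v h.1 h.2 u h'.1 h'.2 hh
        · have := h6 u h'.1 h'.2 v h.1 h.2 (by
            unfold hi at hh ⊢
            cases up <;> simp at hh ⊢ <;> omega)
          rw [g.symm, g.symm v]
          exact ⟨this.1.symm, this.2⟩
    · rw [h2 u h']; exact h7 v h.1 h.2 u hu h'
    · rw [h2 v h, g.symm, g.symm v]
      exact ⟨(h7 u h'.1 h'.2 v hv h).1.symm, (h7 u h'.1 h'.2 v hv h).2⟩
    · rw [h2 v h, h2 u h']; exact ⟨hne, rfl⟩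

theorem Lad.host (hL : g.Lad Q W K lvl τ up) (b0 : ℕ) :
    ∃ Q0, g.Le Q Q0 ∧ Q0 ⊆ Q ∧ K ⊆ Q0 ∧ (Q0 ∩ W).Nonempty ∧
      ∀ v ∈ Q0, v ∈ W → v ∉ K → b0 ≤ lvl v := by
  obtain ⟨C, mk, φ, h0, hm, -, h1, h2, h3⟩ := hL.build b0
  refine ⟨φ '' Q, ⟨φ, h1.isoMap_image.emb⟩, image_subset_iff.2 h1.1, fun v hv =>
    ⟨v, hL.lev.mod.sub (hL.lev.sub hv), h2 v fun h => h.2 hv⟩, ?_, ?_⟩
  · obtain ⟨v, hv, hv', -⟩ := hL.both 0 true
    exact ⟨φ v, mem_image_of_mem _ (hL.lev.mod.sub hv), (h3 v hv hv').1⟩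
  · rintro _ ⟨v, -, rfl⟩ hv hv'
    by_cases h : v ∈ W ∧ v ∉ K
    · rw [← h0]; exact (hm (Nat.zero_le _)).trans (h3 v h.1 h.2).2.2.1
    · rw [h2 v h] at hv hv'
      exact absurd ⟨hv, hv'⟩ h

theorem Lad.pre (hL : g.Lad Q W K lvl τ up) : ∃ F lvl' mk, g.Pre F (W ∩ F) K lvl' τ mk up ∧
    (∀ n, mk (5 * n + 7) ∈ W ∩ F ∧ mk (5 * n + 7) ∉ K ∧ lvl' (mk (5 * n + 7)) = 5 * n + 7) ∧
    F ⊆ Q ∧ g.Le Q (code F mk ∅) ∧
    ∀ b, ∃ b', ∀ v ∈ W ∩ F, v ∉ K → lvl' v < b → lvl v < b' := by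
  obtain ⟨C, mk, φ, -, hm, h0, h1, h2, h3⟩ := hL.build 0
  have : ∀ v, ∃ i, (∃ j, C j ≤ lvl v ∧ lvl v < C (j + 1)) → C i ≤ lvl v ∧ lvl v < C (i + 1) := by
    intro v
    by_cases h : ∃ j, C j ≤ lvl v ∧ lvl v < C (j + 1)
    · obtain ⟨j, hj⟩ := h
      exact ⟨j, fun _ => hj⟩
    · exact ⟨0, fun h' => absurd h' h⟩
  choose lvl' hl using this
  have hlt : ∀ {i j m n : ℕ}, i < j → m < C (i + 1) → C j ≤ n → m < n := fun h k1 k2 =>
    k1.trans_le ((hm h).trans k2)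
  have hl2 : ∀ v j, C j ≤ lvl v → lvl v < C (j + 1) → lvl' v = j := by
    intro v j k1 k2
    obtain ⟨k3, k4⟩ := hl v ⟨j, k1, k2⟩
    rcases lt_trichotomy (lvl' v) j with h | h | h
    · exact absurd (hlt h k4 k1) (lt_irrefl _)
    · exact h
    · exact absurd (hlt h k2 k3) (lt_irrefl _)
  set F : Set V := φ '' Q ∪ mk '' {i | i % 5 ≠ 4} with hF
  have hFQ : F ⊆ Q := union_subset (image_subset_iff.2 h1.1)
    (image_subset_iff.2 fun i hi => hL.lev.mod.sub (h0 i hi).1)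
  have hKF : K ⊆ F := fun v hv =>
    Or.inl ⟨v, hL.lev.mod.sub (hL.lev.sub hv), h2 v fun h => h.2 hv⟩
  have hmk : ∀ i, i % 5 ≠ 4 → mk i ∈ W ∩ F ∧ mk i ∉ K ∧ lvl' (mk i) = i := fun i hi =>
    ⟨⟨(h0 i hi).1, Or.inr ⟨i, hi, rfl⟩⟩, (h0 i hi).2.1, hl2 _ _ (h0 i hi).2.2.1 (h0 i hi).2.2.2.1⟩
  have himg : ∀ v ∈ Q, φ v ∈ W → φ v ∉ K → lvl' (φ v) % 5 = 4 ∧
      ∃ j, C j ≤ lvl (φ v) ∧ lvl (φ v) < C (j + 1) := by
    intro v _ k1 k2
    by_cases h : v ∈ W ∧ v ∉ K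
    · obtain ⟨-, -, k3, k4⟩ := h3 v h.1 h.2
      exact ⟨by rw [hl2 _ _ k3 k4]; omega, _, k3, k4⟩
    · rw [h2 v h] at k1 k2
      exact absurd ⟨k1, k2⟩ h
  have hw : ∀ v ∈ W ∩ F, v ∉ K → C (lvl' v) ≤ lvl v ∧ lvl v < C (lvl' v + 1) := by
    rintro v ⟨hv, ⟨u, hu, rfl⟩ | ⟨i, hi, rfl⟩⟩ hv'
    · exact hl _ (himg u hu hv hv').2
    · exact hl _ ⟨i, (h0 i hi).2.2.1, (h0 i hi).2.2.2.1⟩
  have hL' := hL.lev.restrict hFQ hKF
  refine ⟨F, lvl', mk, ⟨⟨hL'.mod, hL'.sub, hL'.colK, fun v hv hv' u hu hu' h => ?_⟩,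
    fun i hi _ => hmk i hi, ?_⟩, fun n => hmk _ (by omega), hFQ, ⟨φ, h1.mono subset_rfl ?_⟩,
    fun b => ⟨C b, fun v hv hv' h => (hw v hv hv').2.trans_le (hm h)⟩⟩
  · refine hL'.col v hv hv' u hu hu' (h.imp (fun h => ⟨h.1, ?_⟩) fun h => ⟨h.1, ?_⟩)
    · exact hlt h.2 (hw u hu hu').2 (hw v hv hv').1
    · exact hlt h.2 (hw v hv hv').2 (hw u hu hu').1
  · rintro v ⟨hv, ⟨u, hu, rfl⟩ | ⟨i, hi, rfl⟩⟩ hv' h
    · exact absurd (himg u hu hv hv').1 h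
    · rw [(hmk i hi).2.2]; exact ⟨rfl, (h0 i hi).2.2.2.2⟩
  · intro v hv
    refine ⟨Or.inl (mem_image_of_mem _ hv), ?_⟩
    rintro ⟨n, -, h⟩
    obtain ⟨k1, k2, k3⟩ := hmk (5 * n + 7) (by omega)
    rw [← h] at k1 k2 k3
    have := (himg v hv k1.1 k2).1
    omega

theorem Lad.cont (hL : g.Lad Q W K lvl τ up) : g.Cont Q := by
  obtain ⟨F, lvl', mk, hP, hz, hFQ, hle, hb⟩ := hL.pre
  have hWQ := hL.lev.mod.sub
  cases up
  · rcases hP.down_alt hz hFQ hle with h | ⟨b, r, r1, r2, r3⟩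
    · exact h
    obtain ⟨b', hb'⟩ := hb b
    obtain ⟨Q0, q1, q2, -, q4, q5⟩ := hL.host b'
    have r4 : ∀ i, lvl (r i) < b' := fun i => hb' _ (r2 i).1 (r2 i).2.1 (r2 i).2.2
    have r5 : ∀ i, r i ∈ Q ∧ r i ∉ Q0 := fun i => ⟨hWQ (r2 i).1.1, fun h =>
      absurd (q5 _ h (r2 i).1.1 (r2 i).2.1) (not_le.2 (r4 i))⟩
    have r6 : ∀ i, ∀ k ∈ Q0 ∩ W, g.c (r i) k = τ (r i) := by
      intro i k hk
      by_cases h : k ∈ K
      · exact hL.lev.colK _ (r2 i).1.1 (r2 i).2.1 k h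
      · exact hL.lev.col _ (r2 i).1.1 (r2 i).2.1 k hk.2 h
          (Or.inr ⟨rfl, (r4 i).trans_le (q5 k hk.1 hk.2 h)⟩)
    rcases r3 with ⟨r7, r8⟩ | ⟨r7, r8⟩
    · refine pure (up := true) (K := Q0 ∩ W) q1 q2 inter_subset_left r1 r5 (fun i j h => ?_)
        (fun i k hk => by rw [r6 i k hk, r7]) (fun v hv hv' s hs s' hs' => ?_) fun _ => q4
      · rw [g.symm]; exact r8 j i (by unfold hi at h; simpa using h)
      · have k : Q0 ∩ W ∪ range r ⊆ W :=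
          union_subset inter_subset_right (range_subset_iff.2 fun i => (r2 i).1.1)
        exact hL.lev.mod.eq (k hs) (k hs') (q2 hv) fun h => hv' ⟨hv, h⟩
    · refine pure (up := false) (K := ∅) q1 q2 (empty_subset _) r1 r5 (fun i j h => ?_)
        (fun i k hk => absurd hk (notMem_empty _)) (fun v hv _ s hs s' hs' => ?_) (by simp)
      · exact r8 i j (by unfold hi at h; simpa using h)
      · rw [empty_union] at hs hs'
        obtain ⟨i, rfl⟩ := hs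
        obtain ⟨j, rfl⟩ := hs'
        by_cases h : v ∈ W
        · rw [r6 i v ⟨hv, h⟩, r6 j v ⟨hv, h⟩, r7 i j]
        · exact hL.lev.mod.eq (r2 i).1.1 (r2 j).1.1 (q2 hv) h
  · rcases hP.up_alt hz (hL.ne rfl) hFQ hle with h | ⟨b, r, r1, r2, r3⟩
    · exact h
    obtain ⟨b', hb'⟩ := hb b
    obtain ⟨Q0, q1, q2, q3, -, q5⟩ := hL.host b'
    have r4 : ∀ i, lvl (r i) < b' := fun i => hb' _ (r2 i).1 (r2 i).2.1 (r2 i).2.2.1
    refine pure (up := false) (K := K) q1 q2 q3 r1 (fun i => ⟨hWQ (r2 i).1.1, fun h =>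
      absurd (q5 _ h (r2 i).1.1 (r2 i).2.1) (not_le.2 (r4 i))⟩) (fun i j h => ?_)
      (fun i k hk => ?_) (fun v hv hv' s hs s' hs' => ?_) (by simp)
    · exact r3 i j (by unfold hi at h; simpa using h)
    · rw [hL.lev.colK _ (r2 i).1.1 (r2 i).2.1 k hk, (r2 i).2.2.2]
    · by_cases h : v ∈ W
      · have key : ∀ s ∈ K ∪ range r, g.c s v = τ v := by
          rintro s (hs | ⟨i, rfl⟩) <;> rw [g.symm]
          · exact hL.lev.colK v h hv' s hs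
          · exact hL.lev.col v h hv' _ (r2 i).1.1 (r2 i).2.1
              (Or.inl ⟨rfl, (r4 i).trans_le (q5 v hv h hv')⟩)
        rw [key s hs, key s' hs']
      · have k : K ∪ range r ⊆ W :=
          union_subset hL.lev.sub (range_subset_iff.2 fun i => (r2 i).1.1)
        exact hL.lev.mod.eq (k hs) (k hs') (q2 hv) h

theorem cont_down (hh : g.Emb Q Q h) (hx : x ∈ Q)
    (h0 : ∀ n, h^[n] x ∉ g.cl Q (h^[n + 1] x) (h^[n + 2] x)) : g.Cont Q := by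
  classical
  set N : ℕ → Set V := fun n => g.cl Q (h^[n] x) (h^[n + 1] x) with hN
  have m : ∀ n, h^[n] x ∈ Q := fun n => (hh.iter n).maps hx
  have sN : ∀ n, g.Str Q (N n) := fun n => str_cl _ _ _
  have a0 : ∀ n, h^[n] x ∈ N n := fun n => left_mem_cl (m n) _
  have a1 : ∀ n, h^[n + 1] x ∈ N n := fun n => right_mem_cl _ (m _)
  have anti : Antitone N := antitone_nat_of_succ_le fun n =>
    (sN (n + 1)).sub_cl (m n) (h0 n) (a0 (n + 1))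
  have a2 : ∀ i j, i ≤ j → h^[j] x ∈ N i := fun i j hij => anti hij (a0 j)
  have it : ∀ k j, h^[k] (h^[j] x) = h^[j + k] x := fun k j => by
    rw [← iterate_add_apply, add_comm]
  have p1 : ∀ k j, ∀ v ∈ N (j + 1), h^[k] v ∈ N (j + k) := fun k j v hv =>
    ((sN (j + 1)).sub_of ((hh.iter k).mod_pre (sN (j + k)).mod) (a0 (j + 1))
      ⟨m _, by rw [it]; exact a2 _ _ (by omega)⟩ (v := h^[j] x)
      ⟨m _, by rw [it]; exact a0 _⟩ (h0 j) hv).2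
  have p2 : ∀ k i, ∀ v ∈ Q, h^[k] v ∈ N (i + k + 1) → v ∈ N i := fun k i v hv hv' =>
    (sN i).sup_of ((hh.iter k).mod_pre (sN (i + k + 1)).mod) (a1 i)
      ⟨m _, by rw [it]; exact a2 _ _ (by omega)⟩ (a0 i)
      (fun h => h0 (i + k) (by have := h.2; rwa [it] at this)) ⟨hv, hv'⟩
  set K : Set V := {v | ∀ n, v ∈ N n} with hK
  have ex : ∀ v, v ∉ K → ∃ n, v ∉ N (n + 2) := by
    intro v hv
    by_contra hcon
    push Not at hcon
    exact hv fun n => anti (Nat.le_add_right n 2) (hcon n)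
  set lvl : V → ℕ := fun v => if h : ∃ n, v ∉ N (n + 2) then Nat.find h else 0 with hlvl
  have l1 : ∀ v ∈ N 1, v ∉ K → ∀ n, n ≤ lvl v ↔ v ∈ N (n + 1) := by
    intro v hv hv' n
    simp only [hlvl, ex v hv', dif_pos, Nat.le_find_iff, not_not]
    constructor
    · intro h
      rcases n with _ | n
      · exact hv
      · exact h n (Nat.lt_succ_self _)
    · exact fun h i hi => anti (by omega) h
  have l2 : ∀ v ∈ N 1, v ∉ K → v ∉ N (lvl v + 2) := fun v hv hv' h =>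
    absurd ((l1 v hv hv' (lvl v + 1)).2 h) (by omega)
  have t1 : ∀ v ∈ N 1, v ∉ K → ∀ u ∈ N (lvl v + 2), g.c v u = g.c v (h^[lvl v + 2] x) :=
    fun v hv hv' u hu => (sN _).mod.eq' hu (a0 _) ((sN 1).sub hv) (l2 v hv hv')
  refine Lad.cont (W := N 1) (K := K) (lvl := lvl) (τ := fun v => g.c v (h^[lvl v + 2] x))
    (up := false) ⟨⟨(sN 1).mod, fun v hv => hv 1, fun v hv hv' u hu => t1 v hv hv' u (hu _),
      fun v hv hv' u hu hu' h => t1 v hv hv' u ((l1 u hu hu' _).1 ?_)⟩,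
    fun n b => ?_, fun b e => ?_, by simp⟩
  · unfold hi at h; simpa using h
  · have key : ∀ v ∈ N 1, v ∉ K → lvl v = n → h^[b + 1] v ∈ N 1 ∧ h^[b + 1] v ∉ K ∧
        b ≤ lvl (h^[b + 1] v) ∧ lvl (h^[b + 1] v) < n + b + 3 := by
      intro v hv hv' hn
      have k1 := p1 (b + 1) n v ((l1 v hv hv' n).1 hn.ge)
      have k2 : h^[b + 1] v ∉ N (n + 2 + (b + 1) + 1) := fun h =>
        l2 v hv hv' (hn ▸ p2 _ _ v ((sN 1).sub hv) h)
      have k3 : h^[b + 1] v ∈ N 1 := anti (by omega) k1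
      have k4 : h^[b + 1] v ∉ K := fun h => k2 (h _)
      refine ⟨k3, k4, (l1 _ k3 k4 _).2 (anti (by omega) k1), not_le.1 fun h => k2 ?_⟩
      exact anti (by omega) ((l1 _ k3 k4 _).1 h)
    refine ⟨n + b + 3, h^[b + 1], (hh.iter _).mono (fun v hv => (sN 1).sub hv.1)
      fun v hv => key v hv.1 hv.2.1 hv.2.2, fun v hv hv' hn => ?_⟩
    obtain ⟨k1, k2, -⟩ := key v hv hv' hn
    rw [← t1 _ k1 k2 (h^[lvl (h^[b + 1] v) + 2 + lvl v + (b + 1)] x) (a2 _ _ (by omega)), ← it,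
      (hh.iter _).c ((sN 1).sub hv) (m _)]
    exact t1 v hv hv' _ (a2 _ _ (by omega))
  · obtain ⟨v, hv, hv', hc⟩ := both_types (sN (b + 1)).mod (sN (b + 2)) (sN (b + 3)).mod
      (anti (by omega)) (anti (by omega)) (a0 _) (h0 _) (a0 _) (h0 _) (a0 _) e
    have k1 : v ∈ N 1 := anti (by omega) hv
    have k2 : v ∉ K := fun h => hv' (h _)
    refine ⟨v, k1, k2, (l1 v k1 k2 b).2 hv, ?_⟩
    rw [← t1 v k1 k2 (h^[lvl v + 2 + b + 3] x) (a2 _ _ (by omega))]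
    exact hc _ (a2 _ _ (by omega))

theorem cont_up (hh : g.Emb Q Q h) (hx : x ∈ Q)
    (h0 : ∀ n, h^[n + 2] x ∉ g.cl Q (h^[n] x) (h^[n + 1] x)) : g.Cont Q := by
  classical
  set N : ℕ → Set V := fun n => g.cl Q (h^[n] x) (h^[n + 1] x) with hN
  have m : ∀ n, h^[n] x ∈ Q := fun n => (hh.iter n).maps hx
  have sN : ∀ n, g.Str Q (N n) := fun n => str_cl _ _ _
  have a0 : ∀ n, h^[n] x ∈ N n := fun n => left_mem_cl (m n) _
  have a1 : ∀ n, h^[n + 1] x ∈ N n := fun n => right_mem_cl _ (m _)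
  have mono : Monotone N := monotone_nat_of_le_succ fun n => by
    simp only [hN]
    rw [cl_comm Q (h^[n + 1] x)]
    exact (sN n).sub_cl (m _) (h0 n) (a1 n)
  have a2 : ∀ i j, j ≤ i + 1 → h^[j] x ∈ N i := fun i j hij => by
    rcases j with _ | j
    · exact mono (Nat.zero_le _) (a0 0)
    · exact mono (by omega) (a1 j)
  have it : ∀ k j, h^[k] (h^[j] x) = h^[j + k] x := fun k j => by
    rw [← iterate_add_apply, add_comm]
  have p1 : ∀ k i, ∀ v ∈ N i, h^[k] v ∈ N (i + k + 1) := fun k i v hv =>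
    ((sN i).sub_of ((hh.iter k).mod_pre (sN (i + k + 1)).mod) (a1 i)
      ⟨m _, by rw [it]; exact a2 _ _ (by omega)⟩ (v := h^[i + 2] x)
      ⟨m _, by rw [it]; exact a2 _ _ (by omega)⟩ (h0 i) hv).2
  have p2 : ∀ b j, ∀ v ∈ Q, h^[b + 1] v ∈ N (j + b) → v ∈ N j := fun b j v hv hv' =>
    (sN j).sup_of ((hh.iter (b + 1)).mod_pre (sN (j + b)).mod) (a0 j)
      ⟨m _, by rw [it]; exact a2 _ _ (by omega)⟩ (a1 j)
      (fun h => h0 (j + b) (by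
        have := h.2
        rwa [it, show j + 1 + (b + 1) = j + b + 2 by omega] at this)) ⟨hv, hv'⟩
  set W : Set V := {v | ∃ n, v ∈ N (n + 1)} with hW
  have hWm : g.Mod Q W := by
    have := mod_sUnion (g := g) (Q := Q) (x := x) (F := range fun n => N (n + 1)) (by
      rintro _ ⟨n, rfl⟩
      exact ⟨(sN _).mod, a2 _ 0 (by omega)⟩)
    convert this using 1
    ext v
    simp [hW]
  set lvl : V → ℕ := fun v => if h : ∃ n, v ∈ N (n + 1) then Nat.find h else 0 with hlvl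
  have l1 : ∀ v ∈ W, v ∉ N 0 → ∀ n, lvl v < n ↔ v ∈ N n := by
    intro v hv hv' n
    have hv2 : ∃ n, v ∈ N (n + 1) := hv
    simp only [hlvl, hv2, dif_pos, Nat.find_lt_iff]
    constructor
    · rintro ⟨i, hi, h⟩
      exact mono hi h
    · intro h
      rcases n with _ | n
      · exact absurd h hv'
      · exact ⟨n, Nat.lt_succ_self _, h⟩
  have t1 : ∀ v ∈ Q, ∀ n, v ∉ N n → ∀ u ∈ N n, g.c v u = g.c v x :=
    fun v hv n hv' u hu => (sN n).mod.eq' hu (a2 _ 0 (by omega)) hv hv'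
  refine Lad.cont (W := W) (K := N 0) (lvl := lvl) (τ := fun v => g.c v x)
    (up := true) ⟨⟨hWm, fun v hv => ⟨0, mono (by omega) hv⟩,
      fun v hv hv' u hu => t1 v (hWm.sub hv) 0 hv' u hu,
      fun v hv hv' u hu hu' h => t1 v (hWm.sub hv) (lvl v)
        (fun h => lt_irrefl _ ((l1 v hv hv' _).2 h)) u ((l1 u hu hu' _).1 ?_)⟩,
    fun n b => ?_, fun b e => ?_, fun _ => ⟨_, a0 0⟩⟩
  · unfold hi at h; simpa using h
  · have key : ∀ v ∈ W, v ∉ N 0 → lvl v = n → h^[b + 1] v ∉ N (n + b) := fun v hv hv' hn h =>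
      absurd ((l1 v hv hv' n).2 (p2 _ _ v (hWm.sub hv) h)) (by omega)
    refine ⟨n + 1 + (b + 1) + 1, h^[b + 1], (hh.iter _).mono (fun v hv => hWm.sub hv.1)
      fun v hv => ?_, fun v hv hv' hn => ?_⟩
    · have k1 := p1 (b + 1) (n + 1) v ((l1 v hv.1 hv.2.1 _).1 (by rw [hv.2.2]; omega))
      have k2 := key v hv.1 hv.2.1 hv.2.2
      have k3 : h^[b + 1] v ∈ W := ⟨_, k1⟩
      have k4 : h^[b + 1] v ∉ N 0 := fun h => k2 (mono (by omega) h)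
      exact ⟨k3, k4, not_lt.1 fun h => k2 (mono (by omega) ((l1 _ k3 k4 _).1 h)),
        (l1 _ k3 k4 _).2 k1⟩
    · rw [← t1 _ ((hh.iter _).maps (hWm.sub hv)) _ (key v hv hv' hn) (h^[b + 1] x)
        (a2 _ _ (by omega)), (hh.iter _).c (hWm.sub hv) hx]
  · obtain ⟨v, hv, hv', hc⟩ := both_types (sN (b + 2)).mod (sN (b + 1)) (sN b).mod
      (mono (by omega)) (mono (by omega)) (a1 _) (h0 _) (a1 _) (h0 _) (a0 _) e
    have k1 : v ∈ W := ⟨_, hv⟩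
    have k2 : v ∉ N 0 := fun h => hv' (mono (by omega) h)
    exact ⟨v, k1, k2, not_lt.1 fun h => hv' ((l1 v k1 k2 b).1 h), hc _ (a2 _ 0 (by omega))⟩

theorem stab_of_not_cont (hF : g.FinP) (hc : ¬ g.Cont Q) : g.Stab Q := by
  intro h hh x hx
  by_contra hne
  apply hc
  have m : ∀ n, h^[n] x ∈ Q := fun n => (hh.iter n).maps hx
  by_cases h1 : x ∈ g.cl Q (h x) (h (h x))
  · refine cont_up hh hx fun n => ?_
    induction n with
    | zero =>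
      exact fun h2 => hne (Subset.antisymm ((str_cl _ _ _).cl_sub (right_mem_cl _ (m 1)) h2)
        ((str_cl _ _ _).cl_sub h1 (left_mem_cl (m 1) _)))
    | succ n ih =>
      simp only [iterate_succ_apply'] at ih ⊢
      exact ascend hF hh (m n) ih
  · refine cont_down hh hx fun n => ?_
    induction n with
    | zero => exact h1
    | succ n ih =>
      simp only [iterate_succ_apply'] at ih ⊢
      exact descend hF hh (m n) ih

end Gr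

end Pool.Agent.MP_2a6d4e_co
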