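import Mathlib
import Pool.Agent.Results.MP_2a6d4e_co.FinitePrimes

/-! The special case of countable cographs (not a hand-in). -/

namespace Pool.Agent.MP_2a6d4e_co

open Cardinal Pool.Agent.Results.MP_2a6d4e_co.FinitePrimes

theorem cograph (V : Type) [Countable V] (G : SimpleGraph V)
    (h : IsEmpty (SimpleGraph.pathGraph 4 ↪g G)) :
    siblingCount G = 1 ∨ siblingCount G = ℵ₀ ∨ siblingCount G = 𝔠 := by
  refine count G (Gr.finP_of_free fun a b c d h1 h2 h3 h4 h5 h6 => h.elim ?_)
  simp only [toGr, decide_eq_true_eq, decide_eq_false_iff_not] at h1 h2 h3 h4 h5 h6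
  have k1 := h1.symm
  have k2 := h2.symm
  have k3 := h3.symm
  have k4 : ¬ G.Adj c a := fun h => h4 h.symm
  have k5 : ¬ G.Adj d a := fun h => h5 h.symm
  have k6 : ¬ G.Adj d b := fun h => h6 h.symm
  refine ⟨⟨![a, b, c, d], fun i j hij => ?_⟩, fun {i j} => ?_⟩
  · fin_cases i <;> fin_cases j <;> simp at hij ⊢ <;> subst hij <;> simp_all
  · fin_cases i <;> fin_cases j <;> simp [SimpleGraph.pathGraph_adj, *]

end Pool.Agent.MP_2a6d4e_co
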