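import Mathlib.Data.Set.Piecewise
import Mathlib.Order.WellFoundedSet
import Mathlib.Data.Nat.SuccPred
import Mathlib.Data.Finite.Sum
import Mathlib.Algebra.Notation.Lemmas
import Mathlib.Order.CompletePartialOrder
import Mathlib.SetTheory.ZFC.PSet
import Mathlib.Data.Set.Card
import Mathlib.Data.ENat.Lattice

-- ======== part 0: formerly Pool.Agent.MP_2a6d4e_co.h30.Lam
section MrgPart0

/-! Labelled laminar systems, their cellular subsets, and the well-quasi-order of these. -/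

namespace Pool.Agent.MP_2a6d4e_co.h30

open Set Function

/-- Atoms are points (ends of a finitely branching tree) or factors (sitting at a tree node). -/
structure Lam (At Lab : Type) where
  lab : At → Lab
  pt : At → Prop
  dg : At → ℕ → ℕ
  dep : At → ℕ
  r : ℕ → ℕ
  lab_pt : ∀ a b, lab a = lab b → pt a → pt b
  dg_lt : ∀ a n, dg a n < r n
  sep : ∀ a b, pt a → pt b → dg a = dg b → a = b

namespace Lam

variable {At Lab : Type} (X : Lam At Lab)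

def ad (a : At) : ℕ → List ℕ
  | 0 => []
  | n + 1 => X.dg a n :: ad a n

def In (a : At) (u : List ℕ) : Prop := (X.pt a ∨ u.length ≤ X.dep a) ∧ X.ad a u.length = u

def bl (a : At) : List ℕ := X.ad a (X.dep a)

def M (a b : At) : Prop := ¬ X.pt a ∧ X.pt b ∧ X.In b (X.bl a)

def Sub (u : List ℕ) : Set At := {a | X.In a u}

def TE (S T : Set At) (g : At → At) : Prop :=
  MapsTo g S T ∧ InjOn g S ∧ (∀ a ∈ S, X.lab (g a) = X.lab a) ∧
    ∀ a ∈ S, ∀ b ∈ S, (X.M (g a) (g b) ↔ X.M a b)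

def TI (S T : Set At) (g : At → At) : Prop := X.TE S T g ∧ SurjOn g S T

def Le (S T : Set At) : Prop := ∃ g, X.TE S T g

def Cr (S T : Set At) (e : Prop) : Prop :=
  ∀ a ∈ S, ∀ b ∈ T, a ≠ b ∧ (X.M a b ↔ e ∧ ¬ X.pt a ∧ X.pt b) ∧ ¬ X.M b a

inductive Cell : ℕ → Set At → Prop
  | one (n : ℕ) (S : Set At) : S.Subsingleton → Cell n S
  | sum (n : ℕ) (S T : Set At) (e : Prop) : Cell n S → Cell n T → X.Cr S T e →
      Cell (n + 1) (S ∪ T)
  | inf (n : ℕ) (π : ℕ → Set At) (e : ℕ → At → At) : Cell n (π 0) → (π 0).Finite →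
      (∀ i j, i ≠ j → X.Cr (π i) (π j) False) → (∀ i, X.TI (π 0) (π i) (e i)) →
      Cell (n + 1) (⋃ i, π i)

def Cl (S : Set At) : Prop := ∃ n, X.Cell n S

variable {X}
variable {a b : At} {u v : List ℕ} {S T U S' T' : Set At} {g g' : At → At} {e : Prop}

@[simp] theorem length_ad (a : At) (n : ℕ) : (X.ad a n).length = n := by
  induction n with
  | zero => rfl
  | succ n ih => simp [ad, ih]

theorem ad_suffix (a : At) {n m : ℕ} (h : n ≤ m) : X.ad a n <:+ X.ad a m := by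
  induction h with
  | refl => exact List.suffix_refl _
  | step _ ih => exact ih.trans (List.suffix_cons _ _)

theorem suffix_ad {m : ℕ} : u <:+ X.ad a m ↔ u.length ≤ m ∧ X.ad a u.length = u := by
  constructor
  · intro h
    have h1 : u.length ≤ m := by simpa using h.length_le
    exact ⟨h1, ((List.suffix_of_suffix_length_le (ad_suffix a h1) h (by simp)).eq_of_length
      (by simp))⟩
  · rintro ⟨h1, h2⟩
    exact h2 ▸ ad_suffix a h1

theorem In.mono (h : X.In a v) (huv : u <:+ v) : X.In a u :=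
  ⟨h.1.imp_right huv.length_le.trans, (suffix_ad.1 (h.2.symm ▸ huv)).2⟩

theorem In.suffix (hu : X.In a u) (hv : X.In a v) (h : u.length ≤ v.length) : u <:+ v := by
  rw [← hu.2, ← hv.2]; exact ad_suffix a h

theorem In.cmp (hu : X.In a u) (hv : X.In a v) : u <:+ v ∨ v <:+ u :=
  (le_total u.length v.length).imp (hu.suffix hv) (hv.suffix hu)

theorem In.eq (hu : X.In a u) (hv : X.In a v) (h : u.length = v.length) : u = v :=
  (hu.suffix hv h.le).eq_of_length h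

theorem in_fac (ha : ¬ X.pt a) : X.In a u ↔ u <:+ X.bl a := by
  simp [In, bl, suffix_ad, ha]

theorem in_ad (ha : X.pt a) (n : ℕ) : X.In a (X.ad a n) := ⟨Or.inl ha, by simp⟩

theorem in_bl (a : At) : X.In a (X.bl a) := ⟨Or.inr (by simp [bl]), by simp [bl]⟩

theorem in_nil (a : At) : X.In a [] := ⟨Or.inr (Nat.zero_le _), rfl⟩

theorem In.lt {d : ℕ} (h : X.In a (d :: u)) : d < X.r u.length := by
  have := h.2
  simp only [List.length_cons, ad, List.cons.injEq] at this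
  exact this.1 ▸ X.dg_lt _ _

theorem In.step (h : X.In a u) (h' : X.pt a ∨ X.bl a ≠ u) : ∃ d, X.In a (d :: u) := by
  refine ⟨X.dg a u.length, ?_, by simp [ad, h.2]⟩
  by_cases hp : X.pt a
  · exact Or.inl hp
  · have h1 := (in_fac hp).1 h
    have h2 := h1.length_le
    have h3 : u.length ≠ (X.bl a).length := fun h4 =>
      (h'.resolve_left hp) (h1.eq_of_length h4).symm
    simp only [bl, length_ad, List.length_cons] at h2 h3 ⊢
    omega

theorem M.sub (h : X.M a b) (ha : X.In a u) : X.In b u := h.2.2.mono ((in_fac h.1).1 ha)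

theorem M.ne (h : X.M a b) : a ≠ b := fun hab => h.1 (hab ▸ h.2.1)

theorem m_irr (a : At) : ¬ X.M a a := fun h => h.ne rfl

theorem sep' (h : a ≠ b) : ∃ N, ∀ u, X.In a u → X.In b u → u.length < N := by
  by_cases ha : X.pt a
  · by_cases hb : X.pt b
    · obtain ⟨n, hn⟩ := Function.ne_iff.1 fun h' => h (X.sep a b ha hb h')
      refine ⟨n + 1, fun u h1 h2 => ?_⟩
      by_contra hlt
      have h3 := (in_ad ha (n + 1)).suffix h1 (by simpa using hlt)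
      have h4 := (h2.mono h3).2
      rw [length_ad] at h4
      simp only [ad, List.cons.injEq] at h4
      exact hn h4.1.symm
    · exact ⟨X.dep b + 1, fun u _ h2 => Nat.lt_succ_of_le (h2.1.resolve_left hb)⟩
  · exact ⟨X.dep a + 1, fun u h1 _ => Nat.lt_succ_of_le (h1.1.resolve_left ha)⟩

theorem pt_iff (h : X.lab a = X.lab b) : X.pt a ↔ X.pt b :=
  ⟨X.lab_pt _ _ h, X.lab_pt _ _ h.symm⟩

theorem TE.maps (h : X.TE S T g) (ha : a ∈ S) : g a ∈ T := h.1 ha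

theorem TE.lab (h : X.TE S T g) (ha : a ∈ S) : X.lab (g a) = X.lab a := h.2.2.1 a ha

theorem TE.pt (h : X.TE S T g) (ha : a ∈ S) : X.pt (g a) ↔ X.pt a := pt_iff (h.lab ha)

theorem TE.m (h : X.TE S T g) (ha : a ∈ S) (hb : b ∈ S) : X.M (g a) (g b) ↔ X.M a b :=
  h.2.2.2 a ha b hb

theorem TE.ne (h : X.TE S T g) (ha : a ∈ S) (hb : b ∈ S) (hab : a ≠ b) : g a ≠ g b :=
  fun h' => hab (h.2.1 ha hb h')

theorem te_of (h1 : ∀ a ∈ S, g a ∈ T ∧ X.lab (g a) = X.lab a)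
    (h2 : ∀ a ∈ S, ∀ b ∈ S, a ≠ b → g a ≠ g b ∧ (X.M (g a) (g b) ↔ X.M a b)) : X.TE S T g := by
  refine ⟨fun a ha => (h1 a ha).1, fun a ha b hb h => ?_, fun a ha => (h1 a ha).2,
    fun a ha b hb => ?_⟩
  · by_contra hne
    exact (h2 a ha b hb hne).1 h
  · by_cases hab : a = b
    · subst hab; exact iff_of_false (m_irr _) (m_irr _)
    · exact (h2 a ha b hb hab).2

theorem te_id (h : S ⊆ T) : X.TE S T id :=
  ⟨fun _ ha => h ha, injOn_id S, fun _ _ => rfl, fun _ _ _ _ => Iff.rfl⟩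

theorem TE.comp (h' : X.TE T U g') (h : X.TE S T g) : X.TE S U (g' ∘ g) :=
  ⟨h'.1.comp h.1, h'.2.1.comp h.2.1 h.1, fun _ ha => (h'.lab (h.maps ha)).trans (h.lab ha),
    fun _ ha _ hb => (h'.m (h.maps ha) (h.maps hb)).trans (h.m ha hb)⟩

theorem TE.mono_right (h : X.TE S T g) (hT : T ⊆ T') : X.TE S T' g :=
  ⟨h.1.mono_right hT, h.2⟩

theorem TI.comp (h' : X.TI T U g') (h : X.TI S T g) : X.TI S U (g' ∘ g) :=
  ⟨h'.1.comp h.1, h'.2.comp h.2⟩

theorem TI.inv (h : X.TI S T g) :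
    ∃ g', X.TI T S g' ∧ (∀ a ∈ S, g' (g a) = a) ∧ ∀ b ∈ T, g (g' b) = b := by
  have : ∀ b, ∃ a, b ∈ T → a ∈ S ∧ g a = b := by
    intro b
    by_cases hb : b ∈ T
    · obtain ⟨a, ha, hab⟩ := h.2 hb
      exact ⟨a, fun _ => ⟨ha, hab⟩⟩
    · exact ⟨b, fun h => absurd h hb⟩
  choose f hf using this
  have h1 : ∀ a ∈ S, f (g a) = a := fun a ha =>
    h.1.2.1 (hf _ (h.1.maps ha)).1 ha (hf _ (h.1.maps ha)).2
  refine ⟨f, ⟨⟨fun b hb => (hf b hb).1, fun b hb b' hb' hbb => ?_, fun b hb => ?_,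
    fun b hb b' hb' => ?_⟩, fun a ha => ⟨g a, h.1.maps ha, h1 a ha⟩⟩, h1, fun b hb => (hf b hb).2⟩
  · rw [← (hf b hb).2, ← (hf b' hb').2, hbb]
  · rw [← h.1.lab (hf b hb).1, (hf b hb).2]
  · rw [← h.1.m (hf b hb).1 (hf b' hb').1, (hf b hb).2, (hf b' hb').2]

theorem le_of_sub (h : S ⊆ T) : X.Le S T := ⟨id, te_id h⟩

theorem Le.trans (h : X.Le S T) (h' : X.Le T U) : X.Le S U := by
  obtain ⟨g, h⟩ := h
  obtain ⟨g', h'⟩ := h'
  exact ⟨_, h'.comp h⟩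

instance : IsPreorder (Set At) X.Le where
  refl _ := le_of_sub subset_rfl
  trans _ _ _ := Le.trans

theorem Cr.mono (h : X.Cr S T e) (hS : S' ⊆ S) (hT : T' ⊆ T) : X.Cr S' T' e :=
  fun a ha b hb => h a (hS ha) b (hT hb)

theorem glue_sum (h : X.TE S S' g) (h' : X.TE T T' g') (c : X.Cr S T e) (c' : X.Cr S' T' e) :
    ∃ G, X.TE (S ∪ T) (S' ∪ T') G ∧ (∀ a ∈ S, G a = g a) ∧ ∀ a ∈ T, G a = g' a := by
  classical
  have k1 : ∀ a ∈ S, S.piecewise g g' a = g a := fun a ha => piecewise_eq_of_mem _ _ _ ha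
  have k2 : ∀ a ∈ T, S.piecewise g g' a = g' a := fun a ha =>
    piecewise_eq_of_notMem _ _ _ fun h => (c a h a ha).1 rfl
  refine ⟨S.piecewise g g', te_of ?_ ?_, k1, k2⟩
  · rintro a (ha | ha)
    · rw [k1 a ha]; exact ⟨Or.inl (h.maps ha), h.lab ha⟩
    · rw [k2 a ha]; exact ⟨Or.inr (h'.maps ha), h'.lab ha⟩
  · rintro a (ha | ha) b (hb | hb) hab
    · rw [k1 a ha, k1 b hb]; exact ⟨h.ne ha hb hab, h.m ha hb⟩
    · rw [k1 a ha, k2 b hb]
      have := c' _ (h.maps ha) _ (h'.maps hb)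
      exact ⟨this.1, by rw [this.2.1, (c a ha b hb).2.1, h.pt ha, h'.pt hb]⟩
    · rw [k2 a ha, k1 b hb]
      have := c' _ (h.maps hb) _ (h'.maps ha)
      exact ⟨this.1.symm, iff_of_false this.2.2 (c b hb a ha).2.2⟩
    · rw [k2 a ha, k2 b hb]; exact ⟨h'.ne ha hb hab, h'.m ha hb⟩

theorem glue_inf {ι κ : Type} {π : ι → Set At} {π' : κ → Set At} {τ : ι → κ} (hτ : Injective τ)
    {f : ι → At → At} (h : ∀ i, X.TE (π i) (π' (τ i)) (f i))
    (c : ∀ i j, i ≠ j → X.Cr (π i) (π j) False) (c' : ∀ i j, i ≠ j → X.Cr (π' i) (π' j) False) :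
    ∃ G, X.TE (⋃ i, π i) (⋃ i, π' i) G ∧ ∀ i, ∀ a ∈ π i, G a = f i a := by
  classical
  have k : ∀ i, ∀ a ∈ π i, (if h : ∃ i, a ∈ π i then f h.choose a else a) = f i a := by
    intro i a ha
    have h1 : ∃ i, a ∈ π i := ⟨i, ha⟩
    rw [dif_pos h1]
    by_cases h2 : h1.choose = i
    · rw [h2]
    · exact absurd rfl (c _ _ h2 a h1.choose_spec a ha).1
  refine ⟨_, te_of ?_ ?_, k⟩
  · intro a ha
    obtain ⟨i, ha⟩ := mem_iUnion.1 ha
    rw [k i a ha]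
    exact ⟨mem_iUnion.2 ⟨_, (h i).maps ha⟩, (h i).lab ha⟩
  · intro a ha b hb hab
    obtain ⟨i, ha⟩ := mem_iUnion.1 ha
    obtain ⟨j, hb⟩ := mem_iUnion.1 hb
    rw [k i a ha, k j b hb]
    by_cases hij : i = j
    · subst hij; exact ⟨(h i).ne ha hb hab, (h i).m ha hb⟩
    · have := c' _ _ (hτ.ne hij) _ ((h i).maps ha) _ ((h j).maps hb)
      exact ⟨this.1, by rw [this.2.1, (c _ _ hij a ha b hb).2.1]; simp⟩

variable (X) in
def Dec (S : Set At) (k : Option Lab ⊕ Option Prop) (L R : Set At) : Prop :=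
  match k with
  | .inl none => S = ∅
  | .inl (some l) => ∃ a, S = {a} ∧ X.lab a = l
  | .inr (some e) => S = L ∪ R ∧ X.Cr L R e
  | .inr none => ∃ (π : ℕ → Set At) (e : ℕ → At → At), S = ⋃ i, π i ∧ L = π 0 ∧
      (∀ i j, i ≠ j → X.Cr (π i) (π j) False) ∧ ∀ i, X.TI (π 0) (π i) (e i)

theorem dec_le {k : Option Lab ⊕ Option Prop} {L R L' R' : Set At} (h : X.Dec S k L R)
    (h' : X.Dec S' k L' R') (hL : X.Le L L') (hR : X.Le R R') : X.Le S S' := by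
  obtain ⟨g, hg⟩ := hL
  obtain ⟨g', hg'⟩ := hR
  rcases k with (_ | l) | (_ | e)
  · exact le_of_sub (by rw [show S = ∅ from h]; exact empty_subset _)
  · obtain ⟨a, rfl, ha⟩ := h
    obtain ⟨a', rfl, ha'⟩ := h'
    refine ⟨fun _ => a', te_of ?_ ?_⟩
    · rintro _ rfl; exact ⟨rfl, ha'.trans ha.symm⟩
    · rintro _ rfl _ rfl h; exact absurd rfl h
  · obtain ⟨π, e, rfl, rfl, c, t⟩ := h
    obtain ⟨π', e', rfl, rfl, c', t'⟩ := h'
    choose f hf using fun i => (t i).inv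
    obtain ⟨G, hG, -⟩ := glue_inf injective_id
      (fun i => (t' i).1.comp (hg.comp (hf i).1.1)) c c'
    exact ⟨G, hG⟩
  · obtain ⟨rfl, c⟩ := h
    obtain ⟨rfl, c'⟩ := h'
    obtain ⟨G, hG, -⟩ := glue_sum hg hg' c c'
    exact ⟨G, hG⟩

theorem dec_exists {n : ℕ} (h : X.Cell n S) : ∃ k L R, X.Dec S k L R ∧
    (L = ∅ ∨ L ⊆ S ∧ ∃ m < n, X.Cell m L) ∧ (R = ∅ ∨ R ⊆ S ∧ ∃ m < n, X.Cell m R) := by
  cases h with
  | one n S h =>
    rcases h.eq_empty_or_singleton with h | ⟨a, h⟩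
    · exact ⟨.inl none, ∅, ∅, h, Or.inl rfl, Or.inl rfl⟩
    · exact ⟨.inl (some (X.lab a)), ∅, ∅, ⟨a, h, rfl⟩, Or.inl rfl, Or.inl rfl⟩
  | sum n S T e h1 h2 c =>
    exact ⟨.inr (some e), S, T, ⟨rfl, c⟩, Or.inr ⟨subset_union_left, n, n.lt_succ_self, h1⟩,
      Or.inr ⟨subset_union_right, n, n.lt_succ_self, h2⟩⟩
  | inf n π e h1 h2 c t =>
    exact ⟨.inr none, π 0, ∅, ⟨π, e, rfl, rfl, c, t⟩,
      Or.inr ⟨subset_iUnion π 0, n, n.lt_succ_self, h1⟩, Or.inl rfl⟩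

theorem wqo [Finite Lab] : {S | X.Cl S}.PartiallyWellOrderedOn X.Le := by
  classical
  suffices H : {p : ℕ × Set At | X.Cell p.1 p.2}.PartiallyWellOrderedOn fun p q => X.Le p.2 q.2 by
    rw [partiallyWellOrderedOn_iff_exists_lt]
    intro f hf
    choose n hn using hf
    exact H.exists_lt (f := fun i => (n i, f i)) hn
  rw [PartiallyWellOrderedOn.iff_not_exists_isMinBadSeq Prod.fst]
  rintro ⟨f, ⟨f1, f2⟩, f3⟩
  have hY : {T | T = ∅ ∨ ∃ i, T ⊆ (f i).2 ∧ ∃ m < (f i).1, X.Cell m T}.PartiallyWellOrderedOn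
      X.Le := by
    rw [partiallyWellOrderedOn_iff_exists_lt]
    intro y hy
    by_cases h0 : ∃ j, y j = ∅
    · obtain ⟨j, hj⟩ := h0
      exact ⟨j, j + 1, j.lt_succ_self, le_of_sub (hj ▸ empty_subset _)⟩
    push Not at h0
    choose i hi m hm hc using fun j => (hy j).resolve_left (h0 j).ne_empty
    obtain ⟨j0, hj0⟩ : ∃ j0, ∀ j, i j0 ≤ i j :=
      ⟨Function.argmin i, fun j => Function.argmin_le i j⟩
    have := f3 (i j0) (fun n => if n < i j0 then f n else (m (j0 + n - i j0), y (j0 + n - i j0)))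
      (fun n hn => (if_pos hn).symm) (by simpa using hm j0)
    rw [PartiallyWellOrderedOn.IsBadSeq] at this
    push Not at this
    obtain ⟨p, q, hpq, h⟩ := this fun n => by
      split_ifs
      exacts [f1 n, hc _]
    by_cases hq : q < i j0
    · rw [if_pos hq, if_pos (hpq.trans hq)] at h
      exact absurd h (f2 p q hpq)
    · rw [if_neg hq] at h
      by_cases hp : p < i j0
      · rw [if_pos hp] at h
        exact absurd (h.trans (le_of_sub (hi _))) (f2 _ _ (hp.trans_le (hj0 _)))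
      · rw [if_neg hp] at h
        exact ⟨_, _, by omega, h⟩
  choose k L R hd hL hR using fun i => dec_exists (f1 i)
  have hK : (univ : Set (Option Lab ⊕ Option Prop)).PartiallyWellOrderedOn Eq :=
    finite_univ.partiallyWellOrderedOn
  obtain ⟨s, hs⟩ := hY.exists_monotone_subseq (f := L) fun i => (hL i).imp_right fun h => ⟨i, h⟩
  obtain ⟨p, q, hpq, h1, h2⟩ := (hY.prod hK).exists_lt (f := fun i => (R (s i), k (s i)))
    fun i => ⟨(hR _).imp_right fun h => ⟨_, h⟩, trivial⟩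
  simp only at h1 h2
  exact f2 _ _ (s.strictMono hpq) (dec_le (hd _) (h2 ▸ hd _) (hs _ _ hpq.le) h1)

end Lam

end Pool.Agent.MP_2a6d4e_co.h30

end MrgPart0

-- ======== part 1: formerly Pool.Agent.MP_2a6d4e_co.Basic
section MrgPart1

/-! Modules, strong modules and the modular decomposition of a two-coloured complete structure,
relative to an arbitrary ground set `Q`. -/

namespace Pool.Agent.MP_2a6d4e_co

open Set

/-- A graph, as a symmetric Boolean colouring of pairs. -/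
structure Gr (V : Type) where
  c : V → V → Bool
  symm : ∀ a b, c a b = c b a
  irr : ∀ a, c a a = false

namespace Gr

variable {V : Type} (g : Gr V)

/-- `X` is a module of the graph induced on `Q`. -/
def Mod (Q X : Set V) : Prop :=
  X ⊆ Q ∧ ∀ a ∈ X, ∀ a' ∈ X, ∀ b ∈ Q, b ∉ X → g.c a b = g.c a' b

/-- `X` is a strong module of the graph induced on `Q`. -/
def Str (Q X : Set V) : Prop :=
  g.Mod Q X ∧ ∀ Y, g.Mod Q Y → ∀ x, x ∈ X → x ∈ Y → X ⊆ Y ∨ Y ⊆ X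

/-- The least strong module containing `a` and `b`. -/
def cl (Q : Set V) (a b : V) : Set V :=
  {v | v ∈ Q ∧ ∀ X, g.Str Q X → a ∈ X → b ∈ X → v ∈ X}

/-- The child of the node `w` that contains `x`. -/
def ch (Q w : Set V) (x : V) : Set V := {v | v ∈ w ∧ g.cl Q x v ≠ w}

def Node (Q w : Set V) : Prop := ∃ a ∈ Q, ∃ b ∈ Q, a ≠ b ∧ g.cl Q a b = w

def Deg (Q w : Set V) (e : Bool) : Prop := ∀ x ∈ w, ∀ y ∈ w, g.cl Q x y = w → g.c x y = e

/-- `X` has no proper split all of whose cross pairs have colour `e`. -/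
def Ind (X : Set V) (e : Bool) : Prop :=
  ∀ A : Set V, (∀ a ∈ X, ∀ b ∈ X, a ∈ A → b ∉ A → g.c a b = e) →
    ∀ a ∈ X, ∀ b ∈ X, a ∈ A → b ∈ A

variable {g}
variable {Q X Y Z w : Set V} {a b x y : V} {e : Bool}

theorem Mod.sub (h : g.Mod Q X) : X ⊆ Q := h.1

theorem Mod.eq (h : g.Mod Q X) {a a' b : V} (ha : a ∈ X) (ha' : a' ∈ X) (hb : b ∈ Q)
    (hb' : b ∉ X) : g.c a b = g.c a' b := h.2 a ha a' ha' b hb hb'

theorem Mod.eq' (h : g.Mod Q X) {a a' b : V} (ha : a ∈ X) (ha' : a' ∈ X) (hb : b ∈ Q)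
    (hb' : b ∉ X) : g.c b a = g.c b a' := by
  rw [g.symm b a, g.symm b a']; exact h.eq ha ha' hb hb'

theorem Str.mod (h : g.Str Q X) : g.Mod Q X := h.1

theorem Str.sub (h : g.Str Q X) : X ⊆ Q := h.1.1

theorem Str.cmp (h : g.Str Q X) (hY : g.Mod Q Y) (hx : x ∈ X) (hy : x ∈ Y) :
    X ⊆ Y ∨ Y ⊆ X := h.2 Y hY x hx hy

/-- A module meeting a strong module and not contained in it contains it. -/
theorem Str.sub_of (h : g.Str Q X) (hY : g.Mod Q Y) (hx : x ∈ X) (hy : x ∈ Y)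
    {v : V} (hv : v ∈ Y) (hv' : v ∉ X) : X ⊆ Y := by
  rcases h.cmp hY hx hy with h1 | h1
  · exact h1
  · exact absurd (h1 hv) hv'

/-- A module meeting a strong module and missing a point of it is contained in it. -/
theorem Str.sup_of (h : g.Str Q X) (hY : g.Mod Q Y) (hx : x ∈ X) (hy : x ∈ Y)
    {v : V} (hv : v ∈ X) (hv' : v ∉ Y) : Y ⊆ X := by
  rcases h.cmp hY hx hy with h1 | h1
  · exact absurd (h1 hv) hv'
  · exact h1

theorem mod_self (Q : Set V) : g.Mod Q Q := ⟨subset_rfl, fun _ _ _ _ _ hb hb' => absurd hb hb'⟩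

theorem str_self (Q : Set V) : g.Str Q Q := ⟨mod_self Q, fun _ hY _ _ _ => Or.inr hY.sub⟩

theorem mod_single (ha : a ∈ Q) : g.Mod Q {a} := by
  refine ⟨singleton_subset_iff.2 ha, ?_⟩
  intro x hx y hy b _ _
  rw [mem_singleton_iff] at hx hy
  rw [hx, hy]

theorem str_single (ha : a ∈ Q) : g.Str Q {a} := by
  refine ⟨mod_single ha, fun Y _ x hx hy => Or.inl ?_⟩
  rw [mem_singleton_iff] at hx
  subst hx
  exact singleton_subset_iff.2 hy

theorem Mod.trans (h : g.Mod Q X) (hY : g.Mod X Y) : g.Mod Q Y := by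
  refine ⟨hY.sub.trans h.sub, fun a ha a' ha' b hb hb' => ?_⟩
  by_cases hbX : b ∈ X
  · exact hY.eq ha ha' hbX hb'
  · exact h.eq (hY.sub ha) (hY.sub ha') hb hbX

theorem Mod.restrict (h : g.Mod Q X) {A : Set V} (hA : A ⊆ Q) : g.Mod A (X ∩ A) :=
  ⟨inter_subset_right, fun _ ha _ ha' _ hb hb' =>
    h.eq ha.1 ha'.1 (hA hb) (fun hbX => hb' ⟨hbX, hb⟩)⟩

theorem Mod.restrict' (h : g.Mod Q X) {A : Set V} (hA : A ⊆ Q) (hX : X ⊆ A) : g.Mod A X := by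
  have := h.restrict hA
  rwa [inter_eq_left.2 hX] at this

theorem Str.restrict (h : g.Str Q X) {A : Set V} (hA : g.Mod Q A) (hX : X ⊆ A) : g.Str A X :=
  ⟨h.mod.restrict' hA.sub hX, fun _ hY _ hx hy => h.cmp (hA.trans hY) hx hy⟩

theorem Str.trans (h : g.Str Q X) (hY : g.Str X Y) : g.Str Q Y := by
  refine ⟨h.mod.trans hY.mod, fun Z hZ x hx hz => ?_⟩
  rcases h.cmp hZ (hY.sub hx) hz with h1 | h1
  · exact Or.inl (hY.sub.trans h1)
  · exact hY.cmp (hZ.restrict' h.sub h1) hx hz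

/-- The union of a family of modules through a common point is a module. -/
theorem mod_sUnion {F : Set (Set V)} (hF : ∀ X ∈ F, g.Mod Q X ∧ x ∈ X) : g.Mod Q (⋃₀ F) := by
  refine ⟨sUnion_subset fun X hX => (hF X hX).1.sub, ?_⟩
  rintro a ⟨A, hA, ha⟩ a' ⟨A', hA', ha'⟩ b hb hb'
  have h1 : b ∉ A := fun h => hb' ⟨A, hA, h⟩
  have h2 : b ∉ A' := fun h => hb' ⟨A', hA', h⟩
  rw [(hF A hA).1.eq ha (hF A hA).2 hb h1, (hF A' hA').1.eq ha' (hF A' hA').2 hb h2]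

theorem Mod.union (hX : g.Mod Q X) (hY : g.Mod Q Y) (hx : x ∈ X) (hy : x ∈ Y) :
    g.Mod Q (X ∪ Y) := by
  have : g.Mod Q (⋃₀ {X, Y}) := mod_sUnion (x := x) (by
    intro Z hZ
    rcases hZ with rfl | hZ
    · exact ⟨hX, hx⟩
    · rw [mem_singleton_iff] at hZ; subst hZ; exact ⟨hY, hy⟩)
  simpa using this

theorem str_sUnion {F : Set (Set V)} (hF : ∀ X ∈ F, g.Str Q X ∧ x ∈ X) : g.Str Q (⋃₀ F) := by
  refine ⟨mod_sUnion (x := x) fun X hX => ⟨(hF X hX).1.mod, (hF X hX).2⟩, ?_⟩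
  rintro Y hY u ⟨A, hA, hu⟩ huY
  by_cases h : Y ⊆ ⋃₀ F
  · exact Or.inr h
  · left
    obtain ⟨v, hvY, hv⟩ := not_subset.1 h
    have hAY : A ⊆ Y := (hF A hA).1.sub_of hY hu huY hvY (fun h => hv ⟨A, hA, h⟩)
    rintro p ⟨B, hB, hp⟩
    exact (hF B hB).1.sub_of hY (hF B hB).2 (hAY (hF A hA).2) hvY (fun h => hv ⟨B, hB, h⟩) hp

/-- Intersections of strong modules. -/
theorem str_inter {F : Set (Set V)} (hF : ∀ X ∈ F, g.Str Q X) :
    g.Str Q {v | v ∈ Q ∧ ∀ X ∈ F, v ∈ X} := by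
  refine ⟨⟨fun v hv => hv.1, fun a ha a' ha' b hb hb' => ?_⟩, fun Y hY u hu huY => ?_⟩
  · have : ∃ X ∈ F, b ∉ X := by
      by_contra hcon
      push Not at hcon
      exact hb' ⟨hb, hcon⟩
    obtain ⟨X, hX, hbX⟩ := this
    exact (hF X hX).mod.eq (ha.2 X hX) (ha'.2 X hX) hb hbX
  · by_cases h : ∀ X ∈ F, Y ⊆ X
    · exact Or.inr fun v hv => ⟨hY.sub hv, fun X hX => h X hX hv⟩
    · left
      push Not at h
      obtain ⟨X, hX, hYX⟩ := h
      rcases (hF X hX).cmp hY (hu.2 X hX) huY with h1 | h1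
      · exact fun v hv => h1 (hv.2 X hX)
      · exact absurd h1 hYX

theorem str_cl (Q : Set V) (a b : V) : g.Str Q (g.cl Q a b) := by
  have := str_inter (g := g) (Q := Q) (F := {X | g.Str Q X ∧ a ∈ X ∧ b ∈ X}) (fun X hX => hX.1)
  convert this using 1
  ext v
  simp only [cl, mem_ofPred_eq, and_imp]

theorem cl_sub (Q : Set V) (a b : V) : g.cl Q a b ⊆ Q := fun _ hv => hv.1

theorem left_mem_cl (ha : a ∈ Q) (b : V) : a ∈ g.cl Q a b := ⟨ha, fun _ _ h _ => h⟩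

theorem right_mem_cl (a : V) (hb : b ∈ Q) : b ∈ g.cl Q a b := ⟨hb, fun _ _ _ h => h⟩

theorem Str.cl_sub (h : g.Str Q X) (ha : a ∈ X) (hb : b ∈ X) : g.cl Q a b ⊆ X :=
  fun _ hv => hv.2 X h ha hb

theorem cl_comm (Q : Set V) (a b : V) : g.cl Q a b = g.cl Q b a := by
  ext v
  simp only [cl, mem_ofPred_eq]
  constructor <;> exact fun h => ⟨h.1, fun X hX h1 h2 => h.2 X hX h2 h1⟩

theorem cl_self (ha : a ∈ Q) : g.cl Q a a = {a} :=
  Subset.antisymm ((str_single ha).cl_sub rfl rfl) (singleton_subset_iff.2 (left_mem_cl ha a))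

/-- Seen from outside a strong module, all its points generate the same node. -/
theorem Str.cl_out (h : g.Str Q X) {v x x' : V} (hv : v ∈ Q) (hv' : v ∉ X) (hx : x ∈ X)
    (hx' : x' ∈ X) : g.cl Q v x = g.cl Q v x' := by
  have key : ∀ p p', p ∈ X → p' ∈ X → g.cl Q v p ⊆ g.cl Q v p' := by
    intro p p' hp hp'
    have : X ⊆ g.cl Q v p' := h.sub_of (str_cl Q v p').mod hp' (right_mem_cl v (h.sub hp'))
      (left_mem_cl hv p') hv'
    exact (str_cl Q v p').cl_sub (left_mem_cl hv p') (this hp)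
  exact Subset.antisymm (key x x' hx hx') (key x' x hx' hx)

theorem Str.sub_cl (h : g.Str Q X) {v x : V} (hv : v ∈ Q) (hv' : v ∉ X) (hx : x ∈ X) :
    X ⊆ g.cl Q v x :=
  h.sub_of (str_cl Q v x).mod hx (right_mem_cl v (h.sub hx)) (left_mem_cl hv x) hv'

theorem Node.str (h : g.Node Q w) : g.Str Q w := by
  obtain ⟨a, -, b, -, -, rfl⟩ := h
  exact str_cl Q a b

theorem Node.sub (h : g.Node Q w) : w ⊆ Q := h.str.sub

theorem node_cl (ha : a ∈ Q) (hb : b ∈ Q) (hab : a ≠ b) : g.Node Q (g.cl Q a b) :=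
  ⟨a, ha, b, hb, hab, rfl⟩

theorem Node.exists (h : g.Node Q w) : ∃ a ∈ w, ∃ b ∈ w, a ≠ b ∧ g.cl Q a b = w := by
  obtain ⟨a, ha, b, hb, hab, rfl⟩ := h
  exact ⟨a, left_mem_cl ha b, b, right_mem_cl a hb, hab, rfl⟩

theorem Node.nontrivial (h : g.Node Q w) : w.Nontrivial := by
  obtain ⟨a, ha, b, hb, hab, -⟩ := h.exists
  exact ⟨a, ha, b, hb, hab⟩

theorem ch_sub (Q w : Set V) (x : V) : g.ch Q w x ⊆ w := fun _ hv => hv.1

theorem not_mem_ch (hy : y ∈ w) : y ∉ g.ch Q w x ↔ g.cl Q x y = w := by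
  simp [ch, hy]

theorem Node.mem_ch (h : g.Node Q w) (hx : x ∈ w) : x ∈ g.ch Q w x := by
  refine ⟨hx, ?_⟩
  rw [cl_self (h.sub hx)]
  intro h1
  have := h.nontrivial
  rw [← h1] at this
  exact not_nontrivial_singleton this

theorem Node.ne_of_cl (h : g.Node Q w) (hx : x ∈ w) (hxy : g.cl Q x y = w) : x ≠ y := by
  rintro rfl
  exact (h.mem_ch hx).2 hxy

/-- A proper strong submodule of a node lies in one child. -/
theorem Node.sub_ch (h : g.Node Q w) (hX : g.Str Q X) (hXw : X ⊆ w) (hne : X ≠ w) (hx : x ∈ X) :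
    X ⊆ g.ch Q w x := by
  intro v hv
  refine ⟨hXw hv, fun h1 => hne (Subset.antisymm hXw ?_)⟩
  rw [← h1]
  exact hX.cl_sub hx hv

theorem Node.str_ch (h : g.Node Q w) (hx : x ∈ w) : g.Str Q (g.ch Q w x) := by
  have := str_sUnion (g := g) (Q := Q) (x := x)
    (F := {X | g.Str Q X ∧ x ∈ X ∧ X ⊆ w ∧ X ≠ w}) (fun X hX => ⟨hX.1, hX.2.1⟩)
  convert this using 1
  ext v
  constructor
  · intro hv
    exact ⟨g.cl Q x v, ⟨str_cl Q x v, left_mem_cl (h.sub hx) v, h.str.cl_sub hx hv.1, hv.2⟩,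
      right_mem_cl x (h.sub hv.1)⟩
  · rintro ⟨X, ⟨hX, hxX, hXw, hne⟩, hv⟩
    exact h.sub_ch hX hXw hne hxX hv

theorem Node.exists_not_ch (h : g.Node Q w) (hx : x ∈ w) : ∃ y ∈ w, g.cl Q x y = w := by
  obtain ⟨a, ha, b, hb, hab, hw⟩ := h.exists
  by_contra hcon
  push Not at hcon
  have h1 : a ∈ g.ch Q w x := ⟨ha, hcon a ha⟩
  have h2 : b ∈ g.ch Q w x := ⟨hb, hcon b hb⟩
  rcases (str_cl Q x a).cmp (str_cl Q x b).mod (left_mem_cl (h.sub hx) a)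
    (left_mem_cl (h.sub hx) b) with h3 | h3
  · apply h2.2
    refine Subset.antisymm (h.str.cl_sub hx hb) ?_
    rw [← hw]
    exact (str_cl Q x b).cl_sub (h3 (right_mem_cl x (h.sub ha))) (right_mem_cl x (h.sub hb))
  · apply h1.2
    refine Subset.antisymm (h.str.cl_sub hx ha) ?_
    rw [← hw]
    exact (str_cl Q x a).cl_sub (right_mem_cl x (h.sub ha)) (h3 (right_mem_cl x (h.sub hb)))

theorem Node.ch_ne (h : g.Node Q w) (hx : x ∈ w) : g.ch Q w x ≠ w := by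
  obtain ⟨y, hy, hxy⟩ := h.exists_not_ch hx
  intro h1
  rw [← h1] at hy
  exact hy.2 hxy

theorem Node.ch_eq (h : g.Node Q w) (hx : x ∈ w) (hy : y ∈ g.ch Q w x) :
    g.ch Q w y = g.ch Q w x := by
  have h1 : g.ch Q w x ⊆ g.ch Q w y := h.sub_ch (h.str_ch hx) (ch_sub _ _ _) (h.ch_ne hx) hy
  refine Subset.antisymm ?_ h1
  exact h.sub_ch (h.str_ch hy.1) (ch_sub _ _ _) (h.ch_ne hy.1) (h1 (h.mem_ch hx))

theorem Node.ch_symm (h : g.Node Q w) (hx : x ∈ w) (hy : y ∈ g.ch Q w x) : x ∈ g.ch Q w y := by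
  rw [h.ch_eq hx hy]; exact h.mem_ch hx

theorem Node.ch_trans (h : g.Node Q w) {z : V} (hx : x ∈ w) (hy : y ∈ g.ch Q w x)
    (hz : z ∈ g.ch Q w y) : z ∈ g.ch Q w x := by
  rwa [h.ch_eq hx hy] at hz

/-- Points of different children stay in different children. -/
theorem Node.cl_of_ch (h : g.Node Q w) {x' y' : V} (hx : x ∈ w) (hy : y ∈ w)
    (hxy : g.cl Q x y = w) (hx' : x' ∈ g.ch Q w x) (hy' : y' ∈ g.ch Q w y) :
    g.cl Q x' y' = w := by
  rw [← not_mem_ch hy'.1]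
  intro h1
  have h2 : y' ∈ g.ch Q w x := h.ch_trans hx hx' h1
  exact (not_mem_ch hy).2 hxy (h.ch_trans hx h2 (h.ch_symm hy hy'))

theorem Node.c_of_ch (h : g.Node Q w) {x' y' : V} (hx : x ∈ w) (hy : y ∈ w)
    (hxy : g.cl Q x y = w) (hx' : x' ∈ g.ch Q w x) (hy' : y' ∈ g.ch Q w y) :
    g.c x' y' = g.c x y := by
  have h1 : y' ∉ g.ch Q w x := (not_mem_ch hy'.1).2 (h.cl_of_ch hx hy hxy (h.mem_ch hx) hy')
  have h2 : x ∉ g.ch Q w y := (not_mem_ch hx).2 (by rw [cl_comm]; exact hxy)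
  rw [(h.str_ch hx).mod.eq hx' (h.mem_ch hx) (h.sub hy'.1) h1]
  exact (h.str_ch hy).mod.eq' hy' (h.mem_ch hy) (h.sub hx) h2

/-- A module inside a node that meets two children is a union of children. -/
theorem Node.ch_sub_of (h : g.Node Q w) (hX : g.Mod Q X) (hXw : X ⊆ w) (ha : a ∈ X) (hb : b ∈ X)
    (hab : g.cl Q a b = w) (hx : x ∈ X) : g.ch Q w x ⊆ X := by
  have hxw := hXw hx
  by_cases h1 : a ∈ g.ch Q w x
  · have h2 : b ∉ g.ch Q w x := fun h2 =>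
      (not_mem_ch (hXw hb)).2 hab (h.ch_trans (hXw ha) (h.ch_symm hxw h1) h2)
    exact (h.str_ch hxw).sub_of hX (h.mem_ch hxw) hx hb h2
  · exact (h.str_ch hxw).sub_of hX (h.mem_ch hxw) hx ha h1

/-- A child determines its parent. -/
theorem Node.parent_unique {w' : Set V} (h : g.Node Q w) (h' : g.Node Q w') (hx : x ∈ w)
    (hy : y ∈ w') (hch : g.ch Q w x = g.ch Q w' y) : w = w' := by
  have hx' : x ∈ g.ch Q w' y := hch ▸ h.mem_ch hx
  by_contra hne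
  rcases h.str.cmp h'.str.mod hx hx'.1 with h1 | h1
  · have := h'.sub_ch h.str h1 hne hx
    rw [h'.ch_eq hy hx', ← hch] at this
    exact h.ch_ne hx (Subset.antisymm (ch_sub _ _ _) this)
  · have := h.sub_ch h'.str h1 (Ne.symm hne) hx'.1
    rw [hch] at this
    exact h'.ch_ne hy (Subset.antisymm (ch_sub _ _ _) this)

/-- Colours across two overlapping modules. -/
theorem overlap (hX : g.Mod Q X) (hY : g.Mod Q Y) {u : V} (huX : u ∈ X) (huY : u ∈ Y)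
    (hx : x ∈ X) (hx' : x ∉ Y) (hy : y ∈ Y) (hy' : y ∉ X) :
    (∀ p ∈ X, p ∉ Y → ∀ q ∈ Y, g.c p q = g.c x y) ∧
      (∀ p ∈ X, ∀ q ∈ Y, q ∉ X → g.c p q = g.c x y) := by
  constructor
  · intro p hp hp' q hq
    rw [hY.eq' hq hy (hX.sub hp) hp', hX.eq hp hx (hY.sub hy) hy']
  · intro p hp q hq hq'
    rw [hX.eq hp hx (hY.sub hq) hq', hY.eq' hq hy (hX.sub hx) hx']

theorem not_str_iff (hX : g.Mod Q X) : ¬ g.Str Q X ↔ ∃ Y, g.Mod Q Y ∧ ∃ u ∈ X, u ∈ Y ∧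
    ∃ x ∈ X, x ∉ Y ∧ ∃ y ∈ Y, y ∉ X := by
  constructor
  · intro h
    by_contra hcon
    apply h
    refine ⟨hX, fun Y hY u hu huY => ?_⟩
    by_contra h2
    rw [not_or, not_subset, not_subset] at h2
    obtain ⟨⟨x, hx, hx'⟩, y, hy, hy'⟩ := h2
    exact hcon ⟨Y, hY, u, hu, huY, x, hx, hx', y, hy, hy'⟩
  · rintro ⟨Y, hY, u, hu, huY, x, hx, hx', y, hy, hy'⟩ h
    rcases h.cmp hY hu huY with h1 | h1
    · exact hx' (h1 hx)
    · exact hy' (h1 hy)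

/-- A module that is not strong meets two children of a node strictly above it. -/
theorem Mod.not_str (hX : g.Mod Q X) (h : ¬ g.Str Q X) :
    ∃ a ∈ X, ∃ b ∈ X, a ≠ b ∧ X ⊆ g.cl Q a b ∧ X ≠ g.cl Q a b := by
  obtain ⟨-, -, a, ha, -⟩ := (not_str_iff hX).1 h
  by_contra hcon
  push Not at hcon
  apply h
  have := str_sUnion (g := g) (Q := Q) (x := a) (F := {Y | ∃ b ∈ X, Y = g.cl Q a b}) (by
    rintro Y ⟨b, hb, rfl⟩
    exact ⟨str_cl Q a b, left_mem_cl (hX.sub ha) b⟩)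
  convert this using 1
  ext v
  constructor
  · intro hv
    exact ⟨g.cl Q a v, ⟨v, hv, rfl⟩, right_mem_cl a (hX.sub hv)⟩
  · rintro ⟨Y, ⟨b, hb, rfl⟩, hv⟩
    by_cases hab : a = b
    · subst hab
      rw [cl_self (hX.sub ha)] at hv
      rw [mem_singleton_iff.1 hv]; exact ha
    · rcases (str_cl Q a b).cmp hX (left_mem_cl (hX.sub ha) b) ha with h1 | h1
      · exact h1 hv
      · rw [hcon a ha b hb hab h1]; exact hv

/-- Components of a split module are strong. -/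
theorem comp_lemma {U A : Set V} (hU : g.Mod Q U)
    (hA : ∀ a ∈ U, ∀ b ∈ U, a ∈ A → b ∉ A → g.c a b = e) {r s : V} (hr : r ∈ U) (hrA : r ∈ A)
    (hs : s ∈ U) (hsA : s ∉ A) {u : V} (hu : u ∈ U) :
    ∃ D, g.Str Q D ∧ u ∈ D ∧ D ⊆ U ∧ D ≠ U ∧ ∀ a ∈ D, ∀ b ∈ U, b ∉ D → g.c a b = e := by
  set D : Set V := {v | v ∈ U ∧ ∀ B : Set V,
    (∀ a ∈ U, ∀ b ∈ U, a ∈ B → b ∉ B → g.c a b = e) → u ∈ B → v ∈ B} with hD
  have huD : u ∈ D := ⟨hu, fun _ _ h => h⟩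
  have hDU : D ⊆ U := fun v hv => hv.1
  have hsplit : ∀ a ∈ D, ∀ b ∈ U, b ∉ D → g.c a b = e := by
    intro a ha b hb hb'
    have : ∃ B : Set V, (∀ a ∈ U, ∀ b ∈ U, a ∈ B → b ∉ B → g.c a b = e) ∧ u ∈ B ∧ b ∉ B := by
      by_contra hcon
      push Not at hcon
      exact hb' ⟨hb, fun B h1 h2 => hcon B h1 h2⟩
    obtain ⟨B, hB, huB, hbB⟩ := this
    exact hB a ha.1 b hb (ha.2 B hB huB) hbB
  have hne : ∃ t ∈ U, t ∉ D := by
    by_cases huA : u ∈ A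
    · exact ⟨s, hs, fun h => hsA (h.2 A hA huA)⟩
    · refine ⟨r, hr, fun h => ?_⟩
      have := h.2 Aᶜ (fun a ha b hb h1 h2 => by
        rw [g.symm]; exact hA b hb a ha (by simpa using h2) h1) huA
      exact this hrA
  have hmin : ∀ B : Set V, (∀ a ∈ D, ∀ b ∈ D, a ∈ B → b ∉ B → g.c a b = e) → u ∈ B →
      ∀ v ∈ D, v ∈ B := by
    intro B hB huB v hv
    have := hv.2 (B ∩ D) (fun a ha b hb h1 h2 => by
      by_cases hbD : b ∈ D
      · exact hB a h1.2 b hbD h1.1 (fun h => h2 ⟨h, hbD⟩)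
      · exact hsplit a h1.2 b hb hbD) ⟨huB, huD⟩
    exact this.1
  have hmod : g.Mod Q D := by
    refine ⟨hDU.trans hU.sub, fun a ha a' ha' b hb hb' => ?_⟩
    by_cases hbU : b ∈ U
    · rw [hsplit a ha b hbU hb', hsplit a' ha' b hbU hb']
    · exact hU.eq ha.1 ha'.1 hb hbU
  obtain ⟨t, ht, htD⟩ := hne
  refine ⟨D, ?_, huD, hDU, fun h => htD (h ▸ ht), hsplit⟩
  by_contra hns
  obtain ⟨Z, hZ, p, hp, hpZ, d, hd, hdZ, z, hz, hzD⟩ := (not_str_iff hmod).1 hns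
  obtain ⟨o1, o2⟩ := overlap hmod hZ hp hpZ hd hdZ hz hzD
  have hδ : g.c d z ≠ e := by
    intro hδ
    by_cases huZ : u ∈ Z
    · exact hdZ (hmin Z (fun a ha b hb h1 h2 => by
        rw [g.symm, o1 b hb h2 a h1, hδ]) huZ d hd)
    · exact hmin Zᶜ (fun a ha b hb h1 h2 => by
        rw [o1 a ha h1 b (by simpa using h2), hδ]) huZ p hp hpZ
  have hzU : z ∉ U := fun h => hδ (hsplit d hd z h hzD)
  have htZ : t ∉ Z := fun h => hδ (by rw [← o2 d hd t h htD]; exact hsplit d hd t ht htD)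
  apply hδ
  rw [hU.eq (hDU hd) ht (hZ.sub hz) hzU, hZ.eq' hz hpZ (hU.sub ht) htZ, g.symm]
  exact hsplit p hp t ht htD

/-- In a split module inside a node, points of different children have the split colour. -/
theorem Node.split_cross (h : g.Node Q w) {U A : Set V} (hU : g.Mod Q U) (hUw : U ⊆ w)
    (hA : ∀ a ∈ U, ∀ b ∈ U, a ∈ A → b ∉ A → g.c a b = e) {r s : V} (hr : r ∈ U) (hrA : r ∈ A)
    (hs : s ∈ U) (hsA : s ∉ A) : ∀ x ∈ U, ∀ y ∈ U, g.cl Q x y = w → g.c x y = e := by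
  intro x hx y hy hxy
  obtain ⟨D, hD, hxD, hDU, hne, hsp⟩ := comp_lemma hU hA hr hrA hs hsA hx
  apply hsp x hxD y hy
  intro hyD
  apply hne
  refine Subset.antisymm hDU (hUw.trans ?_)
  rw [← hxy]
  exact hD.cl_sub hxD hyD

/-- Gallai: a node with a proper module meeting two children is degenerate. -/
theorem Node.gallai (h : g.Node Q w) (hX : g.Mod Q X) (hXw : X ⊆ w) (ha : a ∈ X) (hb : b ∈ X)
    (hab : g.cl Q a b = w) {p : V} (hp : p ∈ w) (hpX : p ∉ X) : ∃ e, g.Deg Q w e := by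
  have hnstr : ∀ Y, g.Mod Q Y → Y ⊆ w → a ∈ Y → b ∈ Y → ∀ q ∈ w, q ∉ Y → ¬ g.Str Q Y := by
    intro Y _ _ h1 h2 q hq hqY hS
    rw [← hab] at hq
    exact hqY (hS.cl_sub h1 h2 hq)
  have hover : ∀ Y, g.Mod Q Y → Y ⊆ w → a ∈ Y → b ∈ Y → ∀ q ∈ w, q ∉ Y →
      ∃ Z, g.Mod Q Z ∧ Z ⊆ w ∧ ∃ u ∈ Y, u ∈ Z ∧ ∃ x ∈ Y, x ∉ Z ∧ ∃ y ∈ Z, y ∉ Y := by
    intro Y hY hYw h1 h2 q hq hqY
    obtain ⟨Z, hZ, u, hu, huZ, x, hx, hxZ, y, hy, hyY⟩ :=
      (not_str_iff hY).1 (hnstr Y hY hYw h1 h2 q hq hqY)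
    exact ⟨Z, hZ, h.str.sup_of hZ (hYw hu) huZ (hYw hx) hxZ, u, hu, huZ, x, hx, hxZ, y, hy, hyY⟩
  have hgood : ∀ Y Z, g.Mod Q Y → Y ⊆ w → g.Mod Q Z → Z ⊆ w → ∀ u ∈ Y, u ∈ Z → ∀ x ∈ Y, x ∉ Z →
      ∀ y ∈ Z, y ∉ Y → ∀ s ∈ Y ∪ Z, ∀ t ∈ Y ∪ Z, g.cl Q s t = w → g.c s t = g.c x y := by
    intro Y Z hY hYw hZ hZw u hu huZ x hx hxZ y hy hyY
    obtain ⟨o1, -⟩ := overlap hY hZ hu huZ hx hxZ hy hyY
    refine h.split_cross (A := Zᶜ) (hY.union hZ hu huZ) (union_subset hYw hZw) ?_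
      (Or.inl hx) hxZ (Or.inr hy) (by simpa using hy)
    intro s hs t ht h1 h2
    rcases hs with hs | hs
    · exact o1 s hs h1 t (by simpa using h2)
    · exact absurd hs h1
  obtain ⟨Z, hZ, hZw, u, hu, huZ, x, hx, hxZ, y, hy, hyX⟩ := hover X hX hXw ha hb p hp hpX
  refine ⟨g.c x y, ?_⟩
  set F : Set (Set V) := {Y | g.Mod Q Y ∧ Y ⊆ w ∧ a ∈ Y ∧ b ∈ Y ∧
    ∀ s ∈ Y, ∀ t ∈ Y, g.cl Q s t = w → g.c s t = g.c x y} with hF
  have h0 : X ∪ Z ∈ F := ⟨hX.union hZ hu huZ, union_subset hXw hZw, Or.inl ha, Or.inl hb,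
    hgood X Z hX hXw hZ hZw u hu huZ x hx hxZ y hy hyX⟩
  have hUm : g.Mod Q (⋃₀ F) := mod_sUnion (x := a) fun Y hY => ⟨hY.1, hY.2.2.1⟩
  have hUw : ⋃₀ F ⊆ w := sUnion_subset fun Y hY => hY.2.1
  have haU : a ∈ ⋃₀ F := ⟨_, h0, Or.inl ha⟩
  have hbU : b ∈ ⋃₀ F := ⟨_, h0, Or.inl hb⟩
  have hUg : ∀ s ∈ ⋃₀ F, ∀ t ∈ ⋃₀ F, g.cl Q s t = w → g.c s t = g.c x y := by
    rintro s ⟨Y1, hY1, hs⟩ t ⟨Y2, hY2, ht⟩ hst
    by_cases h1 : t ∈ Y1
    · exact hY1.2.2.2.2 s hs t h1 hst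
    · rw [hY1.1.eq hs hY1.2.2.1 (hY2.1.sub ht) h1]
      apply hY2.2.2.2.2 a hY2.2.2.1 t ht
      rw [← not_mem_ch (hY2.2.1 ht)]
      intro h2
      exact h1 (h.ch_sub_of hY1.1 hY1.2.1 hY1.2.2.1 hY1.2.2.2.1 hab hY1.2.2.1 h2)
  by_cases hall : w ⊆ ⋃₀ F
  · exact fun s hs t ht hst => hUg s (hall hs) t (hall ht) hst
  · exfalso
    obtain ⟨q, hq, hqU⟩ := not_subset.1 hall
    obtain ⟨Z', hZ', hZw', u', hu', huZ', x', hx', hxZ', y', hy', hyU'⟩ :=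
      hover _ hUm hUw haU hbU q hq hqU
    obtain ⟨o1, -⟩ := overlap hUm hZ' hu' huZ' hx' hxZ' hy' hyU'
    have hcross : g.cl Q x' u' = w := by
      rw [← not_mem_ch (hUw hu')]
      intro h2
      have h3 : Z' ⊆ g.ch Q w x' := (h.str_ch (hUw hx')).sup_of hZ' h2 huZ'
        (h.mem_ch (hUw hx')) hxZ'
      exact hyU' (h.ch_sub_of hUm hUw haU hbU hab hx' (h3 hy'))
    have hcol : g.c x' y' = g.c x y := by
      rw [← o1 x' hx' hxZ' u' huZ']
      exact hUg x' hx' u' hu' hcross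
    have : ⋃₀ F ∪ Z' ∈ F := ⟨hUm.union hZ' hu' huZ', union_subset hUw hZw', Or.inl haU,
      Or.inl hbU, by
        rw [← hcol]
        exact hgood _ Z' hUm hUw hZ' hZw' u' hu' huZ' x' hx' hxZ' y' hy' hyU'⟩
    exact hyU' ⟨_, this, Or.inr hy'⟩

/-- Children of a degenerate node have no split in its colour. -/
theorem Node.ind_ch (h : g.Node Q w) (hd : g.Deg Q w e) (hx : x ∈ w) :
    g.Ind (g.ch Q w x) e := by
  intro A hA a ha b hb haA
  by_contra hbA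
  obtain ⟨y, hy, hxy⟩ := h.exists_not_ch hx
  have hcross : ∀ s ∈ g.ch Q w x, ∀ t ∈ w, t ∉ g.ch Q w x → g.c s t = e := by
    intro s hs t ht ht'
    apply hd s hs.1 t ht
    exact h.cl_of_ch hx ht ((not_mem_ch ht).1 ht') hs (h.mem_ch ht)
  have hm : g.Mod Q {v | v ∈ w ∧ (v ∈ g.ch Q w x → v ∈ A)} := by
    refine ⟨fun v hv => h.sub hv.1, fun s hs s' hs' t ht ht' => ?_⟩
    by_cases htw : t ∈ w
    · have ht2 : t ∈ g.ch Q w x ∧ t ∉ A := by
        by_contra hcon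
        exact ht' ⟨htw, fun h1 => by_contra fun h2 => hcon ⟨h1, h2⟩⟩
      have key : ∀ s, s ∈ w ∧ (s ∈ g.ch Q w x → s ∈ A) → g.c s t = e := by
        intro s hs
        by_cases h1 : s ∈ g.ch Q w x
        · exact hA s h1 t ht2.1 (hs.2 h1) ht2.2
        · rw [g.symm]; exact hcross t ht2.1 s hs.1 h1
      rw [key s hs, key s' hs']
    · exact h.str.mod.eq hs.1 hs'.1 ht htw
  have hyx := (not_mem_ch hy).2 hxy
  have := (h.str_ch hx).sub_of hm ha ⟨ha.1, fun _ => haA⟩ (v := y) ⟨hy, fun h1 => absurd h1 hyx⟩ hyx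
  exact hbA ((this hb).2 hb)

/-- Between the ends of a chain of three modules, the middle one strong, both colours occur. -/
theorem both_types (hX : g.Mod Q X) (hY : g.Str Q Y) (hZ : g.Mod Q Z) (hYX : Y ⊆ X)
    (hZY : Z ⊆ Y) (hx : x ∈ X) (hx' : x ∉ Y) (hy : y ∈ Y) (hy' : y ∉ Z) {z : V} (hz : z ∈ Z)
    (e : Bool) : ∃ v ∈ X, v ∉ Z ∧ ∀ p ∈ Z, g.c v p = e := by
  by_contra hcon
  push Not at hcon
  have key : ∀ v ∈ X, v ∉ Z → ∀ p ∈ Z, g.c v p = !e := by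
    intro v hv hv' p hp
    obtain ⟨q, hq, hne⟩ := hcon v hv hv'
    rw [hZ.eq' hp hq (hX.sub hv) hv']
    revert hne; cases g.c v q <;> cases e <;> simp
  have hm : g.Mod Q (X \ Z) := by
    refine ⟨sdiff_subset.trans hX.sub, fun s hs s' hs' t ht ht' => ?_⟩
    by_cases htZ : t ∈ Z
    · rw [key s hs.1 hs.2 t htZ, key s' hs'.1 hs'.2 t htZ]
    · exact hX.eq hs.1 hs'.1 ht (fun h => ht' ⟨h, htZ⟩)
  have := hY.sub_of hm hy ⟨hYX hy, hy'⟩ (v := x) ⟨hx, fun h => hx' (hZY h)⟩ hx'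
  exact (this (hZY hz)).2 hz

/-- Above a split strong module some point has the other colour. -/
theorem Str.other_type (hw : g.Str Q w) {A : Set V}
    (hA : ∀ a ∈ w, ∀ b ∈ w, a ∈ A → b ∉ A → g.c a b = e) {r s : V} (hr : r ∈ w) (hrA : r ∈ A)
    (hs : s ∈ w) (hsA : s ∉ A) (hX : g.Mod Q X) (hwX : w ⊆ X) (hx : x ∈ X) (hx' : x ∉ w) :
    ∃ y ∈ X, y ∉ w ∧ ∀ p ∈ w, g.c y p ≠ e := by
  by_contra hcon
  push Not at hcon
  have key : ∀ y ∈ X, y ∉ w → ∀ p ∈ w, g.c y p = e := by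
    intro y hy hy' p hp
    obtain ⟨q, hq, hqe⟩ := hcon y hy hy'
    rw [hw.mod.eq' hp hq (hX.sub hy) hy', hqe]
  have hm : g.Mod Q {v | v ∈ X ∧ (v ∈ w → v ∈ A)} := by
    refine ⟨fun v hv => hX.sub hv.1, fun p hp p' hp' t ht ht' => ?_⟩
    by_cases htX : t ∈ X
    · have ht2 : t ∈ w ∧ t ∉ A := by
        by_contra hcon
        exact ht' ⟨htX, fun h1 => by_contra fun h2 => hcon ⟨h1, h2⟩⟩
      have k2 : ∀ p, p ∈ X ∧ (p ∈ w → p ∈ A) → g.c p t = e := by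
        intro p hp
        by_cases h1 : p ∈ w
        · exact hA p h1 t ht2.1 (hp.2 h1) ht2.2
        · exact key p hp.1 h1 t ht2.1
      rw [k2 p hp, k2 p' hp']
    · exact hX.eq hp.1 hp'.1 ht htX
  have := hw.sub_of hm hr ⟨hwX hr, fun _ => hrA⟩ (v := x) ⟨hx, fun h => absurd h hx'⟩ hx'
  exact hsA ((this hs).2 hs)

theorem Node.other_type (h : g.Node Q w) (hd : g.Deg Q w e) (hX : g.Mod Q X) (hwX : w ⊆ X)
    (hx : x ∈ X) (hx' : x ∉ w) : ∃ y ∈ X, y ∉ w ∧ ∀ p ∈ w, g.c y p ≠ e := by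
  obtain ⟨a, ha, b, hb, -, hab⟩ := h.exists
  refine h.str.other_type (A := g.ch Q w a) ?_ ha (h.mem_ch ha) hb ((not_mem_ch hb).2 hab) hX hwX
    hx hx'
  intro s hs t ht h1 h2
  exact hd s hs t ht (h.cl_of_ch ha ht ((not_mem_ch ht).1 h2) h1 (h.mem_ch ht))

/-- In a prime node every child sees both colours. -/
theorem Node.prime_both (h : g.Node Q w) (hp : ∀ e, ¬ g.Deg Q w e) (hx : x ∈ w) (e : Bool) :
    ∃ y ∈ w, g.cl Q x y = w ∧ g.c x y = e := by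
  by_contra hcon
  push Not at hcon
  have key : ∀ s ∈ g.ch Q w x, ∀ y ∈ w, y ∉ g.ch Q w x → g.c s y = !e := by
    intro s hs y hy hy'
    have h1 := (not_mem_ch hy).1 hy'
    rw [h.c_of_ch hx hy h1 hs (h.mem_ch hy)]
    have := hcon y hy h1
    revert this; cases g.c x y <;> cases e <;> simp
  have hm : g.Mod Q (w \ g.ch Q w x) := by
    refine ⟨sdiff_subset.trans h.sub, fun s hs s' hs' t ht ht' => ?_⟩
    by_cases htw : t ∈ w
    · have : t ∈ g.ch Q w x := by_contra fun h1 => ht' ⟨htw, h1⟩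
      rw [g.symm, g.symm s', key t this s hs.1 hs.2, key t this s' hs'.1 hs'.2]
    · exact h.str.mod.eq hs.1 hs'.1 ht htw
  by_cases h2 : ∃ s ∈ w \ g.ch Q w x, ∃ t ∈ w \ g.ch Q w x, g.cl Q s t = w
  · obtain ⟨s, hs, t, ht, hst⟩ := h2
    obtain ⟨e', he'⟩ := h.gallai hm sdiff_subset hs ht hst hx (fun h1 => h1.2 (h.mem_ch hx))
    exact hp e' he'
  · push Not at h2
    apply hp (!e)
    intro s hs t ht hst
    by_cases h3 : s ∈ g.ch Q w x
    · apply key s h3 t ht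
      intro h4
      exact (not_mem_ch ht).2 hst (h.ch_trans hs (h.ch_symm hx h3) h4)
    · by_cases h4 : t ∈ g.ch Q w x
      · rw [g.symm]; exact key t h4 s hs h3
      · exact absurd hst (h2 s ⟨hs, h3⟩ t ⟨ht, h4⟩)

/-- A module inside a prime node meeting two children is the whole node. -/
theorem Node.prime_full (h : g.Node Q w) (hp : ∀ e, ¬ g.Deg Q w e) (hX : g.Mod Q X)
    (hXw : X ⊆ w) (ha : a ∈ X) (hb : b ∈ X) (hab : g.cl Q a b = w) : w ⊆ X := by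
  intro p hpw
  by_contra hpX
  obtain ⟨e, he⟩ := h.gallai hX hXw ha hb hab hpw hpX
  exact hp e he

end Gr

end Pool.Agent.MP_2a6d4e_co

end MrgPart1

-- ======== part 2: formerly Pool.Agent.MP_2a6d4e_co.Emb
section MrgPart2

/-! Embeddings between induced subgraphs, transport of the modular structure, gluing. -/

namespace Pool.Agent.MP_2a6d4e_co

open Set Function

namespace Gr

variable {V : Type} (g : Gr V)

def Emb (A B : Set V) (f : V → V) : Prop :=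
  MapsTo f A B ∧ InjOn f A ∧ ∀ a ∈ A, ∀ b ∈ A, g.c (f a) (f b) = g.c a b

def Le (A B : Set V) : Prop := ∃ f, g.Emb A B f

def Eqv (A B : Set V) : Prop := g.Le A B ∧ g.Le B A

def IsoMap (A B : Set V) (f : V → V) : Prop := g.Emb A B f ∧ SurjOn f A B

def Iso (A B : Set V) : Prop := ∃ f, g.IsoMap A B f

/-- All modules are trivial. -/
def Prim (T : Set V) : Prop := ∀ X, g.Mod T X → X.Subsingleton ∨ X = T

/-- All indecomposable induced subgraphs are finite. -/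
def FinP : Prop := ∀ T : Set V, g.Prim T → T.Finite

variable {g}
variable {Q Q' A B C X Y Z w : Set V} {a b x y : V} {e : Bool} {f f' h : V → V}

theorem Emb.maps (hf : g.Emb A B f) (ha : a ∈ A) : f a ∈ B := hf.1 ha

theorem Emb.inj (hf : g.Emb A B f) (ha : a ∈ A) (hb : b ∈ A) (hab : f a = f b) : a = b :=
  hf.2.1 ha hb hab

theorem Emb.ne (hf : g.Emb A B f) (ha : a ∈ A) (hb : b ∈ A) (hab : a ≠ b) : f a ≠ f b :=
  fun h => hab (hf.inj ha hb h)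

theorem Emb.c (hf : g.Emb A B f) (ha : a ∈ A) (hb : b ∈ A) : g.c (f a) (f b) = g.c a b :=
  hf.2.2 a ha b hb

theorem emb_of_ne (hm : ∀ a ∈ A, f a ∈ B)
    (hc : ∀ a ∈ A, ∀ b ∈ A, a ≠ b → f a ≠ f b ∧ g.c (f a) (f b) = g.c a b) : g.Emb A B f := by
  refine ⟨fun a ha => hm a ha, fun a ha b hb hab => ?_, fun a ha b hb => ?_⟩
  · by_contra hne
    exact (hc a ha b hb hne).1 hab
  · by_cases hab : a = b
    · subst hab; rw [g.irr, g.irr]
    · exact (hc a ha b hb hab).2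

theorem emb_id (hAB : A ⊆ B) : g.Emb A B id :=
  ⟨fun _ ha => hAB ha, injOn_id A, fun _ _ _ _ => rfl⟩

theorem Emb.comp (hf' : g.Emb B C f') (hf : g.Emb A B f) : g.Emb A C (f' ∘ f) :=
  ⟨hf'.1.comp hf.1, hf'.2.1.comp hf.2.1 hf.1, fun a ha b hb => by
    simp only [comp_apply]
    rw [hf'.c (hf.maps ha) (hf.maps hb), hf.c ha hb]⟩

theorem Emb.mono (hf : g.Emb A B f) {A' B' : Set V} (hA : A' ⊆ A) (hB : ∀ a ∈ A', f a ∈ B') :
    g.Emb A' B' f :=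
  ⟨fun a ha => hB a ha, hf.2.1.mono hA, fun _ ha _ hb => hf.c (hA ha) (hA hb)⟩

theorem Emb.mono_left (hf : g.Emb A B f) {A' : Set V} (hA : A' ⊆ A) : g.Emb A' B f :=
  hf.mono hA fun _ ha => hf.maps (hA ha)

theorem Emb.mono_right (hf : g.Emb A B f) {B' : Set V} (hB : B ⊆ B') : g.Emb A B' f :=
  hf.mono subset_rfl fun _ ha => hB (hf.maps ha)

theorem Emb.congr (hf : g.Emb A B f) (hff : ∀ a ∈ A, f' a = f a) : g.Emb A B f' :=
  ⟨fun a ha => by rw [hff a ha]; exact hf.maps ha,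
    fun a ha b hb hab => hf.inj ha hb (by rw [← hff a ha, ← hff b hb]; exact hab),
    fun a ha b hb => by rw [hff a ha, hff b hb]; exact hf.c ha hb⟩

theorem Emb.iter (hf : g.Emb A A f) (n : ℕ) : g.Emb A A f^[n] := by
  induction n with
  | zero => exact emb_id subset_rfl
  | succ n ih => rw [iterate_succ]; exact ih.comp hf

theorem Emb.isoMap_image (hf : g.Emb A B f) : g.IsoMap A (f '' A) f :=
  ⟨hf.mono subset_rfl fun _ ha => mem_image_of_mem f ha, surjOn_image f A⟩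

theorem Le.refl (A : Set V) : g.Le A A := ⟨id, emb_id subset_rfl⟩

theorem le_of_sub (hAB : A ⊆ B) : g.Le A B := ⟨id, emb_id hAB⟩

theorem Le.trans (h1 : g.Le A B) (h2 : g.Le B C) : g.Le A C := by
  obtain ⟨f, hf⟩ := h1
  obtain ⟨f', hf'⟩ := h2
  exact ⟨_, hf'.comp hf⟩

theorem Eqv.refl (A : Set V) : g.Eqv A A := ⟨Le.refl A, Le.refl A⟩

theorem Eqv.symm (h1 : g.Eqv A B) : g.Eqv B A := ⟨h1.2, h1.1⟩

theorem Eqv.trans (h1 : g.Eqv A B) (h2 : g.Eqv B C) : g.Eqv A C :=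
  ⟨h1.1.trans h2.1, h2.2.trans h1.2⟩

theorem Le.encard (h1 : g.Le A B) : A.encard ≤ B.encard := by
  obtain ⟨f, hf⟩ := h1
  rw [← hf.2.1.encard_image]
  exact encard_le_encard (image_subset_iff.2 hf.1)

theorem Le.nontrivial (h1 : g.Le A B) (hA : A.Nontrivial) : B.Nontrivial := by
  obtain ⟨f, hf⟩ := h1
  obtain ⟨a, ha, b, hb, hab⟩ := hA
  exact ⟨f a, hf.maps ha, f b, hf.maps hb, hf.ne ha hb hab⟩

theorem IsoMap.emb (hf : g.IsoMap A B f) : g.Emb A B f := hf.1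

theorem IsoMap.surj (hf : g.IsoMap A B f) (hb : b ∈ B) : ∃ a ∈ A, f a = b := hf.2 hb

theorem IsoMap.image (hf : g.IsoMap A B f) : f '' A = B :=
  Subset.antisymm (image_subset_iff.2 hf.1.1) hf.2

theorem isoMap_id (A : Set V) : g.IsoMap A A id := ⟨emb_id subset_rfl, surjOn_id A⟩

theorem IsoMap.comp (hf' : g.IsoMap B C f') (hf : g.IsoMap A B f) : g.IsoMap A C (f' ∘ f) :=
  ⟨hf'.1.comp hf.1, hf'.2.comp hf.2⟩

theorem IsoMap.restrict (hf : g.IsoMap A B f) (hX : X ⊆ A) : g.IsoMap X (f '' X) f :=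
  (hf.1.mono_left hX).isoMap_image

theorem IsoMap.inv (hf : g.IsoMap A B f) :
    ∃ f', g.IsoMap B A f' ∧ (∀ a ∈ A, f' (f a) = a) ∧ ∀ b ∈ B, f (f' b) = b := by
  classical
  have : ∀ b, ∃ a, b ∈ B → a ∈ A ∧ f a = b := by
    intro b
    by_cases hb : b ∈ B
    · obtain ⟨a, ha, hab⟩ := hf.surj hb
      exact ⟨a, fun _ => ⟨ha, hab⟩⟩
    · exact ⟨b, fun h => absurd h hb⟩
  choose f' hf' using this
  have h1 : ∀ a ∈ A, f' (f a) = a := fun a ha =>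
    hf.1.inj (hf' _ (hf.1.maps ha)).1 ha (hf' _ (hf.1.maps ha)).2
  refine ⟨f', ⟨⟨fun b hb => (hf' b hb).1, fun b hb b' hb' hbb => ?_, fun b hb b' hb' => ?_⟩,
    fun a ha => ⟨f a, hf.1.maps ha, h1 a ha⟩⟩, h1, fun b hb => (hf' b hb).2⟩
  · rw [← (hf' b hb).2, ← (hf' b' hb').2, hbb]
  · rw [← hf.1.c (hf' b hb).1 (hf' b' hb').1, (hf' b hb).2, (hf' b' hb').2]

theorem Iso.refl (A : Set V) : g.Iso A A := ⟨id, isoMap_id A⟩

theorem Iso.symm (h1 : g.Iso A B) : g.Iso B A := by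
  obtain ⟨f, hf⟩ := h1
  obtain ⟨f', hf', -⟩ := hf.inv
  exact ⟨f', hf'⟩

theorem Iso.trans (h1 : g.Iso A B) (h2 : g.Iso B C) : g.Iso A C := by
  obtain ⟨f, hf⟩ := h1
  obtain ⟨f', hf'⟩ := h2
  exact ⟨_, hf'.comp hf⟩

theorem Iso.le (h1 : g.Iso A B) : g.Le A B := by
  obtain ⟨f, hf⟩ := h1
  exact ⟨f, hf.1⟩

theorem Iso.eqv (h1 : g.Iso A B) : g.Eqv A B := ⟨h1.le, h1.symm.le⟩

theorem Iso.encard (h1 : g.Iso A B) : A.encard = B.encard :=
  le_antisymm h1.le.encard h1.symm.le.encard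

/-- An embedding between finite sets of the same size is onto. -/
theorem Emb.surj_of_card (hf : g.Emb A B f) (hB : B.Finite) (hc : B.encard ≤ A.encard) :
    g.IsoMap A B f := by
  refine ⟨hf, ?_⟩
  have : f '' A = B := hB.eq_of_subset_of_encard_le' (image_subset_iff.2 hf.1)
    (by rw [hf.2.1.encard_image]; exact hc)
  exact this.symm.subset

/-! ### Transport -/

theorem Emb.mod_pre (hf : g.Emb A B f) (hX : g.Mod B X) : g.Mod A {v | v ∈ A ∧ f v ∈ X} :=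
  ⟨fun _ hv => hv.1, fun a ha a' ha' b hb hb' => by
    rw [← hf.c ha.1 hb, ← hf.c ha'.1 hb]
    exact hX.eq ha.2 ha'.2 (hf.maps hb) (fun h => hb' ⟨hb, h⟩)⟩

theorem IsoMap.mod_image (hf : g.IsoMap A B f) (hX : g.Mod A X) : g.Mod B (f '' X) := by
  refine ⟨image_subset_iff.2 fun v hv => hf.1.maps (hX.sub hv), ?_⟩
  rintro _ ⟨a, ha, rfl⟩ _ ⟨a', ha', rfl⟩ b hb hb'
  obtain ⟨b, hbA, rfl⟩ := hf.surj hb
  rw [hf.1.c (hX.sub ha) hbA, hf.1.c (hX.sub ha') hbA]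
  exact hX.eq ha ha' hbA (fun h => hb' (mem_image_of_mem f h))

theorem IsoMap.str_image (hf : g.IsoMap A B f) (hX : g.Str A X) : g.Str B (f '' X) := by
  refine ⟨hf.mod_image hX.mod, ?_⟩
  rintro Y hY _ ⟨x, hx, rfl⟩ hxY
  rcases hX.cmp (hf.1.mod_pre hY) hx ⟨hX.sub hx, hxY⟩ with h1 | h1
  · left
    rintro _ ⟨v, hv, rfl⟩
    exact (h1 hv).2
  · right
    intro v hv
    obtain ⟨u, hu, rfl⟩ := hf.surj (hY.sub hv)
    exact mem_image_of_mem f (h1 ⟨hu, hv⟩)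

theorem IsoMap.mem_image (hf : g.IsoMap A B f) (hX : X ⊆ A) (ha : a ∈ A) :
    f a ∈ f '' X ↔ a ∈ X :=
  ⟨fun ⟨u, hu, hua⟩ => hf.1.inj (hX hu) ha hua ▸ hu, mem_image_of_mem f⟩

theorem IsoMap.image_inj (hf : g.IsoMap A B f) (hX : X ⊆ A) (hY : Y ⊆ A)
    (hXY : f '' X = f '' Y) : X = Y := by
  ext v
  constructor
  · intro hv
    rw [← hf.mem_image hY (hX hv), ← hXY]; exact mem_image_of_mem f hv
  · intro hv
    rw [← hf.mem_image hX (hY hv), hXY]; exact mem_image_of_mem f hv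

theorem IsoMap.cl_image (hf : g.IsoMap A B f) (ha : a ∈ A) (hb : b ∈ A) :
    f '' g.cl A a b = g.cl B (f a) (f b) := by
  apply Subset.antisymm
  · obtain ⟨f', hf', h1, h2⟩ := hf.inv
    rintro _ ⟨v, hv, rfl⟩
    have hs := hf'.str_image (str_cl B (f a) (f b))
    have : v ∈ f' '' g.cl B (f a) (f b) := hs.cl_sub
      ⟨f a, left_mem_cl (hf.1.maps ha) _, h1 a ha⟩ ⟨f b, right_mem_cl _ (hf.1.maps hb), h1 b hb⟩ hv
    obtain ⟨u, hu, rfl⟩ := this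
    rw [h2 u (cl_sub _ _ _ hu)]; exact hu
  · exact (hf.str_image (str_cl A a b)).cl_sub (mem_image_of_mem f (left_mem_cl ha b))
      (mem_image_of_mem f (right_mem_cl a hb))

theorem IsoMap.node_image (hf : g.IsoMap A B f) (hw : g.Node A w) : g.Node B (f '' w) := by
  obtain ⟨a, ha, b, hb, hab, rfl⟩ := hw
  rw [hf.cl_image ha hb]
  exact node_cl (hf.1.maps ha) (hf.1.maps hb) (hf.1.ne ha hb hab)

theorem IsoMap.cl_eq_iff (hf : g.IsoMap A B f) (hw : w ⊆ A) (ha : a ∈ A) (hb : b ∈ A) :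
    g.cl B (f a) (f b) = f '' w ↔ g.cl A a b = w := by
  rw [← hf.cl_image ha hb]
  exact ⟨hf.image_inj (cl_sub _ _ _) hw, fun h => by rw [h]⟩

theorem IsoMap.ch_image (hf : g.IsoMap A B f) (hw : w ⊆ A) (hx : x ∈ w) :
    f '' g.ch A w x = g.ch B (f '' w) (f x) := by
  ext v
  constructor
  · rintro ⟨u, hu, rfl⟩
    exact ⟨mem_image_of_mem f hu.1, fun h => hu.2 ((hf.cl_eq_iff hw (hw hx) (hw hu.1)).1 h)⟩
  · rintro ⟨⟨u, hu, rfl⟩, h2⟩
    exact ⟨u, ⟨hu, fun h => h2 ((hf.cl_eq_iff hw (hw hx) (hw hu)).2 h)⟩, rfl⟩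

theorem IsoMap.deg_image (hf : g.IsoMap A B f) (hw : w ⊆ A) (hd : g.Deg A w e) :
    g.Deg B (f '' w) e := by
  rintro _ ⟨x, hx, rfl⟩ _ ⟨y, hy, rfl⟩ hxy
  rw [hf.1.c (hw hx) (hw hy)]
  exact hd x hx y hy ((hf.cl_eq_iff hw (hw hx) (hw hy)).1 hxy)

theorem IsoMap.prim (hf : g.IsoMap A B f) (hA : g.Prim A) : g.Prim B := by
  intro X hX
  rcases hA _ (hf.1.mod_pre hX) with h1 | h1
  · left
    intro u hu v hv
    obtain ⟨u, hu', rfl⟩ := hf.surj (hX.sub hu)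
    obtain ⟨v, hv', rfl⟩ := hf.surj (hX.sub hv)
    rw [h1 ⟨hu', hu⟩ ⟨hv', hv⟩]
  · right
    refine Subset.antisymm hX.sub fun v hv => ?_
    obtain ⟨v, hv', rfl⟩ := hf.surj hv
    rw [← h1] at hv'
    exact hv'.2

theorem IsoMap.ind (hf : g.IsoMap A B f) (hA : g.Ind A e) : g.Ind B e := by
  intro S hS a ha b hb haS
  obtain ⟨a, ha', rfl⟩ := hf.surj ha
  obtain ⟨b, hb', rfl⟩ := hf.surj hb
  refine hA (f ⁻¹' S) (fun u hu v hv h1 h2 => ?_) a ha' b hb' haS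
  rw [← hf.1.c hu hv]
  exact hS _ (hf.1.maps hu) _ (hf.1.maps hv) h1 h2

/-! ### Gluing -/

open Classical in
/-- A self-embedding of a module extends by the identity. -/
theorem Mod.extend {N : Set V} (hN : g.Mod Q N) (hf : g.Emb N N f) :
    g.Emb Q Q (fun v => if v ∈ N then f v else v) := by
  apply emb_of_ne
  · intro a ha
    by_cases h1 : a ∈ N
    · simp only [h1, if_true]; exact hN.sub (hf.maps h1)
    · simp only [h1, if_false]; exact ha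
  · intro a ha b hb hab
    by_cases h1 : a ∈ N <;> by_cases h2 : b ∈ N <;> simp only [h1, h2, if_true, if_false]
    · exact ⟨hf.ne h1 h2 hab, hf.c h1 h2⟩
    · exact ⟨fun h => h2 (h ▸ hf.maps h1), hN.eq (hf.maps h1) h1 hb h2⟩
    · exact ⟨fun h => h1 (h ▸ hf.maps h2), hN.eq' (hf.maps h2) h2 ha h1⟩
    · exact ⟨hab, trivial⟩

theorem Mod.extend' {N : Set V} (hN : g.Mod Q N) (hf : g.Emb N N f) :
    ∃ f', g.Emb Q Q f' ∧ (∀ v ∈ N, f' v = f v) ∧ ∀ v, v ∉ N → f' v = v := by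
  classical
  exact ⟨_, hN.extend hf, fun v hv => by simp [hv], fun v hv => by simp [hv]⟩

/-- Rearranging the children of a degenerate node. -/
theorem Node.rearrange (hw : g.Node Q w) (hd : g.Deg Q w e) {R : Set V} (hR : R ⊆ w)
    (hcl : ∀ v ∈ R, g.ch Q w v ⊆ R) {φ : V → V} (hout : ∀ v, v ∉ R → φ v = v)
    (hin : ∀ v ∈ R, φ v ∈ R)
    (hsame : ∀ v ∈ R, ∀ v' ∈ g.ch Q w v, v ≠ v' → φ v ≠ φ v' ∧ g.c (φ v) (φ v') = g.c v v')
    (hdiff : ∀ v ∈ R, ∀ v' ∈ R, g.cl Q v v' = w → g.cl Q (φ v) (φ v') = w) : g.Emb Q Q φ := by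
  have key : ∀ a ∈ R, ∀ b ∈ Q, b ∉ R → g.c a b = g.c (φ a) b := by
    intro a ha b hb hb'
    by_cases hbw : b ∈ w
    · have k : ∀ a ∈ R, g.c a b = e := fun a ha =>
        hd a (hR ha) b hbw ((not_mem_ch hbw).1 fun h => hb' (hcl a ha h))
      rw [k a ha, k _ (hin a ha)]
    · exact hw.str.mod.eq (hR ha) (hR (hin a ha)) hb hbw
  apply emb_of_ne
  · intro a ha
    by_cases h1 : a ∈ R
    · exact hw.sub (hR (hin a h1))
    · rw [hout a h1]; exact ha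
  · intro a ha b hb hab
    by_cases h1 : a ∈ R <;> by_cases h2 : b ∈ R
    · by_cases h3 : b ∈ g.ch Q w a
      · exact hsame a h1 b h3 hab
      · have h4 := (not_mem_ch (hR h2)).1 h3
        have h5 := hdiff a h1 b h2 h4
        exact ⟨hw.ne_of_cl (hR (hin a h1)) h5, by
          rw [hd _ (hR (hin a h1)) _ (hR (hin b h2)) h5, hd _ (hR h1) _ (hR h2) h4]⟩
    · rw [hout b h2]
      exact ⟨fun h => h2 (h ▸ hin a h1), (key a h1 b hb h2).symm⟩
    · rw [hout a h1]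
      refine ⟨fun h => h1 (h ▸ hin b h2), ?_⟩
      rw [g.symm a, g.symm a]
      exact (key b h2 a ha h1).symm
    · rw [hout a h1, hout b h2]; exact ⟨hab, rfl⟩

/-- Gluing self-embeddings with disjoint supports. -/
theorem glue {ι : Type} {R : ι → Set V} {φ : ι → V → V} (hφ : ∀ i, g.Emb Q Q (φ i))
    (hout : ∀ i v, v ∉ R i → φ i v = v) (hin : ∀ i, ∀ v ∈ R i, φ i v ∈ R i)
    (hdisj : ∀ i j v, v ∈ R i → v ∈ R j → i = j) :
    ∃ ψ, g.Emb Q Q ψ ∧ (∀ i, ∀ v ∈ R i, ψ v = φ i v) ∧ ∀ v, (∀ i, v ∉ R i) → ψ v = v := by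
  classical
  set ψ : V → V := fun v => if h : ∃ i, v ∈ R i then φ h.choose v else v with hψ
  have h1 : ∀ i, ∀ v ∈ R i, ψ v = φ i v := by
    intro i v hv
    have : ∃ i, v ∈ R i := ⟨i, hv⟩
    simp only [hψ, this, dif_pos]
    rw [hdisj _ _ v this.choose_spec hv]
  have h2 : ∀ v, (∀ i, v ∉ R i) → ψ v = v := by
    intro v hv
    have : ¬ ∃ i, v ∈ R i := fun ⟨i, hi⟩ => hv i hi
    simp only [hψ, this, dif_neg, not_false_eq_true]
  have h3 : ∀ i, ∀ a ∈ Q, a ∈ R i → ∀ b ∈ Q, b ∉ R i → g.c (φ i a) b = g.c a b := by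
    intro i a ha _ b hb hb'
    conv_lhs => rw [← hout i b hb']
    exact (hφ i).c ha hb
  refine ⟨ψ, emb_of_ne ?_ ?_, h1, h2⟩
  · intro a ha
    by_cases h : ∃ i, a ∈ R i
    · obtain ⟨i, hi⟩ := h
      rw [h1 i a hi]; exact (hφ i).maps ha
    · rw [h2 a (fun i hi => h ⟨i, hi⟩)]; exact ha
  · intro a ha b hb hab
    by_cases h : ∃ i, a ∈ R i <;> by_cases h' : ∃ j, b ∈ R j
    · obtain ⟨i, hi⟩ := h
      obtain ⟨j, hj⟩ := h'
      rw [h1 i a hi, h1 j b hj]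
      by_cases hij : i = j
      · subst hij
        exact ⟨(hφ i).ne ha hb hab, (hφ i).c ha hb⟩
      · have k1 : φ j b ∉ R i := fun h => hij (hdisj _ _ _ h (hin j b hj))
        have k2 : a ∉ R j := fun h => hij (hdisj _ _ _ hi h)
        refine ⟨fun h => k1 (h ▸ hin i a hi), ?_⟩
        rw [h3 i a ha hi _ ((hφ j).maps hb) k1, g.symm, h3 j b hb hj a ha k2, g.symm]
    · obtain ⟨i, hi⟩ := h
      have k : b ∉ R i := fun h => h' ⟨i, h⟩
      rw [h1 i a hi, h2 b (fun j hj => h' ⟨j, hj⟩)]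
      exact ⟨fun h => k (h ▸ hin i a hi), h3 i a ha hi b hb k⟩
    · obtain ⟨j, hj⟩ := h'
      have k : a ∉ R j := fun h0 => h ⟨j, h0⟩
      rw [h1 j b hj, h2 a (fun i hi => h ⟨i, hi⟩)]
      refine ⟨fun h => k (h ▸ hin j b hj), ?_⟩
      rw [g.symm, h3 j b hb hj a ha k, g.symm]
    · rw [h2 a (fun i hi => h ⟨i, hi⟩), h2 b (fun j hj => h' ⟨j, hj⟩)]
      exact ⟨hab, rfl⟩

/-! ### Limits -/

theorem seq_exists {α : Type} (P : ℕ → α → Prop) (R : ℕ → α → α → Prop) (a0 : α) (h0 : P 0 a0)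
    (step : ∀ n a, P n a → ∃ a', P (n + 1) a' ∧ R n a a') :
    ∃ s : ℕ → α, s 0 = a0 ∧ (∀ n, P n (s n)) ∧ ∀ n, R n (s n) (s (n + 1)) := by
  choose! nx hnx using step
  let s : ℕ → α := fun n => Nat.rec a0 (fun n a => nx n a) n
  have hP : ∀ n, P n (s n) := by
    intro n
    induction n with
    | zero => exact h0
    | succ n ih => exact (hnx n _ ih).1
  exact ⟨s, rfl, hP, fun n => (hnx n _ (hP n)).2⟩

theorem emb_limit {F : ℕ → V → V} {φ : V → V} (hF : ∀ n, g.Emb A B (F n))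
    (hφ : ∀ v ∈ A, ∃ N, ∀ n, N ≤ n → F n v = φ v) : g.Emb A B φ := by
  apply emb_of_ne
  · intro a ha
    obtain ⟨N, hN⟩ := hφ a ha
    rw [← hN N le_rfl]; exact (hF N).maps ha
  · intro a ha b hb hab
    obtain ⟨N, hN⟩ := hφ a ha
    obtain ⟨M, hM⟩ := hφ b hb
    rw [← hN (max N M) (le_max_left _ _), ← hM (max N M) (le_max_right _ _)]
    exact ⟨(hF _).ne ha hb hab, (hF _).c ha hb⟩

theorem stab_of_step {α : Type} {s : ℕ → α} {N : ℕ} (hs : ∀ n, N ≤ n → s (n + 1) = s n) :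
    ∀ n, N ≤ n → s n = s N := by
  intro n hn
  induction n, hn using Nat.le_induction with
  | base => rfl
  | succ n hn ih => rw [hs n hn, ih]

/-- Avoiding a set `Δ` point by point. -/
theorem forth [Countable V] {Δ : Set V}
    (hstep : ∀ t ∈ Q, t ∈ Δ → ∀ F : Set V, F.Finite → (∀ u ∈ F, u ∈ Q ∧ u ∉ Δ) →
      ∃ γ, g.Emb Q Q γ ∧ (∀ u ∈ F, γ u = u) ∧ γ t ∉ Δ)
    {F : Set V} (hF : F.Finite) (hFQ : ∀ u ∈ F, u ∈ Q ∧ u ∉ Δ) :
    ∃ φ, g.Emb Q (Q \ Δ) φ ∧ ∀ u ∈ F, φ u = u := by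
  rcases isEmpty_or_nonempty V with hV | hV
  · exact ⟨id, ⟨fun v _ => hV.elim v, fun v _ => hV.elim v, fun v _ => hV.elim v⟩,
      fun v _ => rfl⟩
  obtain ⟨en, hen⟩ := exists_surjective_nat V
  obtain ⟨s, -, hP, hR⟩ := seq_exists
    (fun n (f : V → V) => g.Emb Q Q f ∧ (∀ u ∈ F, f u = u) ∧ ∀ i < n, en i ∈ Q → f (en i) ∉ Δ)
    (fun n f f' => ∀ i < n, en i ∈ Q → f' (en i) = f (en i)) id
    ⟨emb_id subset_rfl, fun _ _ => rfl, fun i hi => absurd hi (Nat.not_lt_zero i)⟩ (by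
      rintro n f ⟨hf, hfF, hfn⟩
      by_cases hbad : en n ∈ Q ∧ f (en n) ∈ Δ
      · obtain ⟨γ, hγ, hγF, hγt⟩ := hstep _ (hf.maps hbad.1) hbad.2
          (F ∪ (fun i => f (en i)) '' {i | i < n ∧ en i ∈ Q})
          (hF.union (((finite_lt_nat n).subset fun i hi => hi.1).image _)) (by
            rintro u (hu | ⟨i, hi, rfl⟩)
            · exact hFQ u hu
            · exact ⟨hf.maps hi.2, hfn i hi.1 hi.2⟩)
        have k : ∀ i < n, en i ∈ Q → γ (f (en i)) = f (en i) := fun i hi hQ =>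
          hγF _ (Or.inr ⟨i, ⟨hi, hQ⟩, rfl⟩)
        refine ⟨γ ∘ f, ⟨hγ.comp hf, fun u hu => ?_, fun i hi hQ => ?_⟩, k⟩
        · simp only [comp_apply]; rw [hfF u hu, hγF u (Or.inl hu)]
        · rcases Nat.lt_succ_iff_lt_or_eq.1 hi with h1 | rfl
          · simp only [comp_apply]; rw [k i h1 hQ]; exact hfn i h1 hQ
          · exact hγt
      · refine ⟨f, ⟨hf, hfF, fun i hi hQ => ?_⟩, fun _ _ _ => rfl⟩
        rcases Nat.lt_succ_iff_lt_or_eq.1 hi with h1 | rfl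
        · exact hfn i h1 hQ
        · exact fun h => hbad ⟨hQ, h⟩)
  choose ix hix using hen
  have hst : ∀ v ∈ Q, ∀ n, ix v + 1 ≤ n → s n v = s (ix v + 1) v := by
    intro v hv
    apply stab_of_step (s := fun n => s n v)
    intro n hn
    have := hR n (ix v) hn (by rw [hix]; exact hv)
    rwa [hix] at this
  refine ⟨fun v => s (ix v + 1) v, ?_, fun u hu => (hP _).2.1 u hu⟩
  refine (emb_limit (fun n => (hP n).1) fun v hv => ⟨ix v + 1, hst v hv⟩).mono subset_rfl ?_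
  intro v hv
  refine ⟨(hP _).1.maps hv, ?_⟩
  have := (hP (ix v + 1)).2.2 (ix v) (Nat.lt_succ_self _) (by rw [hix]; exact hv)
  rwa [hix] at this

variable (g) in
/-- Every self-embedding can be undone at any one point, keeping its fixed points. -/
def Rev (Q : Set V) : Prop := ∀ h, g.Emb Q Q h → ∀ y ∈ Q,
  ∃ γ, g.Emb Q Q γ ∧ γ (h y) = y ∧ ∀ u ∈ Q, h u = u → γ u = u

theorem iso_of_rev [Countable V] (hA : g.Rev A) (hB : g.Rev B) (hAB : g.Eqv A B) :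
    g.Iso A B := by
  rcases isEmpty_or_nonempty V with hV | hV
  · exact ⟨id, ⟨fun v _ => hV.elim v, fun v _ => hV.elim v, fun v _ => hV.elim v⟩,
      fun v _ => hV.elim v⟩
  obtain ⟨en, hen⟩ := exists_surjective_nat V
  obtain ⟨⟨f0, hf0⟩, f1, hf1⟩ := hAB
  have half : ∀ {A B : Set V}, g.Rev A → ∀ f f', g.Emb A B f → g.Emb B A f' → ∀ y,
      ∃ f'', g.Emb B A f'' ∧ (y ∈ A → f'' (f y) = y) ∧
        (∀ a ∈ A, f' (f a) = a → f'' (f a) = a) ∧ ∀ b ∈ B, f (f' b) = b → f'' b = f' b := by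
    intro A B hA f f' hf hf' y
    by_cases hy : y ∈ A
    · obtain ⟨γ, hγ, h1, h2⟩ := hA _ (hf'.comp hf) y hy
      refine ⟨γ ∘ f', hγ.comp hf', fun _ => h1, fun a ha h3 => ?_, fun b hb h3 => ?_⟩
      · simp only [comp_apply]; rw [h3]; exact h2 a ha h3
      · exact h2 _ (hf'.maps hb) (by simp only [comp_apply]; rw [h3])
    · exact ⟨f', hf', fun h => absurd h hy, fun _ _ h => h, fun _ _ _ => rfl⟩
  obtain ⟨s, -, hP, hR⟩ := seq_exists
    (fun n (p : (V → V) × (V → V)) => g.Emb A B p.1 ∧ g.Emb B A p.2 ∧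
      ∀ i < n, (en i ∈ A → p.2 (p.1 (en i)) = en i) ∧ (en i ∈ B → p.1 (p.2 (en i)) = en i))
    (fun _ p p' => (∀ a ∈ A, p.2 (p.1 a) = a → p'.1 a = p.1 a ∧ p'.2 (p'.1 a) = a) ∧
      ∀ b ∈ B, p.1 (p.2 b) = b → p'.2 b = p.2 b ∧ p'.1 (p'.2 b) = b) (f0, f1)
    ⟨hf0, hf1, fun i hi => absurd hi (Nat.not_lt_zero i)⟩ (by
      rintro n ⟨f, f'⟩ ⟨hf, hf', hn⟩
      obtain ⟨k', hk', a1, a2, a3⟩ := half hA f f' hf hf' (en n)
      obtain ⟨k, hk, b1, b2, b3⟩ := half hB k' f hk' hf (en n)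
      have r1 : ∀ a ∈ A, k' (f a) = a → k a = f a ∧ k' (k a) = a := fun a ha h1 =>
        ⟨b3 a ha h1, by rw [b3 a ha h1, h1]⟩
      have r2 : ∀ b ∈ B, f (f' b) = b → k' b = f' b ∧ k (k' b) = b := fun b hb h1 =>
        ⟨a3 b hb h1, b2 b hb (by rw [a3 b hb h1, h1])⟩
      refine ⟨(k, k'), ⟨hk, hk', fun i hi => ?_⟩, fun a ha h1 => r1 a ha (a2 a ha h1), r2⟩
      rcases Nat.lt_succ_iff_lt_or_eq.1 hi with h1 | rfl
      · exact ⟨fun h => (r1 _ h (a2 _ h ((hn i h1).1 h))).2, fun h => (r2 _ h ((hn i h1).2 h)).2⟩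
      · exact ⟨fun h => (r1 _ h (a1 h)).2, b1⟩)
  choose ix hix using hen
  have hst : ∀ a ∈ A, ∀ N, (s N).2 ((s N).1 a) = a → ∀ n, N ≤ n →
      (s n).1 a = (s N).1 a ∧ (s n).2 ((s n).1 a) = a := by
    intro a ha N hN n hn
    induction n, hn using Nat.le_induction with
    | base => exact ⟨rfl, hN⟩
    | succ n hn ih =>
      obtain ⟨k1, k2⟩ := (hR n).1 a ha ih.2
      exact ⟨k1.trans ih.1, k2⟩
  have hfix : ∀ a ∈ A, (s (ix a + 1)).2 ((s (ix a + 1)).1 a) = a := by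
    intro a ha
    have := ((hP (ix a + 1)).2.2 (ix a) (Nat.lt_succ_self _)).1 (by rw [hix]; exact ha)
    rwa [hix] at this
  refine ⟨fun v => (s (ix v + 1)).1 v, emb_limit (fun n => (hP n).1)
    fun v hv => ⟨ix v + 1, fun n hn => (hst v hv _ (hfix v hv) n hn).1⟩, fun b hb => ?_⟩
  have h1 : (s (ix b + 1)).1 ((s (ix b + 1)).2 b) = b := by
    have := ((hP (ix b + 1)).2.2 (ix b) (Nat.lt_succ_self _)).2 (by rw [hix]; exact hb)
    rwa [hix] at this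
  set a := (s (ix b + 1)).2 b with ha
  have haA : a ∈ A := (hP _).2.1.maps hb
  refine ⟨a, haA, ?_⟩
  have h2 := (hst a haA (ix b + 1) (by rw [h1]) (max (ix b + 1) (ix a + 1)) (le_max_left _ _)).1
  have h3 := (hst a haA _ (hfix a haA) (max (ix b + 1) (ix a + 1)) (le_max_right _ _)).1
  show (s (ix a + 1)).1 a = b
  rw [← h3, h2, h1]

end Gr

end Pool.Agent.MP_2a6d4e_co

end MrgPart2

-- marker of a merged file
example : 731051 + 7159 = 731051 + 7159 := rfl
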