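import Mathlib
import Pool.Agent.MP_2a6d4e_co.Marker

/-! Levelled modules with markers. -/

namespace Pool.Agent.MP_2a6d4e_co

open Set Function

namespace Gr

variable {V : Type} {g : Gr V}
variable {Q Q' R F W K A B X Y Z w : Set V} {a b x y u v p : V} {e up : Bool} {f f' h : V → V}
  {lvl : V → ℕ} {τ : V → Bool} {mk : ℕ → V}

def hi (up : Bool) (m n : ℕ) : Prop := (up = true ∧ n < m) ∨ (up = false ∧ m < n)

def lo (up : Bool) (l b : ℕ) : Prop := (up = true ∧ l < b) ∨ (up = false ∧ b ≤ l)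

variable (g) in
structure Lev (Q W K : Set V) (lvl : V → ℕ) (τ : V → Bool) (up : Bool) : Prop where
  mod : g.Mod Q W
  sub : K ⊆ W
  colK : ∀ v ∈ W, v ∉ K → ∀ u ∈ K, g.c v u = τ v
  col : ∀ v ∈ W, v ∉ K → ∀ u ∈ W, u ∉ K → hi up (lvl v) (lvl u) → g.c v u = τ v

def low (W K : Set V) (lvl : V → ℕ) (up : Bool) (b : ℕ) : Set V :=
  {v | v ∈ W ∧ (v ∈ K ∨ lo up (lvl v) b)}

theorem Lev.c_low (hL : g.Lev Q W K lvl τ up) {b : ℕ} (hv : v ∈ W) (hv' : v ∉ low W K lvl up b)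
    (hu : u ∈ low W K lvl up b) : g.c v u = τ v := by
  have h1 : v ∉ K := fun h => hv' ⟨hv, Or.inl h⟩
  have h2 : ¬ lo up (lvl v) b := fun h => hv' ⟨hv, Or.inr h⟩
  by_cases h3 : u ∈ K
  · exact hL.colK v hv h1 u h3
  · refine hL.col v hv h1 u hu.1 h3 ?_
    have h4 := hu.2.resolve_left h3
    unfold lo at h2 h4
    unfold hi
    cases up <;> simp at h2 h4 ⊢ <;> omega

theorem Lev.mod_low (hL : g.Lev Q W K lvl τ up) (b : ℕ) : g.Mod Q (low W K lvl up b) := by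
  refine ⟨fun v hv => hL.mod.sub hv.1, fun s hs s' hs' t ht ht' => ?_⟩
  by_cases h1 : t ∈ W
  · rw [g.symm, g.symm s', hL.c_low h1 ht' hs, hL.c_low h1 ht' hs']
  · exact hL.mod.eq hs.1 hs'.1 ht h1

theorem Lev.restrict (hL : g.Lev Q W K lvl τ up) (hR : R ⊆ Q) (hK : K ⊆ R) :
    g.Lev R (W ∩ R) K lvl τ up :=
  ⟨hL.mod.restrict hR, subset_inter hL.sub hK, fun v hv => hL.colK v hv.1,
    fun v hv h1 u hu => hL.col v hv.1 h1 u hu.1⟩

variable (g) in
structure Pre (F W K : Set V) (lvl : V → ℕ) (τ : V → Bool) (mk : ℕ → V) (up : Bool) : Prop where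
  lev : g.Lev F W K lvl τ up
  mem : ∀ i, i % 5 ≠ 4 → i % 5 ≠ 2 → mk i ∈ W ∧ mk i ∉ K ∧ lvl (mk i) = i
  uniq : ∀ v ∈ W, v ∉ K → lvl v % 5 ≠ 4 → v = mk (lvl v) ∧ τ v = pat (lvl v)

def zset (W K : Set V) (lvl : V → ℕ) (N : ℕ) : Set V :=
  {v | v ∈ W ∧ v ∉ K ∧ (lvl v = 5 * N + 1 ∨ lvl v = 5 * N + 2)}

theorem pat_true {i : ℕ} (h : i % 5 = 0 ∨ i % 5 = 3) : pat i = true := by simp [pat, h]

theorem pat_false {i : ℕ} (h : i % 5 = 1 ∨ i % 5 = 2) : pat i = false := by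
  simp only [pat, decide_eq_false_iff_not]; omega

theorem Pre.tau (hP : g.Pre F W K lvl τ mk up) {i : ℕ} (h1 : i % 5 ≠ 4) (h2 : i % 5 ≠ 2) :
    τ (mk i) = pat i := by
  obtain ⟨k1, k2, k3⟩ := hP.mem i h1 h2
  have := (hP.uniq _ k1 k2 (by rw [k3]; exact h1)).2
  rwa [k3] at this

theorem Pre.block (hP : g.Pre F W K lvl τ mk up) (hK : up = true → K.Nonempty)
    {N iq ip bL bT bH : ℕ}
    (hc : (up = true ∧ iq = 5 * N ∧ ip = 5 * N + 3 ∧ bL = 5 * N + 1 ∧ bT = 5 * N + 3 ∧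
      bH = 5 * N + 4) ∨ (up = false ∧ iq = 5 * N + 3 ∧ ip = 5 * N ∧ bL = 5 * N + 3 ∧
      bT = 5 * N + 1 ∧ bH = 5 * N)) :
    g.Str F (low W K lvl up bL) ∧ g.Str F (low W K lvl up bT) ∧
      (∀ x ∈ F, x ∉ low W K lvl up bL →
        (g.Mod F (insert x (low W K lvl up bL)) ↔ x ∈ zset W K lvl N)) ∧
      (∀ x ∈ low W K lvl up bT, (∀ v ∈ low W K lvl up bT, g.c x v = false) ↔
        x ∈ zset W K lvl N) ∧ g.cl F (mk iq) (mk (5 * N + 1)) = low W K lvl up bT := by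
  have hL := hP.lev
  obtain ⟨q1, q2, q3⟩ := hP.mem iq (by omega) (by omega)
  obtain ⟨p1, p2, p3⟩ := hP.mem ip (by omega) (by omega)
  obtain ⟨z1, z2, z3⟩ := hP.mem (5 * N + 1) (by omega) (by omega)
  have e1 : low W K lvl up bL ∪ zset W K lvl N = low W K lvl up bT := by
    ext v
    simp only [low, zset, lo, mem_union, mem_ofPred_eq]
    by_cases h1 : v ∈ W <;> by_cases h2 : v ∈ K <;>
      rcases hc with ⟨rfl, hc⟩ | ⟨rfl, hc⟩ <;> simp [h1, h2] <;> omega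
  have e2 : insert (mk ip) (low W K lvl up bT) = low W K lvl up bH := by
    ext v
    constructor
    · rintro (rfl | h)
      · refine ⟨p1, Or.inr ?_⟩
        rw [p3]; unfold lo; rcases hc with ⟨rfl, hc⟩ | ⟨rfl, hc⟩ <;> simp <;> omega
      · refine ⟨h.1, h.2.imp_right ?_⟩
        unfold lo; rcases hc with ⟨rfl, hc⟩ | ⟨rfl, hc⟩ <;> simp <;> omega
    · intro h
      by_cases h1 : v ∈ low W K lvl up bT
      · exact Or.inr h1
      · left
        have h2 : v ∉ K := fun h2 => h1 ⟨h.1, Or.inl h2⟩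
        have h3 : ¬ lo up (lvl v) bT := fun h2 => h1 ⟨h.1, Or.inr h2⟩
        have h4 := h.2.resolve_left h2
        have h5 : lvl v = ip := by
          unfold lo at h3 h4
          rcases hc with ⟨rfl, hc⟩ | ⟨rfl, hc⟩ <;> simp at h3 h4 <;> omega
        rw [← h5]
        exact (hP.uniq v h.1 h2 (by omega)).1
  have hz0 : ∀ s ∈ zset W K lvl N, τ s = false := fun s hs => by
    rw [(hP.uniq s hs.1 hs.2.1 (by have := hs.2.2; omega)).2]
    exact pat_false (by have := hs.2.2; omega)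
  have hZL : ∀ s ∈ zset W K lvl N, s ∉ low W K lvl up bL := by
    intro s hs h
    have h1 := h.2.resolve_left hs.2.1
    have h2 := hs.2.2
    unfold lo at h1
    rcases hc with ⟨rfl, hc⟩ | ⟨rfl, hc⟩ <;> simp at h1 <;> omega
  have hpT : mk ip ∉ low W K lvl up bT := by
    intro h
    have h1 := h.2.resolve_left p2
    rw [p3] at h1
    unfold lo at h1
    rcases hc with ⟨rfl, hc⟩ | ⟨rfl, hc⟩ <;> simp at h1 <;> omega
  obtain ⟨l, hl, hlq⟩ : ∃ l ∈ low W K lvl up bL, l ≠ mk iq := by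
    rcases hc with ⟨rfl, hc⟩ | ⟨rfl, hc⟩
    · obtain ⟨l, hl⟩ := hK rfl
      exact ⟨l, ⟨hL.sub hl, Or.inl hl⟩, fun h => q2 (h ▸ hl)⟩
    · obtain ⟨l1, l2, l3⟩ := hP.mem (5 * N + 5) (by omega) (by omega)
      refine ⟨_, ⟨l1, Or.inr (Or.inr ⟨rfl, by omega⟩)⟩, fun h => ?_⟩
      rw [h] at l3
      omega
  have := marker (g := g) (R := F) (L := low W K lvl up bL) (Z := zset W K lvl N) (p := mk ip)
    (q := mk iq) (z := mk (5 * N + 1)) (hL.mod_low _) (by rw [e1]; exact hL.mod_low _)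
    (by rw [e1, e2]; exact hL.mod_low _)
    ⟨q1, Or.inr (by rw [q3]; unfold lo; rcases hc with ⟨rfl, hc⟩ | ⟨rfl, hc⟩ <;> simp <;> omega)⟩
    (fun v hv hne => by
      rw [← (hP.tau (i := iq) (by omega) (by omega)).trans (pat_true (by omega))]
      by_cases h1 : v ∈ K
      · exact hL.colK _ q1 q2 v h1
      · refine hL.col _ q1 q2 v hv.1 h1 ?_
        have h2 := hv.2.resolve_left h1
        have h3 : lvl v ≠ iq := fun h3 => hne (by
          rw [← h3]; exact (hP.uniq v hv.1 h1 (by omega)).1)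
        rw [q3]
        unfold lo at h2
        unfold hi
        rcases hc with ⟨rfl, hc⟩ | ⟨rfl, hc⟩ <;> simp at h2 ⊢ <;> omega)
    hl hlq ⟨z1, z2, Or.inl z3⟩
    (fun s hs v hv => by
      rcases hv with hv | hv
      · rw [hL.c_low hs.1 (hZL s hs) hv, hz0 s hs]
      · by_cases h1 : lvl s = lvl v
        · rw [(hP.uniq s hs.1 hs.2.1 (by have := hs.2.2; omega)).1, h1,
            ← (hP.uniq v hv.1 hv.2.1 (by have := hv.2.2; omega)).1, g.irr]
        · by_cases h2 : hi up (lvl s) (lvl v)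
          · rw [hL.col s hs.1 hs.2.1 v hv.1 hv.2.1 h2, hz0 s hs]
          · rw [g.symm, hL.col v hv.1 hv.2.1 s hs.1 hs.2.1 (by
              unfold hi at h2 ⊢
              cases up <;> simp at h2 ⊢ <;> omega), hz0 v hv])
    hZL (by rw [e1]; exact hpT)
    (fun v hv => by
      rw [e1] at hv
      rw [hL.c_low p1 hpT hv, hP.tau (by omega) (by omega), pat_true (by omega)])
  rwa [e1] at this

/-- The sibling coding `S`. -/
def code (F : Set V) (mk : ℕ → V) (S : Set ℕ) : Set V := F \ {v | ∃ n ∉ S, v = mk (5 * n + 7)}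

section

variable (hP : g.Pre F W K lvl τ mk up)
  (hz : ∀ n, mk (5 * n + 7) ∈ W ∧ mk (5 * n + 7) ∉ K ∧ lvl (mk (5 * n + 7)) = 5 * n + 7)
include hP hz

theorem Pre.mem_code {S : Set ℕ} (hv : v ∈ W) (h : v ∈ K ∨ ∀ n ∉ S, lvl v ≠ 5 * n + 7) :
    v ∈ W ∩ code F mk S := by
  refine ⟨hv, hP.lev.mod.sub hv, ?_⟩
  rintro ⟨n, hn, rfl⟩
  rcases h with h | h
  · exact (hz n).2.1 h
  · exact h n hn (hz n).2.2

theorem Pre.code (S : Set ℕ) : g.Pre (code F mk S) (W ∩ code F mk S) K lvl τ mk up := by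
  refine ⟨hP.lev.restrict sdiff_subset fun v hv =>
    (hP.mem_code hz (hP.lev.sub hv) (Or.inl hv)).2, fun i h1 h2 => ?_, fun v hv => hP.uniq v hv.1⟩
  obtain ⟨k1, k2, k3⟩ := hP.mem i h1 h2
  exact ⟨hP.mem_code hz k1 (Or.inr fun n _ => by omega), k2, k3⟩

theorem Pre.code_agree {S S' : Set ℕ} {n : ℕ} (hS : ∀ m < n, m ∈ S ↔ m ∈ S')
    (hv : v ∈ W ∩ Gr.code F mk S) (h : v ∈ K ∨ lvl v < 5 * n + 7) : v ∈ W ∩ Gr.code F mk S' := by
  refine ⟨hv.1, hv.2.1, ?_⟩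
  rintro ⟨m, hm, rfl⟩
  rcases h with h | h
  · exact (hz m).2.1 h
  · rw [(hz m).2.2] at h
    exact hv.2.2 ⟨m, fun h1 => hm ((hS m (by omega)).1 h1), rfl⟩

theorem Pre.z_two {S : Set ℕ} {n : ℕ} (hn : n ∈ S) :
    (zset (W ∩ Gr.code F mk S) K lvl (n + 1)).Nontrivial := by
  obtain ⟨k1, k2, k3⟩ := (hP.code hz S).mem (5 * (n + 1) + 1) (by omega) (by omega)
  refine ⟨_, ⟨k1, k2, Or.inl k3⟩, mk (5 * n + 7), ⟨hP.mem_code hz (hz n).1 (Or.inr fun m hm h => ?_),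
    (hz n).2.1, Or.inr (by rw [(hz n).2.2]; omega)⟩, fun h => ?_⟩
  · rw [(hz n).2.2] at h
    obtain rfl : n = m := by omega
    exact hm hn
  · have := (hz n).2.2
    rw [← h, k3] at this
    omega

theorem Pre.z_one {S : Set ℕ} {n : ℕ} (hn : n ∉ S) :
    (zset (W ∩ Gr.code F mk S) K lvl (n + 1)).Subsingleton := by
  have key : ∀ v ∈ zset (W ∩ Gr.code F mk S) K lvl (n + 1), v = mk (5 * (n + 1) + 1) := by
    intro v hv
    have h1 := (hP.uniq v hv.1.1 hv.2.1 (by have := hv.2.2; omega)).1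
    rcases hv.2.2 with h | h
    · rwa [h] at h1
    · exact absurd ⟨n, hn, by rw [h1, h]; rfl⟩ hv.1.2.2
  intro v hv v' hv'
  rw [key v hv, key v' hv']

theorem Pre.code_eqv (hFQ : F ⊆ Q) (hle : g.Le Q (Gr.code F mk ∅)) (S : Set ℕ) :
    g.Eqv Q (Gr.code F mk S) :=
  ⟨hle.trans (le_of_sub fun _ hv => ⟨hv.1, fun ⟨n, _, h⟩ => hv.2 ⟨n, notMem_empty n, h⟩⟩),
    le_of_sub (sdiff_subset.trans hFQ)⟩

end

theorem Pre.up_alt (hP : g.Pre F W K lvl τ mk true)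
    (hz : ∀ n, mk (5 * n + 7) ∈ W ∧ mk (5 * n + 7) ∉ K ∧ lvl (mk (5 * n + 7)) = 5 * n + 7)
    (hK : K.Nonempty) (hFQ : F ⊆ Q) (hle : g.Le Q (Gr.code F mk ∅)) :
    g.Cont Q ∨ ∃ (b : ℕ) (r : ℕ → V), Injective r ∧
      (∀ i, r i ∈ W ∧ r i ∉ K ∧ lvl (r i) < b ∧ τ (r i) = pat i) ∧
      ∀ i j, i < j → g.c (r i) (r j) = pat i := by
  rw [or_iff_not_imp_right]
  intro halt
  have hq := fun S => (hP.code hz S).mem 0 (by omega) (by omega)
  have hz1 := fun S => (hP.code hz S).mem 1 (by omega) (by omega)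
  refine cont_of (Gr.code F mk) [mk 0, mk 1] (hP.code_eqv hz hFQ hle) (fun S v hv => ?_) ?_
  · simp only [List.mem_cons, List.not_mem_nil, or_false] at hv
    rcases hv with rfl | rfl
    exacts [(hq S).1.2, (hz1 S).1.2]
  have heq : ∀ {S S' : Set ℕ} {n b : ℕ}, (∀ m < n, m ∈ S ↔ m ∈ S') → b ≤ 5 * n + 7 →
      low (W ∩ Gr.code F mk S) K lvl true b = low (W ∩ Gr.code F mk S') K lvl true b := by
    intro S S' n b hS hb
    have k : ∀ v, v ∈ K ∨ lo true (lvl v) b → v ∈ K ∨ lvl v < 5 * n + 7 := fun v h =>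
      h.imp_right fun h => by unfold lo at h; simp at h; omega
    ext v
    exact ⟨fun h => ⟨hP.code_agree hz hS h.1 (k v h.2), h.2⟩,
      fun h => ⟨hP.code_agree hz (fun m hm => (hS m hm).symm) h.1 (k v h.2), h.2⟩⟩
  have hB := fun S N => (hP.code hz S).block (fun _ => hK) (N := N)
    (Or.inl ⟨rfl, rfl, rfl, rfl, rfl, rfl⟩)
  have core : ∀ (S S' : Set ℕ) (n : ℕ) (ψ : V → V), g.IsoMap (Gr.code F mk S) (Gr.code F mk S') ψ →
      ψ (mk 0) = mk 0 → ψ (mk 1) = mk 1 → (∀ m < n, m ∈ S ↔ m ∈ S') →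
      ψ '' low (W ∩ Gr.code F mk S) K lvl true (5 * (n + 1) + 1) ⊆
        low (W ∩ Gr.code F mk S) K lvl true (5 * (n + 1) + 1) →
      ψ '' low (W ∩ Gr.code F mk S) K lvl true (5 * (n + 1) + 1) =
        low (W ∩ Gr.code F mk S) K lvl true (5 * (n + 1) + 1) := by
    intro S S' n ψ hψ h0 h1 hS hsub
    by_contra hne
    apply halt
    have hL := (hB S (n + 1)).1
    have hL' := (hB S' (n + 1)).1
    rw [← heq hS (by omega)] at hL'
    have hT := hψ.cl_image (hq S).1.2 (hz1 S).1.2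
    have hT1 := (hB S 0).2.2.2.2
    have hT2 := (hB S' 0).2.2.2.2
    rw [← heq hS (by omega)] at hT2
    simp only [Nat.mul_zero, Nat.zero_add] at hT1 hT2
    rw [h0, h1, hT1, hT2] at hT
    obtain ⟨r, r1, r2, r3⟩ := up_core (hψ.emb.mono hL.sub (image_subset_iff.1 hsub))
      ((hψ.str_image hL).restrict hL'.mod hsub) hne (q := mk 0)
      (T := low (W ∩ Gr.code F mk S) K lvl true 3) ⟨(hq S).1, Or.inr (Or.inl ⟨rfl, by rw [(hq S).2.2]; omega⟩)⟩ h0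
      (fun v hv => ⟨hv.1, hv.2.imp_right fun h => by unfold lo at h ⊢; simp at h ⊢; omega⟩) hT
    refine ⟨5 * (n + 1) + 1, r, r1, fun i => ?_, r3⟩
    obtain ⟨k1, k2, k3⟩ := r2 i
    have k4 : r i ∉ K := fun h => k2 ⟨k1.1, Or.inl h⟩
    refine ⟨k1.1.1, k4, ?_, ?_⟩
    · have := k1.2.resolve_left k4
      unfold lo at this; simpa using this
    · rw [← k3]
      exact ((hP.code hz S).lev.c_low k1.1 k2
        ⟨(hq S).1, Or.inr (Or.inl ⟨rfl, by rw [(hq S).2.2]; omega⟩)⟩).symm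
  intro S S' n ψ hψ hfix hS hn hn'
  have h0 := hfix (mk 0) (by simp)
  have h1 := hfix (mk 1) (by simp)
  obtain ⟨hL, -, hU, -⟩ := hB S (n + 1)
  obtain ⟨hL', -, hU', -⟩ := hB S' (n + 1)
  have e1 := heq hS (b := 5 * (n + 1) + 1) (by omega)
  have hq0 : mk 0 ∈ low (W ∩ Gr.code F mk S) K lvl true (5 * (n + 1) + 1) :=
    ⟨(hq S).1, Or.inr (Or.inl ⟨rfl, by rw [(hq S).2.2]; omega⟩)⟩
  have himg : ψ '' low (W ∩ Gr.code F mk S) K lvl true (5 * (n + 1) + 1) =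
      low (W ∩ Gr.code F mk S) K lvl true (5 * (n + 1) + 1) := by
    rcases (hψ.str_image hL).cmp hL'.mod ⟨_, hq0, h0⟩ (e1 ▸ hq0) with h2 | h2
    · exact core S S' n ψ hψ h0 h1 hS (e1 ▸ h2)
    · obtain ⟨ψ', hψ', k1, k2⟩ := hψ.inv
      have := core S' S n ψ' hψ' (by conv_lhs => rw [← h0]; exact k1 _ (hq S).1.2)
        (by conv_lhs => rw [← h1]; exact k1 _ (hz1 S).1.2) (fun m hm => (hS m hm).symm) (by
          rintro _ ⟨v, hv, rfl⟩
          obtain ⟨u, hu, rfl⟩ := h2 hv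
          rw [k1 u (hL.sub hu), ← e1]; exact hu)
      refine Subset.antisymm ?_ (e1 ▸ h2)
      rintro _ ⟨v, hv, rfl⟩
      rw [e1, ← this] at hv
      obtain ⟨u, hu, rfl⟩ := hv
      rw [k2 u (hL'.sub hu), e1]; exact hu
  obtain ⟨s, hs, s', hs', hne⟩ := hP.z_two hz hn
  have key : ∀ s ∈ zset (W ∩ Gr.code F mk S) K lvl (n + 1),
      ψ s ∈ zset (W ∩ Gr.code F mk S') K lvl (n + 1) := by
    intro s hs
    have k1 : s ∉ low (W ∩ Gr.code F mk S) K lvl true (5 * (n + 1) + 1) := fun h => by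
      have h1 := h.2.resolve_left hs.2.1
      have h2 := hs.2.2
      unfold lo at h1; simp at h1; omega
    have k2 := hψ.mod_image ((hU s hs.1.2 k1).2 hs)
    rw [image_insert_eq, himg, e1] at k2
    refine (hU' _ (hψ.emb.maps hs.1.2) ?_).1 k2
    rw [← e1, ← himg]
    exact fun h => k1 ((hψ.mem_image hL.sub hs.1.2).1 h)
  exact hψ.emb.ne hs.1.2 hs'.1.2 hne (hP.z_one hz hn' (key s hs) (key s' hs'))

theorem Pre.down_alt (hP : g.Pre F W K lvl τ mk false)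
    (hz : ∀ n, mk (5 * n + 7) ∈ W ∧ mk (5 * n + 7) ∉ K ∧ lvl (mk (5 * n + 7)) = 5 * n + 7)
    (hFQ : F ⊆ Q) (hle : g.Le Q (Gr.code F mk ∅)) :
    g.Cont Q ∨ ∃ (b : ℕ) (r : ℕ → V), Injective r ∧
      (∀ i, r i ∈ W ∧ r i ∉ K ∧ lvl (r i) < b) ∧
      (((∀ i, τ (r i) = pat i) ∧ ∀ i j, i < j → g.c (r i) (r j) = pat j) ∨
        ((∀ i j, τ (r i) = τ (r j)) ∧ ∀ i j, i < j → g.c (r i) (r j) = pat i)) := by
  rw [or_iff_not_imp_right]
  intro halt
  have hq := fun S => (hP.code hz S).mem 3 (by omega) (by omega)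
  have hz1 := fun S => (hP.code hz S).mem 1 (by omega) (by omega)
  refine cont_of (Gr.code F mk) [mk 3, mk 1] (hP.code_eqv hz hFQ hle) (fun S v hv => ?_) ?_
  · simp only [List.mem_cons, List.not_mem_nil, or_false] at hv
    rcases hv with rfl | rfl
    exacts [(hq S).1.2, (hz1 S).1.2]
  have hB := fun S N => (hP.code hz S).block (fun h => absurd h (by simp)) (N := N)
    (Or.inr ⟨rfl, rfl, rfl, rfl, rfl, rfl⟩)
  set T : Set ℕ → ℕ → Set V := fun S N => low (W ∩ Gr.code F mk S) K lvl false (5 * N + 1) with hT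
  set A : Set ℕ → ℕ → Set V := fun S N =>
    {v | v ∈ W ∩ Gr.code F mk S ∧ v ∉ K ∧ 1 ≤ lvl v ∧ lvl v < 5 * N + 1} with hA
  have hTA : ∀ S N, T S N ∪ A S N = T S 0 := by
    intro S N
    ext v
    simp only [hT, hA, low, lo, mem_union, mem_ofPred_eq]
    by_cases h1 : v ∈ W ∩ Gr.code F mk S <;> by_cases h2 : v ∈ K <;> simp only [h1, h2] <;>
      simp <;> omega
  have hAT : ∀ S N, ∀ v ∈ A S N, v ∉ T S N := by
    intro S N v hv h
    have h1 := h.2.resolve_left hv.2.1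
    have h2 := hv.2.2.2
    unfold lo at h1; simp at h1; omega
  have heq : ∀ {S S' : Set ℕ} {n : ℕ}, (∀ m < n, m ∈ S ↔ m ∈ S') → A S (n + 1) = A S' (n + 1) := by
    intro S S' n hS
    ext v
    exact ⟨fun h => ⟨hP.code_agree hz hS h.1 (Or.inr (by have := h.2.2.2; omega)), h.2⟩,
      fun h => ⟨hP.code_agree hz (fun m hm => (hS m hm).symm) h.1
        (Or.inr (by have := h.2.2.2; omega)), h.2⟩⟩
  have hmk : ∀ S N i, i % 5 ≠ 4 → i % 5 ≠ 2 → 5 * N + 1 ≤ i → mk i ∈ T S N := by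
    intro S N i h1 h2 h3
    obtain ⟨k1, -, k3⟩ := (hP.code hz S).mem i h1 h2
    exact ⟨k1, Or.inr (Or.inr ⟨rfl, by rw [k3]; exact h3⟩)⟩
  have hτ : ∀ S N, ∀ v ∈ A S N, ∀ u ∈ T S N, g.c v u = τ v := fun S N v hv u hu =>
    (hP.code hz S).lev.c_low hv.1 (hAT S N v hv) hu
  have htop : ∀ (S S' : Set ℕ) (ψ : V → V), g.IsoMap (Gr.code F mk S) (Gr.code F mk S') ψ →
      ψ (mk 3) = mk 3 → ψ (mk 1) = mk 1 → ψ '' T S 0 = T S' 0 := by
    intro S S' ψ hψ h0 h1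
    have hT := hψ.cl_image (hq S).1.2 (hz1 S).1.2
    have hT1 := (hB S 0).2.2.2.2
    have hT2 := (hB S' 0).2.2.2.2
    simp only [Nat.mul_zero, Nat.zero_add] at hT1 hT2
    rwa [h0, h1, hT1, hT2] at hT
  have core : ∀ (S S' : Set ℕ) (n : ℕ) (ψ : V → V), g.IsoMap (Gr.code F mk S) (Gr.code F mk S') ψ →
      ψ (mk 3) = mk 3 → ψ (mk 1) = mk 1 → (∀ m < n, m ∈ S ↔ m ∈ S') →
      T S' (n + 1) ⊆ ψ '' T S (n + 1) → ψ '' T S (n + 1) = T S' (n + 1) := by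
    intro S S' n ψ hψ h0 h1 hS hsub
    by_contra hne
    apply halt
    have hu := hmk S (n + 1) (5 * (n + 1) + 3) (by omega) (by omega) (by omega)
    obtain ⟨r, r1, r2, r3⟩ := down_core (A := A S (n + 1)) hψ
      (by rw [hTA]; exact (hB S 0).2.1.sub)
      (by rw [hTA, heq hS, hTA]; exact htop S S' ψ hψ h0 h1) (hAT S _)
      (by rw [heq hS, hTA]; exact (hB S' 0).2.1.mod) (hB S' (n + 1)).2.1.mod
      (hψ.str_image (hB S (n + 1)).2.1) hsub hne hu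
      (hmk S' (n + 1) (5 * (n + 1) + 3) (by omega) (by omega) (by omega))
    refine ⟨5 * (n + 1) + 1, r, r1, fun i => ⟨(r2 i).1.1.1, (r2 i).1.2.1, (r2 i).1.2.2.2⟩,
      Or.inl ⟨fun i => ?_, r3⟩⟩
    rw [← hτ S _ _ (r2 i).1 _ hu, (r2 i).2]
  intro S S' n ψ hψ hfix hS hn hn'
  have h0 := hfix (mk 3) (by simp)
  have h1 := hfix (mk 1) (by simp)
  obtain ⟨-, hL, -, hU, -⟩ := hB S (n + 1)
  obtain ⟨-, hL', -, hU', -⟩ := hB S' (n + 1)
  change g.Str _ (T S (n + 1)) at hL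
  change g.Str _ (T S' (n + 1)) at hL'
  have himg : ψ '' T S (n + 1) = T S' (n + 1) := by
    by_cases hmeet : ∃ u ∈ ψ '' T S (n + 1), u ∈ T S' (n + 1)
    · obtain ⟨u, hu, hu'⟩ := hmeet
      rcases (hψ.str_image hL).cmp hL'.mod hu hu' with h2 | h2
      · obtain ⟨ψ', hψ', k1, k2⟩ := hψ.inv
        have := core S' S n ψ' hψ' (by conv_lhs => rw [← h0]; exact k1 _ (hq S).1.2)
          (by conv_lhs => rw [← h1]; exact k1 _ (hz1 S).1.2) (fun m hm => (hS m hm).symm)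
          (fun v hv => ⟨ψ v, h2 (mem_image_of_mem ψ hv), k1 v (hL.sub hv)⟩)
        refine Subset.antisymm h2 fun v hv => ⟨ψ' v, ?_, k2 v (hL'.sub hv)⟩
        rw [← this]; exact mem_image_of_mem _ hv
      · exact core S S' n ψ hψ h0 h1 hS h2
    · exfalso
      apply halt
      push Not at hmeet
      set ix : ℕ → ℕ := fun i => 5 * (n + 2 + i) + if pat i then 0 else 1 with hix
      have x1 : ∀ i, ix i % 5 ≠ 4 ∧ ix i % 5 ≠ 2 ∧ 5 * (n + 2 + i) ≤ ix i ∧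
          ix i < 5 * (n + 2 + i) + 5 ∧ pat (ix i) = pat i := by
        intro i
        simp only [hix]
        cases pat i
        · exact ⟨by simp, by simp, by simp, by simp, pat_false (by simp)⟩
        · exact ⟨by simp, by simp, by simp, by simp, pat_true (by simp)⟩
      have x2 : ∀ i, mk (ix i) ∈ T S (n + 1) := fun i =>
        hmk S _ _ (x1 i).1 (x1 i).2.1 (by have := (x1 i).2.2.1; omega)
      have x3 : ∀ i, ψ (mk (ix i)) ∈ A S' (n + 1) := by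
        intro i
        have : ψ (mk (ix i)) ∈ T S' (n + 1) ∪ A S' (n + 1) := by
          rw [hTA, ← htop S S' ψ hψ h0 h1, ← hTA S (n + 1)]
          exact mem_image_of_mem _ (Or.inl (x2 i))
        exact this.resolve_left (hmeet _ (mem_image_of_mem _ (x2 i)))
      have x4 : ∀ i j, i < j → mk (ix i) ≠ mk (ix j) ∧ g.c (mk (ix i)) (mk (ix j)) = pat i := by
        intro i j hij
        obtain ⟨a1, a2, a3⟩ := hP.mem _ (x1 i).1 (x1 i).2.1
        obtain ⟨b1, b2, b3⟩ := hP.mem _ (x1 j).1 (x1 j).2.1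
        have hlt : ix i < ix j := by
          have := (x1 i).2.2.2.1; have := (x1 j).2.2.1; omega
        refine ⟨fun h => by rw [h, b3] at a3; omega, ?_⟩
        rw [hP.lev.col _ a1 a2 _ b1 b2 (Or.inr ⟨rfl, by rw [a3, b3]; exact hlt⟩),
          hP.tau (x1 i).1 (x1 i).2.1, (x1 i).2.2.2.2]
      have hu := hmk S' (n + 1) (5 * (n + 1) + 3) (by omega) (by omega) (by omega)
      refine ⟨5 * (n + 1) + 1, fun i => ψ (mk (ix i)), fun i j hij => ?_,
        fun i => ⟨(x3 i).1.1, (x3 i).2.1, (x3 i).2.2.2⟩, Or.inr ⟨fun i j => ?_, fun i j hij => ?_⟩⟩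
      · have := hψ.emb.inj (hL.sub (x2 i)) (hL.sub (x2 j)) hij
        rcases lt_trichotomy i j with h | h | h
        · exact absurd this (x4 i j h).1
        · exact h
        · exact absurd this.symm (x4 j i h).1
      · rw [← hτ S' _ _ (x3 i) _ hu, ← hτ S' _ _ (x3 j) _ hu]
        exact (hψ.mod_image hL.mod).eq (mem_image_of_mem _ (x2 i)) (mem_image_of_mem _ (x2 j))
          (hL'.sub hu) (fun h => hmeet _ h hu)
      · rw [hψ.emb.c (hL.sub (x2 i)) (hL.sub (x2 j)), (x4 i j hij).2]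
  obtain ⟨s, hs, s', hs', hne⟩ := hP.z_two hz hn
  have key : ∀ s ∈ zset (W ∩ Gr.code F mk S) K lvl (n + 1),
      ψ s ∈ zset (W ∩ Gr.code F mk S') K lvl (n + 1) := by
    intro s hs
    have k1 : s ∈ T S (n + 1) := ⟨hs.1, Or.inr (Or.inr ⟨rfl, by have := hs.2.2; omega⟩)⟩
    refine (hU' _ (himg.subset (mem_image_of_mem _ k1))).1 fun v hv => ?_
    obtain ⟨v, hv', rfl⟩ := himg.symm.subset hv
    rw [hψ.emb.c hs.1.2 (hL.sub hv')]
    exact (hU s k1).2 hs v hv'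
  exact hψ.emb.ne hs.1.2 hs'.1.2 hne (hP.z_one hz hn' (key s hs) (key s' hs'))

end Gr

end Pool.Agent.MP_2a6d4e_co
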