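import Pool.Agent.MP_2a6d4e_co.Normal

/-! The trichotomy for an abstract classification of the siblings; graphs without `P₄`. -/

namespace Pool.Agent.MP_2a6d4e_co

open Set Function Cardinal

namespace Gr

variable {V : Type} {g : Gr V}

theorem trichotomy [Countable V] (hF : g.FinP) {X : Type 1} (ρ : X → Set V)
    (h1 : ∀ x, g.Eqv univ (ρ x)) (h2 : ∀ x y, g.Iso (ρ x) (ρ y) → x = y)
    (h3 : ∀ R, g.Eqv univ R → ∃ x, g.Iso R (ρ x)) : #X = 1 ∨ #X = ℵ₀ ∨ #X = 𝔠 := by
  by_cases hc : g.Cont univ
  · right; right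
    apply le_antisymm
    · have := lift_mk_le_lift_mk_of_injective (f := ρ) fun x y h => h2 x y (h ▸ Iso.refl _)
      rw [lift_uzero, mk_set, lift_power, lift_ofNat] at this
      refine this.trans ?_
      rw [← two_power_aleph0]
      exact power_le_power_left two_ne_zero (lift_le_aleph0.2 mk_le_aleph0)
    · obtain ⟨F, L, k1, k2, k3⟩ := hc
      choose cls ψ hψ using fun S => h3 _ (k1 S)
      have inj : Injective fun S => (cls S, ULift.up.{1} (L.map (ψ S))) := by
        intro S S' h
        simp only [Prod.mk.injEq, ULift.up.injEq, List.map_inj_left] at h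
        obtain ⟨χ, hχ, c1, -⟩ := (hψ S').inv
        refine k3 S S' _ (hχ.comp (h.1 ▸ hψ S)) fun v hv => ?_
        simp only [comp_apply]
        rw [h.2 v hv, c1 v (k2 S' v hv)]
      have := lift_mk_le_lift_mk_of_injective inj
      rw [lift_uzero, mk_set, lift_power, lift_ofNat, mk_nat, lift_aleph0, two_power_aleph0,
        mk_prod, lift_id, lift_id] at this
      by_contra hlt
      exact absurd this (not_le.2 (mul_lt_of_lt aleph0_le_continuum (not_le.1 hlt)
        (mk_le_aleph0.trans_lt aleph0_lt_continuum)))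
  by_cases hs : ∃ x w, g.Soft (ρ x) w
  · right; left
    obtain ⟨x, w, hw⟩ := hs
    have : Nonempty V := ⟨hw.choose 0⟩
    apply le_antisymm
    · obtain ⟨d, hd⟩ := countable_of_not_cont hF hc
      have : Countable X := (show Injective fun x => d (ρ x) from
        fun x y h => h2 x y (hd _ _ (h1 x) (h1 y) h)).countable
      exact mk_le_aleph0
    · obtain ⟨R, k1, k2⟩ := inf_of_soft hF (fun h => hc (h.of_eqv (h1 x))) hw
      choose cls hcls using fun n => h3 _ ((h1 x).trans (k1 n))
      have : Infinite X := Infinite.of_injective cls fun n m h =>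
        k2 n m ((hcls n).trans (h ▸ (hcls m).symm))
      exact aleph0_le_mk X
  · left
    push Not at hs
    have k : ∀ x, g.Rev (ρ x) := fun x => rev_of_no_soft hF (fun h => hc (h.of_eqv (h1 x))) (hs x)
    obtain ⟨x, -⟩ := h3 _ (Eqv.refl _)
    exact eq_one_iff_unique.2 ⟨⟨fun a b => h2 a b
      (iso_of_rev (k a) (k b) ((h1 a).symm.trans (h1 b)))⟩, ⟨x⟩⟩

/-- Without an induced `P₄`, indecomposable induced subgraphs have at most two vertices. -/
theorem finP_of_free (h4 : ∀ a b c d : V, g.c a b = true → g.c b c = true → g.c c d = true →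
    g.c a c = false → g.c a d = false → g.c b d = false → False) : g.FinP := by
  intro T hT
  by_contra hinf
  have three : ∀ a b, ∃ c ∈ T, c ≠ a ∧ c ≠ b := fun a b => by
    obtain ⟨c, hc, hc'⟩ := Set.Infinite.exists_notMem_finite hinf (toFinite {a, b})
    exact ⟨c, hc, fun h => hc' (Or.inl h), fun h => hc' (Or.inr h)⟩
  have free : ∀ (e : Bool) (a b c d : V), g.c a b = !e → g.c b c = !e → g.c c d = !e →
      g.c a c = e → g.c a d = e → g.c b d = e → False := by
    intro e a b c d k1 k2 k3 k4 k5 k6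
    cases e
    · exact h4 a b c d k1 k2 k3 k4 k5 k6
    · exact h4 b d a c k6 (by rw [g.symm, k5]) k4 (by rw [g.symm, k1]; rfl) k2
        (by rw [g.symm, k3]; rfl)
  have key : ∀ v ∈ T, ∀ x ∈ T, ∀ y ∈ T, x ≠ v → y ≠ v → x ≠ y → g.c v x = g.c v y →
      g.c x y = g.c v x := by
    intro v hv x hx y hy hxv hyv hxy hc
    set e := g.c v x with he
    by_contra hne
    set M : Set V := {s | s ∈ T ∧ s ≠ v ∧ g.c v s = e} with hM
    set C : Set V := {s | s ∈ M ∧ ∀ B : Set V, x ∈ B →
      (∀ a ∈ M, ∀ b ∈ M, a ∈ B → g.c a b = !e → b ∈ B) → s ∈ B} with hC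
    have xC : x ∈ C := ⟨⟨hx, hxv, rfl⟩, fun _ h _ => h⟩
    have cl : ∀ a ∈ C, ∀ b ∈ M, g.c a b = !e → b ∈ C := fun a ha b hb h =>
      ⟨hb, fun B h1 h2 => h2 a ha.1 b hb (ha.2 B h1 h2) h⟩
    have hm : g.Mod T C := by
      have k : ∀ t ∈ T, t ∉ C → ∀ s ∈ C, g.c s t = g.c x t := by
        intro t ht ht' s hs
        by_cases h1 : t ∈ M
        · have k2 : ∀ s ∈ C, g.c s t = e := fun s hs => by
            by_contra h; exact ht' (cl s hs t h1 (bool_ne h))
          rw [k2 s hs, k2 x xC]
        by_cases h2 : t = v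
        · rw [h2, g.symm, g.symm x, hs.1.2.2]
        have h3 : g.c v t = !e := bool_ne fun h => h1 ⟨ht, h2, h⟩
        refine hs.2 {s | g.c s t = g.c x t} rfl fun a ha b hb h5 h6 => ?_
        rw [mem_ofPred_eq, ← h5]
        by_contra h7
        by_cases h8 : g.c a t = e
        · exact free e v t b a h3 (by rw [g.symm]; exact bool_ne fun h => h7 (h.trans h8.symm))
            (by rw [g.symm]; exact h6) hb.2.2 ha.2.2 (by rw [g.symm]; exact h8)
        · refine free e v t a b h3 (by rw [g.symm]; exact bool_ne h8) h6 ha.2.2 hb.2.2 ?_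
          rw [g.symm]
          revert h7 h8
          cases g.c a t <;> cases g.c b t <;> cases e <;> simp
      exact ⟨fun s hs => hs.1.1, fun s hs s' hs' t ht ht' => by rw [k t ht ht' s hs, k t ht ht' s' hs']⟩
    rcases hT C hm with h | h
    · exact hxy (h xC (cl x xC y ⟨hy, hyv, hc.symm⟩ (bool_ne hne)))
    · exact (h.symm.subset hv).1.2.1 rfl
  obtain ⟨a, ha⟩ := Set.Infinite.nonempty hinf
  obtain ⟨b, hb, hba, -⟩ := three a a
  obtain ⟨c, hc, hca, hcb⟩ := three a b
  have hm : g.Mod T {a, b} := by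
    have k : ∀ t ∈ T, t ∉ ({a, b} : Set V) → g.c a t = g.c b t := by
      intro t ht ht'
      have t1 : t ≠ a := fun h => ht' (Or.inl h)
      have t2 : t ≠ b := fun h => ht' (Or.inr h)
      by_contra hne
      by_cases h : g.c a b = g.c a t
      · exact hne (by rw [← h]; exact (key a ha b hb t ht hba t1 t2.symm h).symm)
      · have h' : g.c b a = g.c b t := by
          rw [g.symm]
          revert h hne
          cases g.c a b <;> cases g.c a t <;> cases g.c b t <;> simp
        exact hne (by rw [← h']; exact key b hb a ha t ht hba.symm t2 t1.symm h')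
    refine ⟨insert_subset ha (singleton_subset_iff.2 hb), ?_⟩
    rintro s (rfl | rfl) s' (rfl | rfl) t ht ht'
    exacts [rfl, k t ht ht', (k t ht ht').symm, rfl]
  rcases hT _ hm with h | h
  · exact hba (h (Or.inr rfl) (Or.inl rfl))
  · rcases h.symm.subset hc with h1 | h1
    exacts [hca h1, hcb h1]

end Gr

end Pool.Agent.MP_2a6d4e_co
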