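import Pool.Agent.MP_2a6d4e_co.Reset

/-! Without a continuum of siblings there are countably many. -/

namespace Pool.Agent.MP_2a6d4e_co

open Set Function

namespace Gr

variable {V : Type} {g : Gr V}
variable {Q Q0 R R' A A' B B' w w' : Set V} {a b x y z t u v p : V} {e : Bool} {s s' : ℕ → V}
  {f ψ ψ' : V → V}

theorem exists_bijOn [Countable V] [Nonempty V] (h : A.encard = B.encard) : ∃ f, BijOn f A B := by
  classical
  obtain ⟨φ⟩ := Cardinal.eq.1 (Cardinal.toENat_injOn (Cardinal.mk_le_aleph0 (α := A))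
    (Cardinal.mk_le_aleph0 (α := B)) h)
  refine ⟨fun v => if h : v ∈ A then φ ⟨v, h⟩ else v, fun v hv => ?_, fun v hv u hu h => ?_,
    fun v hv => ⟨φ.symm ⟨v, hv⟩, (φ.symm ⟨v, hv⟩).2, ?_⟩⟩
  · simp [hv]
  · simp only [hv, hu, dif_pos] at h
    exact congrArg Subtype.val (φ.injective (Subtype.ext h))
  · simp

/-- The data describing a removed child. -/
abbrev Lab (V : Type) := V × V × Bool × ℕ × Finset (ℕ × ℕ)

open Classical in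
noncomputable def kap (g : Gr V) (Q0 : Set V) (l : Lab V) (t : V) : Bool :=
  if t ∈ g.cl Q0 l.1 l.2.1 then l.2.2.1 else g.c l.1 t

open Classical in
noncomputable def cross (g : Gr V) (Q0 : Set V) (l l' : Lab V) : Bool :=
  if l.1 ∈ g.cl Q0 l'.1 l'.2.1 ∧ l.2.1 ∈ g.cl Q0 l'.1 l'.2.1 then l'.2.2.1 else g.kap Q0 l l'.1

variable (g) in
structure Ext (Q0 R A B : Set V) (ψ : V → V) (lab : V → Lab V) (en : V → ℕ → V) : Prop where
  iso : g.IsoMap A Q0 ψ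
  sub : A ⊆ R
  mem : ∀ b ∈ B, ∀ i < (lab b).2.2.2.1, en b i ∈ R ∧ en b i ∉ A
  surj : ∀ v ∈ R, v ∉ A → ∃ b ∈ B, ∃ i < (lab b).2.2.2.1, en b i = v
  inj : ∀ b ∈ B, ∀ i < (lab b).2.2.2.1, ∀ b' ∈ B, ∀ j < (lab b').2.2.2.1, en b i = en b' j →
    b = b' ∧ i = j
  same : ∀ b ∈ B, ∀ i < (lab b).2.2.2.1, ∀ j < (lab b).2.2.2.1,
    g.c (en b i) (en b j) = decide ((i, j) ∈ (lab b).2.2.2.2)
  diff : ∀ b ∈ B, ∀ i < (lab b).2.2.2.1, ∀ b' ∈ B, ∀ j < (lab b').2.2.2.1, b ≠ b' →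
    g.c (en b i) (en b' j) = g.cross Q0 (lab b) (lab b')
  old : ∀ b ∈ B, ∀ i < (lab b).2.2.2.1, ∀ t ∈ A, g.c (en b i) t = g.kap Q0 (lab b) (ψ t)

theorem Ext.iso_of [Countable V] [Nonempty V] {lab lab' : V → Lab V} {en en' : V → ℕ → V}
    (H : g.Ext Q0 R A B ψ lab en) (H' : g.Ext Q0 R' A' B' ψ' lab' en')
    (hc : ∀ l, {b | b ∈ B ∧ lab b = l}.encard = {b | b ∈ B' ∧ lab' b = l}.encard) :
    g.Iso R R' := by
  classical
  choose β hβ using fun l => exists_bijOn (hc l)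
  have b1 : ∀ b ∈ B, β (lab b) b ∈ B' ∧ lab' (β (lab b) b) = lab b := fun b hb =>
    (hβ (lab b)).1 ⟨hb, rfl⟩
  have b2 : ∀ b ∈ B, ∀ b' ∈ B, β (lab b) b = β (lab b') b' → b = b' := by
    intro b hb b' hb' h
    have h1 : lab b = lab b' := by rw [← (b1 b hb).2, h, (b1 b' hb').2]
    rw [← h1] at h
    exact (hβ (lab b)).2.1 ⟨hb, rfl⟩ ⟨hb', h1.symm⟩ h
  obtain ⟨χ, hχ, c1, c2⟩ := H'.iso.inv
  have hA := hχ.comp H.iso
  choose! bs hb1 ix hb2 hb3 using H.surj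
  set f : V → V := fun v => if v ∈ A then χ (ψ v) else en' (β (lab (bs v)) (bs v)) (ix v) with hf
  have f1 : ∀ v ∈ A, f v = χ (ψ v) := fun v hv => by simp [hf, hv]
  have f2 : ∀ b ∈ B, ∀ i < (lab b).2.2.2.1, f (en b i) = en' (β (lab b) b) i := by
    intro b hb i hi
    obtain ⟨k1, k2⟩ := H.mem b hb i hi
    obtain ⟨k3, k4⟩ := H.inj _ (hb1 _ k1 k2) _ (hb2 _ k1 k2) b hb i hi (hb3 _ k1 k2)
    simp only [hf, k2, if_false, k3, k4]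
  have f3 : ∀ b ∈ B, ∀ i < (lab b).2.2.2.1, i < (lab' (β (lab b) b)).2.2.2.1 := fun b hb i hi => by
    rw [(b1 b hb).2]; exact hi
  have f4 : ∀ b ∈ B, ∀ i < (lab b).2.2.2.1, ∀ t ∈ A,
      f (en b i) ≠ f t ∧ g.c (f (en b i)) (f t) = g.c (en b i) t := by
    intro b hb i hi t ht
    rw [f1 t ht, f2 b hb i hi]
    refine ⟨fun h => (H'.mem _ (b1 b hb).1 i (f3 b hb i hi)).2 (h ▸ hA.emb.maps ht), ?_⟩
    rw [H'.old _ (b1 b hb).1 i (f3 b hb i hi) _ (hχ.emb.maps (H.iso.emb.maps ht)),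
      H.old b hb i hi t ht, (b1 b hb).2, c2 _ (H.iso.emb.maps ht)]
  have cases : ∀ v ∈ R, v ∈ A ∨ ∃ b ∈ B, ∃ i < (lab b).2.2.2.1, en b i = v := fun v hv =>
    or_iff_not_imp_left.2 (H.surj v hv)
  refine ⟨f, emb_of_ne (fun v hv => ?_) fun v hv u hu hne => ?_, fun v hv => ?_⟩
  · rcases cases v hv with h | ⟨b, hb, i, hi, rfl⟩
    · rw [f1 v h]; exact H'.sub (hA.emb.maps h)
    · rw [f2 b hb i hi]; exact (H'.mem _ (b1 b hb).1 i (f3 b hb i hi)).1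
  · rcases cases v hv with h | ⟨b, hb, i, hi, rfl⟩ <;>
      rcases cases u hu with h' | ⟨b', hb', j, hj, rfl⟩
    · rw [f1 v h, f1 u h']
      exact ⟨hA.emb.ne h h' hne, hA.emb.c h h'⟩
    · rw [g.symm, g.symm v]
      exact ⟨(f4 b' hb' j hj v h).1.symm, (f4 b' hb' j hj v h).2⟩
    · exact f4 b hb i hi u h'
    · rw [f2 b hb i hi, f2 b' hb' j hj]
      refine ⟨fun h => hne ?_, ?_⟩
      · obtain ⟨k1, k2⟩ := H'.inj _ (b1 b hb).1 i (f3 b hb i hi) _ (b1 b' hb').1 j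
          (f3 b' hb' j hj) h
        rw [b2 b hb b' hb' k1, k2]
      · by_cases h : b = b'
        · subst h
          rw [H'.same _ (b1 b hb).1 i (f3 b hb i hi) j (f3 b hb j hj), H.same b hb i hi j hj,
            (b1 b hb).2]
        · rw [H'.diff _ (b1 b hb).1 i (f3 b hb i hi) _ (b1 b' hb').1 j (f3 b' hb' j hj)
            fun h1 => h (b2 b hb b' hb' h1), H.diff b hb i hi b' hb' j hj h, (b1 b hb).2,
            (b1 b' hb').2]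
  · by_cases h : v ∈ A'
    · obtain ⟨u, hu, rfl⟩ := hA.surj h
      exact ⟨u, H.sub hu, f1 u hu⟩
    · obtain ⟨b', hb', i, hi, rfl⟩ := H'.surj v hv h
      obtain ⟨b, ⟨hb, h1⟩, h2⟩ := (hβ (lab' b')).2.2 ⟨hb', rfl⟩
      rw [← h1] at h2 hi
      exact ⟨en b i, (H.mem b hb i hi).1, by rw [f2 b hb i hi, h2]⟩

variable (g) in
def Rec (Q w : Set V) (x : V) : Prop := ∃ s, g.Chain Q w s ∧ x ∈ g.ch Q w (s 0)

variable (g) in
def NonMax (Q w : Set V) (x : V) : Prop := g.Rec Q w x ∧ ∃ x', g.Rec Q w x' ∧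
  g.Le (g.ch Q w x) (g.ch Q w x') ∧ (g.ch Q w x).encard < (g.ch Q w x').encard

theorem normal [Countable V] [Nonempty V] (hF : g.FinP) (hc : ¬ g.Cont R) :
    ∃ A, g.Eqv R A ∧ g.Rev A ∧ ∀ Q0 ψ, g.IsoMap A Q0 ψ →
      ∃ B lab en, g.Ext Q0 R A B ψ lab en ∧ (lab '' B).Finite := by
  classical
  choose N hN using bounded_of_not_cont hF hc
  have hS := stab_of_not_cont hF hc
  have r1 : ∀ w x, g.Rec R w x → g.Node R w ∧ w.Infinite ∧ x ∈ w ∧ (g.ch R w x).encard ≤ N w := by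
    rintro w x ⟨s, hs, hx⟩
    exact ⟨hs.node, hs.infinite, hx.1, by rw [hs.node.ch_eq (hs.mem 0) hx]; exact hN w s hs⟩
  have r2 : ∀ w w' x, g.Rec R w x → g.Rec R w' x → w' = w := fun w w' x h h' =>
    (r1 w x h).1.eq_of_fin (r1 w' x h').1 (r1 w x h).2.1 (r1 w' x h').2.1 (r1 w x h).2.2.1
      (r1 w' x h').2.2.1 (finite_of_encard_le_coe (r1 w x h).2.2.2)
      (finite_of_encard_le_coe (r1 w' x h').2.2.2)
  have r3 : ∀ w x, g.Rec R w x → ∀ v ∈ g.ch R w x, g.Rec R w v := by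
    rintro w x ⟨s, hs, hx⟩ v hv
    exact ⟨s, hs, hs.node.ch_trans (hs.mem 0) hx hv⟩
  have r4 : ∀ w s, g.Chain R w s → ∀ i, g.Rec R w (s i) := fun w s hs i =>
    ⟨_, hs.tail i, hs.node.mem_ch (hs.mem i)⟩
  have n1 : ∀ w x, g.NonMax R w x → ∀ v ∈ g.ch R w x, g.NonMax R w v := by
    rintro w x ⟨h1, h2⟩ v hv
    exact ⟨r3 w x h1 v hv, by rw [(r1 w x h1).1.ch_eq (r1 w x h1).2.2.1 hv]; exact h2⟩
  set Δ : Set V := {x | ∃ w, g.NonMax R w x} with hΔ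
  have n2 : ∀ w x, g.Rec R w x → x ∉ Δ → g.ch R w x ⊆ R \ Δ := by
    intro w x hx hx' v hv
    refine ⟨(r1 w x hx).1.sub hv.1, ?_⟩
    rintro ⟨w', h⟩
    obtain rfl := r2 w w' v (r3 w x hx v hv) h.1
    exact hx' ⟨w', n1 w' v h x ((r1 w' x hx).1.ch_symm (r1 w' x hx).2.2.1 hv)⟩
  have top : ∀ w x, g.Rec R w x → ∃ s, g.Chain R w s ∧ g.Le (g.ch R w x) (g.ch R w (s 0)) ∧
      ∀ i, s i ∉ Δ := by
    intro w x hx
    have hfin : {n | ∃ x', g.Rec R w x' ∧ g.Le (g.ch R w x) (g.ch R w x') ∧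
        (g.ch R w x').encard = n}.Finite :=
      (finite_le_nat (N w)).image (fun n : ℕ => (n : ℕ∞)) |>.subset (by
        rintro _ ⟨x', h1, -, rfl⟩
        obtain ⟨n, hn⟩ := ENat.ne_top_iff_exists.1
          (ne_top_of_le_ne_top (ENat.natCast_ne_top _) (r1 w x' h1).2.2.2)
        exact ⟨n, by have := (r1 w x' h1).2.2.2; rw [← hn] at this; exact_mod_cast this, hn⟩)
    obtain ⟨_, ⟨x', ⟨s, hs, h1⟩, h2, rfl⟩, h3⟩ :=
      Set.exists_max_image _ id hfin ⟨_, x, hx, Le.refl _, rfl⟩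
    rw [hs.node.ch_eq (hs.mem 0) h1] at h2 h3
    refine ⟨s, hs, h2, fun i ⟨w', h4⟩ => ?_⟩
    obtain rfl := r2 w w' _ (r4 w s hs i) h4.1
    obtain ⟨x'', k1, k2, k3⟩ := h4.2
    have k4 := hs.le' (Nat.zero_le i)
    exact absurd (k4.encard.trans_lt k3) (not_lt.2 (h3 _ ⟨x'', k1, h2.trans (k4.trans k2), rfl⟩))
  have fo : ∀ F : Set V, F.Finite → (∀ u ∈ F, u ∈ R ∧ u ∉ Δ) →
      ∃ φ, g.Emb R (R \ Δ) φ ∧ ∀ u ∈ F, φ u = u := by
    intro F0 hF0 hF0'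
    refine forth (fun t _ ht0 F hFf hFQ => ?_) hF0 hF0'
    obtain ⟨w, ht⟩ := ht0
    obtain ⟨s, hs, h1, h2⟩ := top w t ht.1
    obtain ⟨γ, m, k1, k2, -, k4⟩ := hs.step hF (r1 w t ht.1).2.2.1 h1 (P := fun _ => True)
      (fun n => ⟨n, le_rfl, trivial⟩) hFf fun u hu h => (hFQ u hu).2 ⟨w, n1 w t ht u h⟩
    exact ⟨γ, k1, k2, (n2 w _ (r4 w s hs m) (h2 m) k4).2⟩
  set 𝒟 : Set (Set V) := {D | ∃ w x, g.NonMax R w x ∧ D = g.ch R w x} with h𝒟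
  have hbig : ∀ w : Set V, w.Infinite → ∀ D ∈ 𝒟, ¬ w ⊆ D := by
    rintro w hw _ ⟨w', x, hx, rfl⟩ h
    exact hw ((finite_of_encard_le_coe (r1 w' x hx.1).2.2.2).subset h)
  have emp : ∀ D ∈ 𝒟, (D ∩ (R \ Δ)).Subsingleton := by
    rintro _ ⟨w, x, hx, rfl⟩ v hv
    exact absurd ⟨w, n1 w x hx v hv.1⟩ hv.2.2
  have gen : ∀ w, (∃ x, g.Rec R w x) → ∃ a ∈ w ∩ (R \ Δ), ∃ b ∈ w ∩ (R \ Δ), g.cl R a b = w ∧
      ∃ e, g.Deg R w e := by
    rintro w ⟨x, hx⟩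
    obtain ⟨s, hs, -, h2⟩ := top w x hx
    exact ⟨s 0, ⟨hs.mem 0, hs.node.sub (hs.mem 0), h2 0⟩, s 1,
      ⟨hs.mem 1, hs.node.sub (hs.mem 1), h2 1⟩, hs.cl 0 1 (by omega), hs.deg hF⟩
  choose! ga hga gb hgb hgab ge hge using gen
  have hcut : g.Cut R (R \ Δ) 𝒟 := by
    refine ⟨sdiff_subset, fun v hv hv' => ?_, ?_⟩
    · obtain ⟨w, hw⟩ : v ∈ Δ := by_contra fun h => hv' ⟨hv, h⟩
      exact ⟨_, ⟨w, v, hw, rfl⟩, (r1 w v hw.1).1.mem_ch (r1 w v hw.1).2.2.1⟩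
    · rintro _ ⟨w, x, hx, rfl⟩
      exact ⟨w, ge w, x, (r1 w x hx.1).1, hge w ⟨x, hx.1⟩, (r1 w x hx.1).2.2.1, rfl,
        ind_of_subsingleton (emp _ ⟨w, x, hx, rfl⟩) _,
        ⟨_, hga w ⟨x, hx.1⟩, _, hgb w ⟨x, hx.1⟩, hgab w ⟨x, hx.1⟩⟩, hbig w (r1 w x hx.1).2.1⟩
  obtain ⟨φ, hφ, -⟩ := fo ∅ finite_empty fun u hu => absurd hu (notMem_empty u)
  have heqv : g.Eqv R (R \ Δ) := ⟨⟨φ, hφ⟩, le_of_sub sdiff_subset⟩
  have hc' : ¬ g.Cont (R \ Δ) := fun h => hc (h.of_eqv heqv)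
  refine ⟨R \ Δ, heqv, rev_of hF (stab_of_not_cont hF hc') (thin_of_not_cont hF hc')
    fun w' s hs => ?_, fun Q0 ψ hψ => ?_⟩
  · obtain ⟨w, hn, hb, rfl⟩ := hcut.node_of emp hs.node
    have hs' := hcut.chain_up hn hb hs fun i => by
      obtain ⟨ψ, p1, p2⟩ := fo {s i} (finite_singleton _) (by rintro u rfl; exact (hs.mem i).2)
      exact hS.le_trace hF (hn.str_ch (hs.mem i).1) sdiff_subset p1 (hn.mem_ch (hs.mem i).1)
        (p2 _ rfl)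
    rw [hcut.ch_trace hn hb (hs.mem 1), hcut.ch_trace hn hb (hs.mem 0),
      inter_eq_left.2 (n2 w _ (r4 w s hs' 1) (hs.mem 1).2.2),
      inter_eq_left.2 (n2 w _ (r4 w s hs' 0) (hs.mem 0).2.2)]
    exact ⟨finite_of_encard_le_coe (r1 w _ (r4 w s hs' 1)).2.2.2, not_lt.1 fun h =>
      (hs.mem 0).2.2 ⟨w, r4 w s hs' 0, _, r4 w s hs' 1, hs'.le 0, h⟩⟩
  choose! pw hpw using fun x (h : x ∈ Δ) => h
  have enum : ∀ x ∈ Δ, ∃ k ≤ N (pw x), ∃ en : ℕ → V, BijOn en (Iio k) (g.ch R (pw x) x) := by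
    intro x hx
    have h1 := (r1 _ x (hpw x hx).1).2.2.2
    obtain ⟨k, hk⟩ := ENat.ne_top_iff_exists.1 (ne_top_of_le_ne_top (ENat.natCast_ne_top _) h1)
    refine ⟨k, by rw [← hk] at h1; exact_mod_cast h1,
      (finite_lt_nat k).exists_bijOn_of_encard_eq ?_⟩
    rw [← hk]
    change (Iio k).encard = _
    rw [← Finset.coe_range, encard_coe_eq_coe_finsetCard, Finset.card_range]
  choose! kk hkk en hen using enum
  have : ∀ X : Set V, ∃ v, X.Nonempty → v ∈ X := fun X => by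
    by_cases hX : X.Nonempty
    exacts [⟨hX.some, fun _ => hX.some_mem⟩, ⟨Classical.arbitrary V, fun h => absurd h hX⟩]
  choose pick hpick using this
  have q1 : ∀ x ∈ Δ, g.Node R (pw x) := fun x hx => (r1 _ x (hpw x hx).1).1
  have q2 : ∀ x ∈ Δ, x ∈ pw x := fun x hx => (r1 _ x (hpw x hx).1).2.2.1
  have q3 : ∀ x ∈ Δ, ∀ v ∈ g.ch R (pw x) x, v ∈ Δ ∧ g.ch R (pw v) v = g.ch R (pw x) x := by
    intro x hx v hv
    have h1 := n1 _ x (hpw x hx) v hv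
    have h2 : v ∈ Δ := ⟨_, h1⟩
    exact ⟨h2, by rw [r2 _ _ v h1.1 (hpw v h2).1, (q1 x hx).ch_eq (q2 x hx) hv]⟩
  have q4 : ∀ x ∈ Δ, ∃ y, g.Rec R (pw x) y := fun x hx => ⟨x, (hpw x hx).1⟩
  have q5 : ∀ x ∈ Δ, ∀ t ∈ R \ Δ, ψ t ∈ g.cl Q0 (ψ (ga (pw x))) (ψ (gb (pw x))) ↔ t ∈ pw x := by
    intro x hx t ht
    rw [← hψ.cl_image (hga _ (q4 x hx)).2 (hgb _ (q4 x hx)).2, hcut.cl_trace (q1 x hx)
      (hbig _ (r1 _ x (hpw x hx).1).2.1) (hga _ (q4 x hx)) (hgb _ (q4 x hx)) (hgab _ (q4 x hx)),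
      hψ.mem_image inter_subset_right ht]
    exact ⟨fun h => h.1, fun h => ⟨h, ht⟩⟩
  set B : Set V := {b | b ∈ Δ ∧ pick (g.ch R (pw b) b) = b} with hB
  set lab : V → Lab V := fun b => (ψ (ga (pw b)), ψ (gb (pw b)), ge (pw b), kk b,
    (Finset.range (kk b) ×ˢ Finset.range (kk b)).filter
      fun p => g.c (en b p.1) (en b p.2) = true) with hlab
  have q6 : ∀ b ∈ B, ∀ b' ∈ B, ∀ v ∈ g.ch R (pw b) b, v ∈ g.ch R (pw b') b' → b = b' := by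
    intro b hb b' hb' v hv hv'
    rw [← hb.2, ← hb'.2, ← (q3 b hb.1 v hv).2, ← (q3 b' hb'.1 v hv').2]
  have old : ∀ b ∈ Δ, ∀ v ∈ g.ch R (pw b) b, ∀ t ∈ R \ Δ, g.c v t = g.kap Q0 (lab b) (ψ t) := by
    intro b hb v hv t ht
    unfold kap
    simp only [hlab]
    by_cases h : t ∈ pw b
    · rw [if_pos ((q5 b hb t ht).2 h)]
      exact (q1 b hb).deg_ch (hge _ (q4 b hb)) (q2 b hb) hv h fun h1 => ht.2 (q3 b hb t h1).1
    · rw [if_neg fun h1 => h ((q5 b hb t ht).1 h1), hψ.emb.c (hga _ (q4 b hb)).2 ht]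
      exact (q1 b hb).str.mod.eq hv.1 (hga _ (q4 b hb)).1 ht.1 h
  refine ⟨B, lab, en, ⟨hψ, sdiff_subset, fun b hb i hi => ?_, fun v hv hv' => ?_,
    fun b hb i hi b' hb' j hj h => ?_, fun b hb i hi j hj => ?_, fun b hb i hi b' hb' j hj h => ?_,
    fun b hb i hi => old b hb.1 _ ((hen b hb.1).1 hi)⟩, ?_⟩
  · have := (hen b hb.1).1 hi
    exact ⟨(q1 b hb.1).sub this.1, fun h => h.2 (q3 b hb.1 _ this).1⟩
  · have h1 : v ∈ Δ := by_contra fun h => hv' ⟨hv, h⟩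
    have h2 := hpick _ ⟨v, (q1 v h1).mem_ch (q2 v h1)⟩
    obtain ⟨h3, h4⟩ := q3 v h1 _ h2
    obtain ⟨i, hi, h5⟩ := (hen _ h3).2.2 (h4.symm.subset ((q1 v h1).mem_ch (q2 v h1)))
    exact ⟨_, ⟨h3, by rw [h4]⟩, i, hi, h5⟩
  · obtain rfl := q6 b hb b' hb' _ ((hen b hb.1).1 hi) (h ▸ (hen b' hb'.1).1 hj)
    exact ⟨rfl, (hen b hb.1).2.1 hi hj h⟩
  · simp only [hlab] at hi hj ⊢
    cases hcc : g.c (en b i) (en b j) <;> simp [hi, hj, hcc]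
  · have m1 := (hen b hb.1).1 hi
    have m2 := (hen b' hb'.1).1 hj
    have a1 := hga _ (q4 b hb.1)
    have a2 := hgb _ (q4 b hb.1)
    have a3 := hga _ (q4 b' hb'.1)
    unfold cross
    split_ifs with h1
    · have h2 : pw b ⊆ pw b' := by
        rw [← hgab _ (q4 b hb.1)]
        exact (q1 b' hb'.1).str.cl_sub ((q5 b' hb'.1 _ a1.2).1 h1.1) ((q5 b' hb'.1 _ a2.2).1 h1.2)
      rw [g.symm]
      exact (q1 b' hb'.1).deg_ch (hge _ (q4 b' hb'.1)) (q2 b' hb'.1) m2 (h2 m1.1)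
        fun h3 => h (q6 b hb b' hb' _ m1 h3)
    · rw [← old b hb.1 _ m1 _ a3.2]
      by_cases h2 : en b i ∈ pw b'
      · have h3 : pw b' ⊆ pw b := ((q1 b hb.1).str.cmp (q1 b' hb'.1).str.mod m1.1 h2).resolve_left
          fun h3 => h1 ⟨(q5 b' hb'.1 _ a1.2).2 (h3 a1.1), (q5 b' hb'.1 _ a2.2).2 (h3 a2.1)⟩
        rw [(q1 b hb.1).deg_ch (hge _ (q4 b hb.1)) (q2 b hb.1) m1 (h3 m2.1)
          fun h4 => h (q6 b hb b' hb' _ h4 m2), (q1 b hb.1).deg_ch (hge _ (q4 b hb.1)) (q2 b hb.1)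
          m1 (h3 a3.1) fun h4 => a3.2.2 (q3 b hb.1 _ h4).1]
      · exact (q1 b' hb'.1).str.mod.eq' m2.1 a3.1 ((q1 b hb.1).sub m1.1) h2
  · refine ((soft_finite hF hc).biUnion (t := fun w => (fun p : ℕ × Finset (ℕ × ℕ) =>
      ((ψ (ga w), ψ (gb w), ge w, p.1, p.2) : Lab V)) '' (Iic (N w) ×ˢ
        ((Finset.range (N w) ×ˢ Finset.range (N w)).powerset : Set (Finset (ℕ × ℕ)))))
      fun w _ => ((finite_le_nat _).prod (Finset.finite_toSet _)).image _).subset ?_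
    rintro _ ⟨b, hb, rfl⟩
    refine mem_biUnion (x := pw b) ?_ ⟨(kk b, _), ⟨hkk b hb.1, ?_⟩, rfl⟩
    · obtain ⟨-, x', ⟨s, hs, h1⟩, -, h2⟩ := hpw b hb.1
      refine ⟨s, hs, ?_⟩
      rw [← hs.node.ch_eq (hs.mem 0) h1, ← one_lt_encard_iff_nontrivial]
      exact (one_le_encard_iff_nonempty.2 ⟨b, (q1 b hb.1).mem_ch (q2 b hb.1)⟩).trans_lt h2
    · rw [Finset.mem_coe, Finset.mem_powerset]
      exact (Finset.filter_subset _ _).trans (Finset.product_subset_product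
        (Finset.range_mono (hkk b hb.1)) (Finset.range_mono (hkk b hb.1)))

theorem countable_of_not_cont [Countable V] [Nonempty V] (hF : g.FinP) (hc : ¬ g.Cont Q) :
    ∃ d : Set V → (Lab V →₀ ℕ∞), ∀ R R', g.Eqv Q R → g.Eqv Q R' → d R = d R' → g.Iso R R' := by
  classical
  obtain ⟨Q0, h1, h2, -⟩ := normal hF hc
  have : ∀ R, g.Eqv Q R → ∃ d : Lab V →₀ ℕ∞, ∃ A B ψ lab en, g.Ext Q0 R A B ψ lab en ∧
      ∀ l, d l = {b | b ∈ B ∧ lab b = l}.encard := by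
    intro R hR
    obtain ⟨A, k1, k2, k3⟩ := normal hF fun h => hc (h.of_eqv hR)
    obtain ⟨ψ, hψ⟩ := iso_of_rev k2 h2 (k1.symm.trans (hR.symm.trans h1))
    obtain ⟨B, lab, en, k4, k5⟩ := k3 Q0 ψ hψ
    refine ⟨Finsupp.ofSupportFinite (fun l => {b | b ∈ B ∧ lab b = l}.encard) (k5.subset ?_),
      A, B, ψ, lab, en, k4, fun l => rfl⟩
    intro l hl
    obtain ⟨b, hb, h⟩ := encard_ne_zero.1 hl
    exact ⟨b, hb, h⟩
  choose! d hd using this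
  refine ⟨d, fun R R' hR hR' h => ?_⟩
  obtain ⟨A, B, ψ, lab, en, k1, k2⟩ := hd R hR
  obtain ⟨A', B', ψ', lab', en', k3, k4⟩ := hd R' hR'
  exact k1.iso_of k3 fun l => by rw [← k2, ← k4, h]

end Gr

end Pool.Agent.MP_2a6d4e_co
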