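import Pool.Agent.MP_2a6d4e_co.Climb

/-! Orbits of self-embeddings of stable graphs. -/

namespace Pool.Agent.MP_2a6d4e_co

open Set Function

namespace Gr

variable {V : Type} {g : Gr V}
variable {Q Q' R F A B X Y Z w : Set V} {a b x y z t u v p : V} {e : Bool} {f f' h : V → V}
  {s : ℕ → V}

variable (g) in
/-- The intersection of the nodes joining `z` to its iterates. -/
def Fib (Q : Set V) (h : V → V) (z : V) : Set V :=
  {v | v ∈ Q ∧ ∀ l, v ∈ g.cl Q z (h^[l + 1] z)}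

theorem str_fib (Q : Set V) (h : V → V) (z : V) : g.Str Q (g.Fib Q h z) := by
  have := str_inter (g := g) (Q := Q) (F := range fun l => g.cl Q z (h^[l + 1] z)) (by
    rintro _ ⟨l, rfl⟩; exact str_cl _ _ _)
  convert this using 1
  ext v
  simp [Fib]

theorem mem_fib (hz : z ∈ Q) (h : V → V) : z ∈ g.Fib Q h z := ⟨hz, fun _ => left_mem_cl hz _⟩

theorem iter_comm (h : V → V) (m n : ℕ) (z : V) : h^[m] (h^[n] z) = h^[n] (h^[m] z) := by
  rw [← iterate_add_apply, ← iterate_add_apply, add_comm]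

section

variable (hF : g.FinP) (hS : g.Stab Q) (hh : g.Emb Q Q h)
include hF hS hh

theorem Stab.conj_iter (hz : z ∈ Q) (l n : ℕ) (hv : v ∈ g.cl Q z (h^[l + 1] z)) :
    h^[n] v ∈ g.cl Q (h^[n] z) (h^[l + 1] (h^[n] z)) := by
  induction n with
  | zero => exact hv
  | succ n ih =>
    have := hS.conj hF hh (hh.iter l) ((hh.iter n).maps hz) ih
    simp only [iterate_succ_apply'] at this ⊢
    exact this

theorem Stab.period (hz : z ∈ Q) (n : ℕ) :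
    g.cl Q (h^[n] z) (h (h^[n] z)) = g.cl Q z (h z) := by
  induction n with
  | zero => rfl
  | succ n ih => rw [iterate_succ_apply', hS h hh _ ((hh.iter n).maps hz), ih]

theorem Stab.s4_iter (hX : g.Str Q X) (hx : x ∈ X) (hhx : h x ∈ X) (n : ℕ) (hv : v ∈ X) :
    h^[n] v ∈ X := by
  induction n with
  | zero => exact hv
  | succ n ih => rw [iterate_succ_apply']; exact hS.s4 hF hh hX hx hhx ih

theorem Stab.reflect (hX : g.Str Q X) (hx : x ∈ X) (hhx : h x ∈ X) (hv : v ∈ Q)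
    (hhv : h v ∈ X) : v ∈ X :=
  hS.s2 hh hX (fun _ hu => hS.s4 hF hh hX hx hhx hu) hv hhv

theorem Stab.conj_back (hz : z ∈ Q) (l n : ℕ) (hv : v ∈ Q)
    (h1 : h^[n] v ∈ g.cl Q (h^[n] z) (h^[l + 1] (h^[n] z))) : v ∈ g.cl Q z (h^[l + 1] z) := by
  have h2 := hS.conj_iter hF hh ((hh.iter n).maps hz) l (l * n) h1
  have e1 : ∀ v, h^[l * n] (h^[n] v) = (h^[l + 1])^[n] v := fun v => by
    rw [← iterate_add_apply, ← iterate_mul, Nat.succ_mul]
  rw [e1, e1, hS.period hF (hh.iter (l + 1)) hz] at h2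
  have m := (hh.iter (l + 1)).maps hz
  exact hS.reflect hF ((hh.iter (l + 1)).iter n) (str_cl _ _ _) (left_mem_cl hz _)
    (hS.s4_iter hF (hh.iter (l + 1)) (str_cl _ _ _) (left_mem_cl hz _) (right_mem_cl _ m) n
      (left_mem_cl hz _)) hv h2

theorem Stab.fib_iff (hz : z ∈ Q) (n : ℕ) (hv : v ∈ Q) :
    h^[n] v ∈ g.Fib Q h (h^[n] z) ↔ v ∈ g.Fib Q h z :=
  ⟨fun h1 => ⟨hv, fun l => hS.conj_back hF hh hz l n hv (h1.2 l)⟩,
    fun h1 => ⟨(hh.iter n).maps hv, fun l => hS.conj_iter hF hh hz l n (h1.2 l)⟩⟩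

theorem Stab.fib_pow (hz : z ∈ Q) (r : ℕ) : g.Fib Q h^[r + 1] z = g.Fib Q h z := by
  ext v
  refine and_congr_right fun _ => ⟨fun h1 l => ?_, fun h1 l => ?_⟩
  · refine (str_cl Q z _).cl_sub (left_mem_cl hz _) ?_ (h1 l)
    rw [← iterate_mul, mul_comm, iterate_mul]
    exact hS.s4_iter hF (hh.iter (l + 1)) (str_cl _ _ _) (left_mem_cl hz _)
      (right_mem_cl _ ((hh.iter _).maps hz)) _ (left_mem_cl hz _)
  · rw [← iterate_mul, Nat.succ_mul]
    exact h1 (r * (l + 1) + l)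

/-- The reverse map. -/
theorem Stab.theta (hy : y ∈ Q) :
    ∃ Θ, g.Emb ((Q \ g.Fib Q h (h y)) ∪ {h y}) ((Q \ g.Fib Q h y) ∪ {y}) Θ ∧ Θ (h y) = y ∧
      ∀ u, u ∉ g.Fib Q h (h y) → h u = u → Θ u = u := by
  classical
  have hz := hh.maps hy
  set z := h y with hzy
  have : ∀ X : Set V, ∃ m, (∃ k, h^[k + 1] z ∈ g.ch Q X z) → h^[m + 1] z ∈ g.ch Q X z := by
    intro X
    by_cases h1 : ∃ k, h^[k + 1] z ∈ g.ch Q X z
    · obtain ⟨k, hk⟩ := h1
      exact ⟨k, fun _ => hk⟩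
    · exact ⟨0, fun h2 => absurd h2 h1⟩
  choose m hm using this
  have hne : ∀ v, v ∉ g.Fib Q h z → z ≠ v := fun v hv h1 => hv (h1 ▸ mem_fib hz h)
  have hn : ∀ v ∈ Q, v ∉ g.Fib Q h z → g.Node Q (g.cl Q z v) := fun v hv hv' =>
    node_cl hz hv (hne v hv')
  have k1 : ∀ v ∈ Q, v ∉ g.Fib Q h z → h^[m (g.cl Q z v) + 1] z ∈ g.ch Q (g.cl Q z v) z := by
    intro v hv hv'
    apply hm
    obtain ⟨l, hl⟩ : ∃ l, v ∉ g.cl Q z (h^[l + 1] z) := by
      by_contra hcon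
      push Not at hcon
      exact hv' ⟨hv, hcon⟩
    refine ⟨l, (hn v hv hv').sub_ch (str_cl Q z (h^[l + 1] z)) ?_
      (fun h1 => hl (h1 ▸ right_mem_cl z hv)) (left_mem_cl hz _)
      (right_mem_cl _ ((hh.iter _).maps hz))⟩
    exact (str_cl Q z v).sup_of (str_cl _ _ _).mod (left_mem_cl hz _) (left_mem_cl hz _)
      (right_mem_cl z hv) hl
  have k2 : ∀ v ∈ Q, v ∉ g.Fib Q h z → ∀ t ∈ Q, h t ∈ g.ch Q (g.cl Q z v) z →
      h^[m (g.cl Q z v)] v ≠ t ∧ g.c (h^[m (g.cl Q z v)] v) t = g.c v z := by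
    intro v hv hv' t ht ht'
    have hC := (hn v hv hv').str_ch (left_mem_cl hz v)
    have k3 : h (h^[m (g.cl Q z v)] v) ∉ g.ch Q (g.cl Q z v) z := by
      rw [← iterate_succ_apply' h]
      exact fun h1 => (hS.reflect hF (hh.iter _) hC ((hn v hv hv').mem_ch (left_mem_cl hz v))
        (k1 v hv hv') hv h1).2 rfl
    refine ⟨fun h1 => k3 (h1 ▸ ht'), ?_⟩
    rw [← (hh.iter (m (g.cl Q z v))).c hv hz]
    exact (hh.mod_pre hC.mod).eq' ⟨ht, ht'⟩ ⟨(hh.iter _).maps hz, by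
      rw [← iterate_succ_apply' h]; exact k1 v hv hv'⟩ ((hh.iter _).maps hv) fun h1 => k3 h1.2
  have k4 : ∀ v ∈ Q, v ∉ g.Fib Q h z → ∀ v' ∈ Q, v' ∉ g.Fib Q h z → g.cl Q z v' ⊆ g.cl Q z v →
      g.cl Q z v' ≠ g.cl Q z v → h^[m (g.cl Q z v)] v ≠ h^[m (g.cl Q z v')] v' ∧
      g.c (h^[m (g.cl Q z v)] v) (h^[m (g.cl Q z v')] v') = g.c v v' := by
    intro v hv hv1 v' hv' hv2 hsub hne'
    have hC := (hn v hv hv1).str_ch (left_mem_cl hz v)
    have hsub' := (hn v hv hv1).sub_ch (str_cl _ _ _) hsub hne' (left_mem_cl hz v')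
    rw [hC.mod.eq' (hsub' (right_mem_cl z hv')) (hsub' (left_mem_cl hz v')) hv (fun h1 => h1.2 rfl)]
    refine k2 v hv hv1 _ ((hh.iter _).maps hv') ?_
    rw [← iterate_succ_apply' h]
    exact hS.s4 hF (hh.iter _) hC (hsub' (left_mem_cl hz v')) (hsub' (k1 v' hv' hv2).1)
      (hsub' (right_mem_cl z hv'))
  set Θ : V → V := fun v => if v = z then y else h^[m (g.cl Q z v)] v with hΘ
  have t1 : Θ z = y := by simp [hΘ]
  have t2 : ∀ v, v ∉ g.Fib Q h z → Θ v = h^[m (g.cl Q z v)] v := fun v hv => by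
    simp [hΘ, (hne v hv).symm]
  have t3 : ∀ v ∈ Q, v ∉ g.Fib Q h z → Θ v ≠ y ∧ g.c (Θ v) y = g.c v z := fun v hv hv' => by
    rw [t2 v hv']
    exact k2 v hv hv' y hy ((hn v hv hv').mem_ch (left_mem_cl hz v))
  refine ⟨Θ, emb_of_ne ?_ ?_, t1, fun u hu hu' => by rw [t2 u hu, iterate_fixed hu']⟩
  · rintro v (hv | hv)
    · rw [t2 v hv.2]
      refine Or.inl ⟨(hh.iter _).maps hv.1, fun h1 => ?_⟩
      have h2 := (hS.fib_iff hF hh hy 1 ((hh.iter _).maps hv.1)).2 h1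
      exact (k2 v hv.1 hv.2 _ ((hh.iter _).maps hv.1) (((hn v hv.1 hv.2).str_ch
        (left_mem_cl hz v)).cl_sub ((hn v hv.1 hv.2).mem_ch (left_mem_cl hz v)) (k1 v hv.1 hv.2)
        (h2.2 _))).1 rfl
    · rw [mem_singleton_iff.1 hv, t1]; exact Or.inr rfl
  · rintro v (hv | hv) v' (hv' | hv') hvv
    · rw [t2 v hv.2, t2 v' hv'.2]
      by_cases h1 : g.cl Q z v' = g.cl Q z v
      · rw [h1]
        exact ⟨(hh.iter _).ne hv.1 hv'.1 hvv, (hh.iter _).c hv.1 hv'.1⟩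
      · rcases (str_cl Q z v').cmp (str_cl Q z v).mod (left_mem_cl hz _) (left_mem_cl hz _) with
          h2 | h2
        · exact k4 v hv.1 hv.2 v' hv'.1 hv'.2 h2 h1
        · have := k4 v' hv'.1 hv'.2 v hv.1 hv.2 h2 (Ne.symm h1)
          rw [g.symm, g.symm v]
          exact ⟨this.1.symm, this.2⟩
    · rw [mem_singleton_iff.1 hv', t1]; exact t3 v hv.1 hv.2
    · rw [mem_singleton_iff.1 hv, t1, g.symm, g.symm z]
      exact ⟨(t3 v' hv'.1 hv'.2).1.symm, (t3 v' hv'.1 hv'.2).2⟩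
    · exact absurd ((mem_singleton_iff.1 hv).trans (mem_singleton_iff.1 hv').symm) hvv

end

variable (g) in
/-- An increasing sequence of different children of a node. -/
structure Chain (Q w : Set V) (s : ℕ → V) : Prop where
  node : g.Node Q w
  mem : ∀ i, s i ∈ w
  cl : ∀ i j, i ≠ j → g.cl Q (s i) (s j) = w
  le : ∀ i, g.Le (g.ch Q w (s i)) (g.ch Q w (s (i + 1)))

theorem Chain.eq_of (hc : g.Chain Q w s) {i j : ℕ} (hi : v ∈ g.ch Q w (s i))
    (hj : v ∈ g.ch Q w (s j)) : i = j := by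
  by_contra hne
  exact (hc.node.ch_trans (hc.mem i) hi (hc.node.ch_symm (hc.mem j) hj)).2 (hc.cl i j hne)

theorem Chain.deg (hF : g.FinP) (hc : g.Chain Q w s) : ∃ e, g.Deg Q w e := by
  refine (deg_or Q w).resolve_left fun hp => ?_
  obtain ⟨T, hT, -, h1, -⟩ := hc.node.prime_fin hF hp
  choose t ht1 ht2 using fun i => h1 _ (hc.mem i)
  refine infinite_range_of_injective (f := t) (fun i j hij => hc.eq_of (ht2 i) (hij ▸ ht2 j))
    (hT.subset (range_subset_iff.2 ht1))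

theorem Chain.le' (hc : g.Chain Q w s) {i j : ℕ} (hij : i ≤ j) :
    g.Le (g.ch Q w (s i)) (g.ch Q w (s j)) := by
  induction j, hij using Nat.le_induction with
  | base => exact Le.refl _
  | succ j _ ih => exact ih.trans (hc.le j)

theorem Chain.comp (hc : g.Chain Q w s) {σ : ℕ → ℕ} (hσ : StrictMono σ) :
    g.Chain Q w (fun i => s (σ i)) :=
  ⟨hc.node, fun _ => hc.mem _, fun _ _ h => hc.cl _ _ (hσ.injective.ne h),
    fun i => hc.le' (hσ.monotone (Nat.le_succ i))⟩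

theorem Chain.tail (hc : g.Chain Q w s) (m : ℕ) : g.Chain Q w (fun i => s (m + i)) :=
  hc.comp fun _ _ h => Nat.add_lt_add_left h m

theorem Chain.cons (hc : g.Chain Q w s) (ht : t ∈ w) (h1 : ∀ i, t ∉ g.ch Q w (s i))
    (hle : g.Le (g.ch Q w t) (g.ch Q w (s 0))) :
    g.Chain Q w (fun i => Nat.casesOn i t s) := by
  refine ⟨hc.node, fun i => ?_, fun i j hij => ?_, fun i => ?_⟩
  · cases i
    exacts [ht, hc.mem _]
  · rcases i with _ | i <;> rcases j with _ | j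
    · exact absurd rfl hij
    · rw [cl_comm]; exact (not_mem_ch ht).1 (h1 j)
    · exact (not_mem_ch ht).1 (h1 i)
    · exact hc.cl i j fun h => hij (by rw [h])
  · cases i
    exacts [hle, hc.le _]

theorem Chain.shift (hF : g.FinP) (hc : g.Chain Q w s) : ∃ γ, g.Emb Q Q γ ∧
    (∀ v ∈ g.ch Q w (s 0), γ v ∈ g.ch Q w (s 1)) ∧ ∀ v, (∀ i, v ∉ g.ch Q w (s i)) → γ v = v := by
  classical
  obtain ⟨e, hd⟩ := hc.deg hF
  choose φ hφ using hc.le
  set γ : V → V := fun v => if h : ∃ i, v ∈ g.ch Q w (s i) then φ h.choose v else v with hγ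
  have h1 : ∀ i, ∀ v ∈ g.ch Q w (s i), γ v = φ i v := by
    intro i v hv
    have : ∃ i, v ∈ g.ch Q w (s i) := ⟨i, hv⟩
    simp only [hγ, this, dif_pos]
    rw [hc.eq_of this.choose_spec hv]
  have h2 : ∀ v, (¬ ∃ i, v ∈ g.ch Q w (s i)) → γ v = v := fun v hv => by
    simp only [hγ, hv, dif_neg, not_false_eq_true]
  have hn := hc.node
  refine ⟨γ, hn.rearrange hd (R := {v | ∃ i, v ∈ g.ch Q w (s i)}) (fun v ⟨_, hv⟩ => hv.1)
    (fun v ⟨i, hv⟩ u hu => ⟨i, hn.ch_trans (hc.mem i) hv hu⟩) h2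
    (fun v ⟨i, hv⟩ => ⟨i + 1, by rw [h1 i v hv]; exact (hφ i).maps hv⟩)
    (fun v ⟨i, hv⟩ u hu hne => ?_) (fun v ⟨i, hv⟩ u ⟨j, hu⟩ hcl => ?_),
    fun v hv => by rw [h1 0 v hv]; exact (hφ 0).maps hv, fun v hv => h2 v fun ⟨i, hi⟩ => hv i hi⟩
  · have hu' := hn.ch_trans (hc.mem i) hv hu
    rw [h1 i v hv, h1 i u hu']
    exact ⟨(hφ i).ne hv hu' hne, (hφ i).c hv hu'⟩
  · rw [h1 i v hv, h1 j u hu]
    refine hn.cl_of_ch (hc.mem _) (hc.mem _) (hc.cl (i + 1) (j + 1) fun h => ?_) ((hφ i).maps hv)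
      ((hφ j).maps hu)
    obtain rfl : i = j := by omega
    exact (hn.ch_trans hv.1 (hn.ch_symm (hc.mem i) hv) hu).2 hcl

theorem Chain.avoid (hc : g.Chain Q w s) (hF : F.Finite) :
    ∃ M, ∀ i, M ≤ i → ∀ u ∈ F, u ∉ g.ch Q w (s i) := by
  have : (⋃ u ∈ F, {i | u ∈ g.ch Q w (s i)}).Finite :=
    hF.biUnion fun u _ => Subsingleton.finite fun i hi j hj => hc.eq_of hi hj
  obtain ⟨M, hM⟩ := this.bddAbove
  refine ⟨M + 1, fun i hi u hu h => ?_⟩
  have := hM (mem_biUnion hu h)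
  omega

theorem Chain.step (hF : g.FinP) (hc : g.Chain Q w s) (ht : t ∈ w)
    (hle : g.Le (g.ch Q w t) (g.ch Q w (s 0))) {P : ℕ → Prop} (hP : ∀ n, ∃ m, n ≤ m ∧ P m)
    (hfin : F.Finite) (hFt : ∀ u ∈ F, u ∉ g.ch Q w t) :
    ∃ γ m, g.Emb Q Q γ ∧ (∀ u ∈ F, γ u = u) ∧ P m ∧ γ t ∈ g.ch Q w (s m) := by
  obtain ⟨M, hM⟩ := hc.avoid (hfin.insert t)
  obtain ⟨m, hm, hPm⟩ := hP M
  obtain ⟨γ, h1, h2, h3⟩ := ((hc.tail m).cons ht
    (fun i => hM _ (by omega) t (mem_insert _ _)) (hle.trans (hc.le' (Nat.zero_le _)))).shift hF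
  refine ⟨γ, m, h1, fun u hu => h3 u fun i => ?_, hPm, h2 t (hc.node.mem_ch ht)⟩
  cases i
  exacts [hFt u hu, hM _ (by omega) u (mem_insert_of_mem _ hu)]

theorem Node.swap (hn : g.Node Q w) (hd : g.Deg Q w e) (ha : a ∈ w) (hb : b ∈ w)
    (hab : g.cl Q a b = w) (hf : g.IsoMap (g.ch Q w a) (g.ch Q w b) f) :
    ∃ γ, g.Emb Q Q γ ∧ (∀ v ∈ g.ch Q w a, γ (f v) = v) ∧
      ∀ v, v ∉ g.ch Q w a → v ∉ g.ch Q w b → γ v = v := by
  classical
  obtain ⟨f', hf', k1, -⟩ := hf.inv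
  have hdis : ∀ v ∈ g.ch Q w b, v ∉ g.ch Q w a := fun v h1 h2 =>
    (hn.ch_trans ha h2 (hn.ch_symm hb h1)).2 hab
  set γ : V → V := fun v => if v ∈ g.ch Q w a then f v else if v ∈ g.ch Q w b then f' v else v
    with hγ
  have h1 : ∀ v ∈ g.ch Q w a, γ v = f v := fun v hv => by simp [hγ, hv]
  have h2 : ∀ v ∈ g.ch Q w b, γ v = f' v := fun v hv => by simp [hγ, hv, hdis v hv]
  have h3 : ∀ v, v ∉ g.ch Q w a → v ∉ g.ch Q w b → γ v = v := fun v hv hv' => by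
    simp [hγ, hv, hv']
  refine ⟨γ, hn.rearrange hd (R := g.ch Q w a ∪ g.ch Q w b)
    (union_subset (ch_sub _ _ _) (ch_sub _ _ _)) ?_
    (fun v hv => h3 v (fun h => hv (Or.inl h)) fun h => hv (Or.inr h)) ?_ ?_ ?_,
    fun v hv => by rw [h2 _ (hf.emb.maps hv), k1 v hv], h3⟩
  · rintro v (hv | hv) u hu
    exacts [Or.inl (hn.ch_trans ha hv hu), Or.inr (hn.ch_trans hb hv hu)]
  · rintro v (hv | hv)
    · rw [h1 v hv]; exact Or.inr (hf.emb.maps hv)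
    · rw [h2 v hv]; exact Or.inl (hf'.emb.maps hv)
  · rintro v (hv | hv) u hu hne
    · have hu' := hn.ch_trans ha hv hu
      rw [h1 v hv, h1 u hu']
      exact ⟨hf.emb.ne hv hu' hne, hf.emb.c hv hu'⟩
    · have hu' := hn.ch_trans hb hv hu
      rw [h2 v hv, h2 u hu']
      exact ⟨hf'.emb.ne hv hu' hne, hf'.emb.c hv hu'⟩
  · rintro v (hv | hv) u (hu | hu) hcl
    · exact absurd hcl (hn.ch_trans hv.1 (hn.ch_symm ha hv) hu).2
    · rw [h1 v hv, h2 u hu]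
      exact hn.cl_of_ch hb ha (by rw [cl_comm]; exact hab) (hf.emb.maps hv) (hf'.emb.maps hu)
    · rw [h2 v hv, h1 u hu]
      exact hn.cl_of_ch ha hb hab (hf'.emb.maps hv) (hf.emb.maps hu)
    · exact absurd hcl (hn.ch_trans hv.1 (hn.ch_symm hb hv) hu).2

variable (g) in
/-- No wandering fibre has two points. -/
def Thin (Q : Set V) : Prop := ∀ h z, g.Emb Q Q h → z ∈ Q → (∀ k, h^[k + 1] z ∉ g.Fib Q h z) →
  (g.Fib Q h z).Subsingleton

theorem rev_of (hF : g.FinP) (hS : g.Stab Q) (hβ : g.Thin Q)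
    (hR : ∀ w s, g.Chain Q w s → (g.ch Q w (s 1)).Finite ∧
      (g.ch Q w (s 1)).encard ≤ (g.ch Q w (s 0)).encard) : g.Rev Q := by
  intro h hh y hy
  have hz := hh.maps hy
  by_cases h1 : (g.Fib Q h (h y)).Subsingleton
  · obtain ⟨Θ, t1, t2, t3⟩ := hS.theta hF hh hy
    refine ⟨Θ, t1.mono (fun v hv => ?_) fun v hv => ?_, t2, fun u hu hu' => ?_⟩
    · by_cases h2 : v ∈ g.Fib Q h (h y)
      · exact Or.inr (h1 h2 (mem_fib hz h))
      · exact Or.inl ⟨hv, h2⟩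
    · have : v ∈ (Q \ g.Fib Q h (h y)) ∪ {h y} := by
        by_cases h2 : v ∈ g.Fib Q h (h y)
        · exact Or.inr (h1 h2 (mem_fib hz h))
        · exact Or.inl ⟨hv, h2⟩
      rcases t1.maps this with h3 | h3
      · exact h3.1
      · rw [mem_singleton_iff.1 h3]; exact hy
    · by_cases h2 : u ∈ g.Fib Q h (h y)
      · have h3 : u = h y := h1 h2 (mem_fib hz h)
        have h4 : u = y := hh.inj hu hy (hu'.trans h3)
        rw [h3, t2, ← h3, h4]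
      · exact t3 u h2 hu'
  obtain ⟨k, hk⟩ : ∃ k, h^[k + 1] (h y) ∈ g.Fib Q h (h y) := by
    by_contra hcon
    push Not at hcon
    exact h1 (hβ h _ hh hz hcon)
  have hH := hh.iter (k + 1)
  have m1 := hH.maps hy
  have hk' : h^[k + 1] y ∈ g.Fib Q h y := (hS.fib_iff hF hh hy 1 m1).1 (by
    rw [iter_comm]; exact hk)
  have hne : y ≠ h^[k + 1] y := fun h2 => h1 fun v hv v' hv' => by
    have e1 : h^[k + 1] (h y) = h y := by
      rw [← iterate_succ_apply, iterate_succ_apply', ← h2]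
    have k1 := hv.2 k
    have k2 := hv'.2 k
    rw [e1, cl_self hz] at k1 k2
    exact k1.trans k2.symm
  set w := g.cl Q y (h^[k + 1] y) with hw
  have hn : g.Node Q w := node_cl hy m1 hne
  have a0 : ∀ i, (h^[k + 1])^[i] y ∈ w := fun i =>
    hS.s4_iter hF hH hn.str (left_mem_cl hy _) (right_mem_cl _ m1) i (left_mem_cl hy _)
  have hmap : ∀ i, ∀ v ∈ g.ch Q w ((h^[k + 1])^[i] y),
      h^[k + 1] v ∈ g.ch Q w ((h^[k + 1])^[i + 1] y) := fun i v hv => by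
    rw [iterate_succ_apply']
    exact hS.s1_ch hF hH hy hne (a0 i) hv
  have hlt : ∀ i j, i < j → g.cl Q ((h^[k + 1])^[i] y) ((h^[k + 1])^[j] y) = w := by
    intro i j hij
    obtain ⟨d, rfl⟩ := Nat.exists_eq_add_of_lt hij
    refine Subset.antisymm (hn.str.cl_sub (a0 _) (a0 _)) ?_
    rw [← hS.fib_pow hF hh hy k] at hk'
    have k1 := hS.conj_iter hF hH hy d i (hk'.2 d)
    rw [← iterate_add_apply _ (d + 1), show d + 1 + i = i + d + 1 by omega] at k1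
    rw [hw, ← hS.period hF hH hy i]
    refine (str_cl _ _ _).cl_sub (left_mem_cl ((hH.iter i).maps hy) _) ?_
    rw [← iterate_succ_apply' (h^[k + 1])]
    exact k1
  have hc : g.Chain Q w fun i => (h^[k + 1])^[i] y :=
    ⟨hn, a0, fun i j hij => (lt_or_gt_of_ne hij).elim (hlt i j) fun h2 => by
      rw [cl_comm]; exact hlt j i h2,
      fun i => ⟨_, hH.mono ((ch_sub _ _ _).trans hn.sub) (hmap i)⟩⟩
  obtain ⟨e, hd⟩ := hc.deg hF
  obtain ⟨γ, g1, g2, g3⟩ := hn.swap hd (a0 0) (a0 1) (hlt 0 1 Nat.zero_lt_one)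
    ((hH.mono ((ch_sub _ _ _).trans hn.sub) (hmap 0)).surj_of_card (hR w _ hc).1 (hR w _ hc).2)
  refine ⟨γ ∘ h^[k], g1.comp (hh.iter k), g2 y (hn.mem_ch (a0 0)), fun u _ hu => ?_⟩
  have key : ∀ i, u ∉ g.ch Q w ((h^[k + 1])^[i] y) := fun i h2 => by
    have := hmap i u h2
    rw [iterate_fixed hu] at this
    exact absurd (hc.eq_of h2 this) (by omega)
  simp only [comp_apply]
  rw [iterate_fixed hu]
  exact g3 u (key 0) (key 1)

end Gr

end Pool.Agent.MP_2a6d4e_co
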