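import Pool.Agent.MP_2a6d4e_co.Sizes

/-! Prescribing the number of singleton children of all soft nodes. -/

namespace Pool.Agent.MP_2a6d4e_co

open Set Function

namespace Gr

variable {V : Type} {g : Gr V}
variable {Q R A B C D X Y Z w w' : Set V} {a b x y z t u v p : V} {e : Bool} {s s' : ℕ → V}
  {f : V → V}

theorem Chain.infinite (hc : g.Chain Q w s) : w.Infinite :=
  (infinite_range_of_injective (f := s) fun i j h => hc.eq_of (hc.node.mem_ch (hc.mem i))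
    (by rw [h]; exact hc.node.mem_ch (hc.mem j))).mono (range_subset_iff.2 hc.mem)

theorem Node.sub_ch_of (hn : g.Node Q w) (hn' : g.Node Q w') (hi : w.Infinite) (hv : v ∈ w)
    (hv' : v ∈ w') (hfin : (g.ch Q w' v).Finite) (hne : w' ≠ w) : w' ⊆ g.ch Q w v := by
  rcases hn.str.cmp hn'.str.mod hv hv' with h | h
  · exact absurd (hfin.subset (hn'.sub_ch hn.str h hne.symm hv)) hi
  · exact hn.sub_ch hn'.str h hne hv'

theorem Node.eq_of_fin (hn : g.Node Q w) (hn' : g.Node Q w') (hi : w.Infinite) (hi' : w'.Infinite)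
    (hv : v ∈ w) (hv' : v ∈ w') (hf : (g.ch Q w v).Finite) (hf' : (g.ch Q w' v).Finite) :
    w' = w := by
  by_contra hne
  exact hi' (hf.subset (hn.sub_ch_of hn' hi hv hv' hf' hne))

theorem Stab.le_trace (hF : g.FinP) (hS : g.Stab Q) (hX : g.Str Q X) (hR : R ⊆ Q)
    (hf : g.Emb Q R f) (hx : x ∈ X) (hfx : f x = x) : g.Le X (X ∩ R) :=
  ⟨f, hf.mono hX.sub fun _ hv => ⟨hS.s4 hF (hf.mono_right hR) hX hx (by rw [hfx]; exact hx) hv,
    hf.maps (hX.sub hv)⟩⟩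

theorem Chain.iso (hf : g.IsoMap A B f) (hc : g.Chain A w s) :
    g.Chain B (f '' w) (fun i => f (s i)) := by
  have hw := hc.node.sub
  refine ⟨hf.node_image hc.node, fun i => mem_image_of_mem _ (hc.mem i), fun i j hij =>
    (hf.cl_eq_iff hw (hw (hc.mem i)) (hw (hc.mem j))).2 (hc.cl i j hij), fun i => ?_⟩
  rw [← hf.ch_image hw (hc.mem _), ← hf.ch_image hw (hc.mem _)]
  have k : ∀ i, g.Iso (g.ch A w (s i)) (f '' g.ch A w (s i)) := fun i =>
    ⟨f, hf.restrict ((ch_sub _ _ _).trans hw)⟩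
  exact (k i).symm.le.trans ((hc.le i).trans (k _).le)

variable (g) in
def Soft (Q w : Set V) : Prop := ∃ s, g.Chain Q w s ∧ (g.ch Q w (s 0)).Nontrivial

variable (g) in
noncomputable def lam (Q w : Set V) : ℕ∞ := {x | x ∈ w ∧ g.ch Q w x = {x}}.encard

variable (g) in
def Lam (Q : Set V) : Set ℕ∞ := {n | ∃ w, g.Soft Q w ∧ g.lam Q w = n}

theorem Iso.lam_sub (h : g.Iso A B) : g.Lam A ⊆ g.Lam B := by
  obtain ⟨f, hf⟩ := h
  rintro _ ⟨w, ⟨s, hs, hs'⟩, rfl⟩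
  have hw := hs.node.sub
  refine ⟨f '' w, ⟨_, hs.iso hf, ?_⟩, ?_⟩
  · rw [← hf.ch_image hw (hs.mem _)]
    exact hs'.image_of_injOn (hf.emb.2.1.mono ((ch_sub _ _ _).trans hw))
  · unfold lam
    rw [← (hf.emb.2.1.mono fun x (hx : x ∈ {x | x ∈ w ∧ g.ch A w x = {x}}) =>
      hw hx.1).encard_image]
    congr 1
    ext v
    constructor
    · rintro ⟨⟨x, hx, rfl⟩, h⟩
      refine ⟨x, ⟨hx, ?_⟩, rfl⟩
      rw [← hf.ch_image hw hx, ← image_singleton] at h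
      exact hf.image_inj ((ch_sub _ _ _).trans hw) (singleton_subset_iff.2 (hw hx)) h
    · rintro ⟨x, ⟨hx, h⟩, rfl⟩
      exact ⟨mem_image_of_mem _ hx, by rw [← hf.ch_image hw hx, h, image_singleton]⟩

theorem Iso.lam_eq (h : g.Iso A B) : g.Lam A = g.Lam B :=
  Subset.antisymm h.lam_sub h.symm.lam_sub

theorem reset [Countable V] (hF : g.FinP) (hS : g.Stab Q)
    (hfin : ∀ w s, g.Chain Q w s → (g.ch Q w (s 0)).Finite) (ν : Set V → ℕ) :
    ∃ R, g.Eqv Q R ∧ g.Lam R = {n | ∃ w, g.Soft Q w ∧ (ν w : ℕ∞) = n} := by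
  rcases isEmpty_or_nonempty V with hV | hV
  · refine ⟨Q, Eqv.refl Q, ?_⟩
    ext n
    exact ⟨fun ⟨_, ⟨s, _⟩, _⟩ => hV.elim (s 0), fun ⟨_, ⟨s, _⟩, _⟩ => hV.elim (s 0)⟩
  choose! s hs1 hs2 using fun w (h : g.Soft Q w) => h
  have hf : ∀ w, g.Soft Q w → ∀ i, (g.ch Q w (s w i)).Finite := fun w hw i =>
    hfin w _ ((hs1 w hw).tail i)
  have hnt : ∀ w, g.Soft Q w → ∀ i, (g.ch Q w (s w i)).Nontrivial := fun w hw i =>
    ((hs1 w hw).le' (Nat.zero_le i)).nontrivial (hs2 w hw)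
  have hm : ∀ w, g.Soft Q w → ∀ i, s w i ∈ g.ch Q w (s w i) := fun w hw i =>
    (hs1 w hw).node.mem_ch ((hs1 w hw).mem i)
  set sm : Set V → V → Prop := fun w x => g.Soft Q w ∧ x ∈ w ∧
    (g.ch Q w x = {x} ∨ ∃ i, x ∈ g.ch Q w (s w (2 * i + 1))) with hsm
  have sm1 : ∀ w x, sm w x → (g.ch Q w x).Finite := by
    rintro w x ⟨hw, hx, h | ⟨i, h⟩⟩
    · rw [h]; exact finite_singleton x
    · rw [(hs1 w hw).node.ch_eq ((hs1 w hw).mem _) h]; exact hf w hw _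
  have sm2 : ∀ w x, sm w x → ∀ v ∈ g.ch Q w x, sm w v := by
    rintro w x ⟨hw, hx, h | ⟨i, h⟩⟩ v hv
    · rw [h] at hv
      rw [mem_singleton_iff.1 hv]; exact ⟨hw, hx, Or.inl h⟩
    · exact ⟨hw, hv.1, Or.inr ⟨i, (hs1 w hw).node.ch_trans ((hs1 w hw).mem _) h hv⟩⟩
  have sm3 : ∀ w w' x, g.Soft Q w → x ∈ w → (g.ch Q w x).Finite → sm w' x → w' = w :=
    fun w w' x hw hx h1 h2 => (hs1 w hw).node.eq_of_fin (hs1 w' h2.1).node (hs1 w hw).infinite
      (hs1 w' h2.1).infinite hx h2.2.1 h1 (sm1 w' x h2)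
  set Δ : Set V := {x | ∃ w, sm w x} with hΔ
  have kept : ∀ w, g.Soft Q w → ∀ i, g.ch Q w (s w (2 * i)) ⊆ Q \ Δ := by
    intro w hw i v hv
    have hn := (hs1 w hw).node
    refine ⟨hn.sub hv.1, ?_⟩
    rintro ⟨w', h⟩
    have e1 := hn.ch_eq ((hs1 w hw).mem _) hv
    obtain rfl := sm3 w w' v hw hv.1 (by rw [e1]; exact hf w hw _) h
    rcases h.2.2 with h | ⟨j, h⟩
    · have := hnt w' hw (2 * i)
      rw [← e1, h] at this
      exact not_nontrivial_singleton this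
    · have := (hs1 w' hw).eq_of hv h
      omega
  have fo : ∀ F : Set V, F.Finite → (∀ u ∈ F, u ∈ Q ∧ u ∉ Δ) →
      ∃ φ, g.Emb Q (Q \ Δ) φ ∧ ∀ u ∈ F, φ u = u := by
    intro F0 hF0 hF0'
    refine forth (fun t _ ht0 F hFf hFQ => ?_) hF0 hF0'
    obtain ⟨w, ht⟩ := ht0
    have hc := hs1 w ht.1
    obtain ⟨j, hj⟩ : ∃ j, g.Le (g.ch Q w t) (g.ch Q w (s w j)) := by
      rcases ht.2.2 with h | ⟨i, h⟩
      · refine ⟨0, fun _ => s w 0, ?_⟩
        rw [h]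
        exact emb_of_ne (fun _ _ => hm w ht.1 0) fun a ha b hb hab => absurd (ha.trans hb.symm) hab
      · exact ⟨_, le_of_sub (hc.node.ch_eq (hc.mem _) h).subset⟩
    obtain ⟨γ, m, k1, k2, ⟨i, k3⟩, k4⟩ := (hc.tail j).step hF ht.2.1 hj
      (P := fun m => ∃ i, j + m = 2 * i) (fun n => ⟨j + 2 * n, by omega, j + n, by omega⟩) hFf
      fun u hu h => (hFQ u hu).2 ⟨w, sm2 w t ht u h⟩
    rw [k3] at k4
    exact ⟨γ, k1, k2, (kept w ht.1 i k4).2⟩
  set R : Set V := (Q \ Δ) ∪ {x | ∃ w, g.Soft Q w ∧ ∃ i < ν w, x = s w (2 * i + 1)} with hR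
  have hRQ : R ⊆ Q := by
    rintro x (hx | ⟨w, hw, i, -, rfl⟩)
    exacts [hx.1, (hs1 w hw).node.sub ((hs1 w hw).mem _)]
  have smo : ∀ w, g.Soft Q w → ∀ i, sm w (s w (2 * i + 1)) := fun w hw i =>
    ⟨hw, (hs1 w hw).mem _, Or.inr ⟨i, hm w hw _⟩⟩
  have sub1 : ∀ w x, sm w x → (g.ch Q w x ∩ R).Subsingleton := by
    intro w x hx
    have key : ∀ v ∈ g.ch Q w x ∩ R, ∃ i, v = s w (2 * i + 1) := by
      rintro v ⟨hv, h | ⟨w', hw', i, -, rfl⟩⟩
      · exact absurd ⟨w, sm2 w x hx v hv⟩ h.2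
      · have h1 := sm2 w x hx _ hv
        obtain rfl := sm3 w w' _ hx.1 hv.1 (sm1 w _ h1) (smo w' hw' i)
        exact ⟨i, rfl⟩
    intro v hv v' hv'
    obtain ⟨i, rfl⟩ := key v hv
    obtain ⟨j, rfl⟩ := key v' hv'
    have hn := (hs1 w hx.1).node
    rw [(hs1 w hx.1).eq_of (hn.ch_trans hv.1.1 (hn.ch_symm hx.2.1 hv.1) hv'.1) (hm w hx.1 _)]
  set 𝒟 : Set (Set V) := {D | ∃ w x, sm w x ∧ D = g.ch Q w x} with h𝒟
  have hbig : ∀ w, g.Soft Q w → ∀ D ∈ 𝒟, ¬ w ⊆ D := by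
    rintro w hw _ ⟨w', x, hx, rfl⟩ h
    exact (hs1 w hw).infinite ((sm1 w' x hx).subset h)
  have two : ∀ w, g.Soft Q w → ∀ i, s w (2 * i) ∈ w ∩ R := fun w hw i =>
    ⟨(hs1 w hw).mem _, Or.inl (kept w hw i (hm w hw _))⟩
  have hcut : g.Cut Q R 𝒟 := by
    refine ⟨hRQ, fun v hv hv' => ?_, ?_⟩
    · obtain ⟨w, hw⟩ : v ∈ Δ := by_contra fun h => hv' (Or.inl ⟨hv, h⟩)
      exact ⟨_, ⟨w, v, hw, rfl⟩, (hs1 w hw.1).node.mem_ch hw.2.1⟩
    · rintro _ ⟨w, x, hx, rfl⟩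
      obtain ⟨e, hd⟩ := (hs1 w hx.1).deg hF
      exact ⟨w, e, x, (hs1 w hx.1).node, hd, hx.2.1, rfl, ind_of_subsingleton (sub1 w x hx) e,
        ⟨_, two w hx.1 0, _, two w hx.1 1, (hs1 w hx.1).cl _ _ (by omega)⟩, hbig w hx.1⟩
  have hlam : ∀ w, g.Soft Q w → g.lam R (w ∩ R) = ν w := by
    intro w hw
    have hc := hs1 w hw
    have hn := hc.node
    have : {x | x ∈ w ∩ R ∧ g.ch R (w ∩ R) x = {x}} = (fun i => s w (2 * i + 1)) '' Iio (ν w) := by
      ext x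
      constructor
      · rintro ⟨hx, h⟩
        rw [hcut.ch_trace hn (hbig w hw) hx] at h
        have key : ∀ w' v, sm w' v → v ∈ g.ch Q w x → w' = w := by
          intro w' v hv hv'
          by_contra hne
          have h1 := hn.sub_ch_of (hs1 w' hv.1).node hc.infinite hv'.1 hv.2.1 (sm1 w' v hv) hne
          rw [hn.ch_eq hx.1 hv'] at h1
          have k : ∀ i, s w' (2 * i) = x := fun i =>
            h.subset ⟨h1 (two w' hv.1 i).1, (two w' hv.1 i).2⟩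
          have := (hs1 w' hv.1).eq_of (hm w' hv.1 (2 * 0)) (j := 2 * 1) (by
            rw [(k 0).trans (k 1).symm]; exact hm w' hv.1 _)
          omega
        rcases hx.2 with h1 | ⟨w', hw', i, hi, rfl⟩
        · exfalso
          have h2 : ¬ g.ch Q w x ⊆ {x} := fun h2 => h1.2 ⟨w, hw, hx.1, Or.inl
            (Subset.antisymm h2 (singleton_subset_iff.2 (hn.mem_ch hx.1)))⟩
          obtain ⟨v, hv, hv'⟩ := not_subset.1 h2
          obtain ⟨w', h3⟩ : v ∈ Δ := by_contra fun h3 =>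
            hv' (h.subset ⟨hv, Or.inl ⟨hn.sub hv.1, h3⟩⟩)
          obtain rfl := key w' v h3 hv
          exact h1.2 ⟨w', sm2 w' v h3 x (hn.ch_symm hx.1 hv)⟩
        · obtain rfl := key w' _ (smo w' hw' i) (hn.mem_ch hx.1)
          exact ⟨i, hi, rfl⟩
      · rintro ⟨i, hi, rfl⟩
        have hx : s w (2 * i + 1) ∈ w ∩ R := ⟨hc.mem _, Or.inr ⟨w, hw, i, hi, rfl⟩⟩
        refine ⟨hx, ?_⟩
        rw [hcut.ch_trace hn (hbig w hw) hx]
        exact (sub1 w _ (smo w hw i)).eq_singleton_of_mem ⟨hm w hw _, hx.2⟩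
    unfold lam
    rw [this, InjOn.encard_image fun i _ j _ h => by
      have := hc.eq_of (hm w hw (2 * i + 1)) (j := 2 * j + 1) (by rw [h]; exact hm w hw _)
      omega]
    rw [← Finset.coe_range, encard_coe_eq_coe_finsetCard, Finset.card_range]
  obtain ⟨φ, hφ, -⟩ := fo ∅ finite_empty fun u hu => absurd hu (notMem_empty u)
  refine ⟨R, ⟨⟨φ, hφ.mono_right subset_union_left⟩, le_of_sub hRQ⟩, ?_⟩
  ext n
  constructor
  · rintro ⟨w', ⟨t, ht, ht'⟩, rfl⟩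
    obtain ⟨w, hn, hb, rfl⟩ := hcut.node_of (by
      rintro _ ⟨w, x, hx, rfl⟩; exact sub1 w x hx) ht.node
    have k1 : ∀ i, (g.ch Q w (t i) ∩ R).Nontrivial := fun i => by
      rw [← hcut.ch_trace hn hb (ht.mem i)]
      exact (ht.le' (Nat.zero_le i)).nontrivial ht'
    have hw : g.Soft Q w := by
      refine ⟨t, hcut.chain_up hn hb ht fun i => ?_, (k1 0).mono inter_subset_left⟩
      have hE := hn.str_ch (ht.mem i).1
      obtain ⟨x, hx, hx'⟩ : ∃ x ∈ g.ch Q w (t i), x ∉ Δ := by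
        by_contra hcon
        push Not at hcon
        obtain ⟨a, ha, -⟩ := k1 i
        obtain ⟨w', ha'⟩ := hcon a ha.1
        have hn' := (hs1 w' ha'.1).node
        have := hn'.sub_of_not_ch hE ha'.2.1 ha.1 (hn'.mem_ch ha'.2.1) fun h =>
          (k1 i).not_subsingleton ((sub1 w' a ha').anti (inter_subset_inter_left _ h))
        exact (kept w' ha'.1 0 (hm w' ha'.1 _)).2 (hcon _ (this (two w' ha'.1 0).1))
      obtain ⟨ψ, p1, p2⟩ := fo {x} (finite_singleton x) (by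
        rintro u rfl; exact ⟨hE.sub hx, hx'⟩)
      exact hS.le_trace hF hE hRQ (p1.mono_right subset_union_left) hx (p2 x rfl)
    exact ⟨w, hw, (hlam w hw).symm⟩
  · rintro ⟨w, hw, rfl⟩
    have hc := (hs1 w hw).comp (σ := fun i => 2 * i) fun i j h => by simp only; omega
    have k : ∀ i, g.ch Q w (s w (2 * i)) ⊆ R := fun i v hv => Or.inl (kept w hw i hv)
    refine ⟨w ∩ R, ⟨_, hcut.chain_down (hbig w hw) hc k, ?_⟩, hlam w hw⟩
    rw [hcut.ch_trace hc.node (hbig w hw) (two w hw 0), inter_eq_left.2 (k 0)]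
    exact hnt w hw _

theorem fin_of_not_cont [Countable V] (hF : g.FinP) (hc : ¬ g.Cont Q) (w : Set V) (s : ℕ → V)
    (hs : g.Chain Q w s) : (g.ch Q w (s 0)).Finite := by
  obtain ⟨N, hN⟩ := bounded_of_not_cont hF hc w
  exact finite_of_encard_le_coe (hN s hs)

theorem soft_finite [Countable V] (hF : g.FinP) (hc : ¬ g.Cont Q) : {w | g.Soft Q w}.Finite := by
  classical
  by_contra hinf
  apply hc
  set em : ℕ → Set V := fun n => (Set.Infinite.natEmbedding _ hinf n : Set V) with hem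
  have h1 : Injective em := fun i j h => (Set.Infinite.natEmbedding _ hinf).injective (Subtype.ext h)
  have h2 : ∀ n, g.Soft Q (em n) := fun n => (Set.Infinite.natEmbedding _ hinf n).2
  choose R hR1 hR2 using fun S : Set ℕ => reset hF (stab_of_not_cont hF hc) (fin_of_not_cont hF hc)
    fun w => 2 * invFun em w + if invFun em w ∈ S then 1 else 0
  refine cont_of R [] hR1 (by simp) fun S S' n ψ hψ _ _ hn hn' => ?_
  have h3 := Iso.lam_eq ⟨ψ, hψ⟩
  rw [hR2, hR2] at h3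
  obtain ⟨w, -, hw⟩ := h3.subset ⟨em n, h2 n, rfl⟩
  rw [leftInverse_invFun h1 n, if_pos hn] at hw
  have h4 := Nat.cast_injective hw
  split_ifs at h4 with h5
  · obtain rfl : invFun em w = n := by omega
    exact hn' h5
  · omega

theorem inf_of_soft [Countable V] (hF : g.FinP) (hc : ¬ g.Cont Q) (hw : g.Soft Q w) :
    ∃ R : ℕ → Set V, (∀ n, g.Eqv Q (R n)) ∧ ∀ n m, g.Iso (R n) (R m) → n = m := by
  choose R hR1 hR2 using fun n : ℕ => reset hF (stab_of_not_cont hF hc) (fin_of_not_cont hF hc)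
    fun _ => n
  refine ⟨R, hR1, fun n m h => ?_⟩
  have h3 := h.lam_eq
  rw [hR2, hR2] at h3
  obtain ⟨_, -, hw⟩ := h3.subset ⟨w, hw, rfl⟩
  exact (Nat.cast_injective hw).symm

theorem rev_of_no_soft [Countable V] (hF : g.FinP) (hc : ¬ g.Cont Q) (hw : ∀ w, ¬ g.Soft Q w) :
    g.Rev Q := by
  refine rev_of hF (stab_of_not_cont hF hc) (thin_of_not_cont hF hc) fun w s hs => ?_
  have h1 : (g.ch Q w (s 1)).Subsingleton := not_nontrivial_iff.1 fun h => hw w ⟨_, hs.tail 1, h⟩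
  refine ⟨h1.finite, (encard_le_one_iff_subsingleton.2 h1).trans ?_⟩
  exact one_le_encard_iff_nonempty.2 ⟨_, hs.node.mem_ch (hs.mem 0)⟩

end Gr

end Pool.Agent.MP_2a6d4e_co
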