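import Pool.Agent.MP_2a6d4e_co.Trace

/-! Recurrent children of unbounded size give a continuum of siblings. -/

namespace Pool.Agent.MP_2a6d4e_co

open Set Function

namespace Gr

variable {V : Type} {g : Gr V}
variable {Q R A B C D X Y Z w : Set V} {a b x y z t u v p : V} {e : Bool} {s : ℕ → V}

theorem ind_of_subsingleton (hX : X.Subsingleton) (e : Bool) : g.Ind X e :=
  fun _ _ _ ha _ hb h => hX ha hb ▸ h

theorem Ind.grow (hX : g.Ind X e) (n : ℕ) (hn : (n : ℕ∞) ≤ X.encard) :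
    ∃ A ⊆ X, A.encard = n ∧ g.Ind A e := by
  induction n with
  | zero => exact ⟨∅, empty_subset _, by simp, ind_of_subsingleton subsingleton_empty e⟩
  | succ n ih =>
    obtain ⟨A, hA, h1, h2⟩ := ih (le_trans (by exact_mod_cast Nat.le_succ n) hn)
    obtain ⟨b, hb, hbA⟩ : ∃ b ∈ X, b ∉ A := by
      by_contra hcon
      push Not at hcon
      have := hn.trans (encard_le_encard hcon)
      rw [h1] at this
      exact absurd (by exact_mod_cast this : n + 1 ≤ n) (by omega)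
    rcases A.eq_empty_or_nonempty with rfl | ⟨a, ha⟩
    · refine ⟨{b}, singleton_subset_iff.2 hb, ?_, ind_of_subsingleton subsingleton_singleton e⟩
      rw [encard_empty] at h1
      rw [encard_singleton, Nat.cast_succ, ← h1, zero_add]
    obtain ⟨a', ha', b', hb', hb'A, hc⟩ : ∃ a' ∈ A, ∃ b' ∈ X, b' ∉ A ∧ g.c a' b' ≠ e := by
      by_contra hcon
      push Not at hcon
      exact hbA (hX A (fun s _ t ht h1 h2 => hcon s h1 t ht h2) a (hA ha) b hb ha)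
    refine ⟨insert b' A, insert_subset hb' hA, by rw [encard_insert_of_notMem hb'A, h1]; simp, ?_⟩
    intro S hS
    have k1 : ∀ s ∈ A, ∀ t ∈ A, s ∈ S → t ∈ S :=
      h2 S fun s hs t ht => hS s (mem_insert_of_mem _ hs) t (mem_insert_of_mem _ ht)
    have k2 : a' ∈ S ↔ b' ∈ S := ⟨fun h => by_contra fun h' =>
      hc (hS a' (mem_insert_of_mem _ ha') b' (mem_insert _ _) h h'), fun h => by_contra fun h' =>
      hc (by rw [g.symm]; exact hS b' (mem_insert _ _) a' (mem_insert_of_mem _ ha') h h')⟩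
    rintro s (rfl | hs) t (rfl | ht) h
    exacts [h, k1 a' ha' t ht (k2.2 h), k2.1 (k1 s hs a' ha' h), k1 s hs t ht h]

theorem exists_inj_sel {α : Type} (I : ℕ → Set α) (hI : ∀ k, (I k).Infinite) :
    ∃ E : ℕ → α, Injective E ∧ ∀ k, E k ∈ I k := by
  obtain ⟨a0, ha0⟩ := (hI 0).nonempty
  obtain ⟨s, -, h1, h2⟩ := seq_exists
    (fun n (p : Set α × α) => p.1.Finite ∧ p.2 ∈ I n ∧ p.2 ∈ p.1)
    (fun _ p p' => p.1 ⊆ p'.1 ∧ p'.2 ∉ p.1) ({a0}, a0) ⟨finite_singleton _, ha0, rfl⟩ (by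
      rintro n ⟨T, a⟩ ⟨hT, -, -⟩
      obtain ⟨b, hb, hbT⟩ := (hI (n + 1)).exists_notMem_finite hT
      exact ⟨(insert b T, b), ⟨hT.insert b, hb, mem_insert _ _⟩, subset_insert _ _, hbT⟩)
  have mono : Monotone fun n => (s n).1 := monotone_nat_of_le_succ fun n => (h2 n).1
  have key : ∀ i j, i < j → (s i).2 ≠ (s j).2 := by
    intro i j hij h
    obtain ⟨k, rfl⟩ := Nat.exists_eq_add_of_lt hij
    exact (h2 (i + k)).2 (h ▸ mono (Nat.le_add_right i k) (h1 i).2.2)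
  refine ⟨fun n => (s n).2, fun i j hij => ?_, fun k => (h1 k).2.1⟩
  rcases lt_trichotomy i j with h | h | h
  exacts [absurd hij (key i j h), h, absurd hij.symm (key j i h)]

theorem bounded_of_not_cont [Countable V] (hF : g.FinP) (hc : ¬ g.Cont Q) (w : Set V) :
    ∃ N : ℕ, ∀ s, g.Chain Q w s → (g.ch Q w (s 0)).encard ≤ N := by
  by_contra hcon
  push Not at hcon
  apply hc
  obtain ⟨p, hp⟩ : ∃ p : ℕ, ∀ N : ℕ, ∃ s, g.Chain Q w s ∧ (N : ℕ∞) ≤ (g.ch Q w (s 0)).encard ∧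
      {m | ∀ i : ℕ, (g.ch Q w (s m)).encard ≠ (2 * i + 1 + p : ℕ)}.Infinite := by
    by_contra h
    push Not at h
    obtain ⟨N0, h0⟩ := h 0
    obtain ⟨N1, h1⟩ := h 1
    obtain ⟨s, hs, hN⟩ := hcon (max N0 N1)
    refine infinite_univ (((h0 s hs (le_trans (by exact_mod_cast le_max_left _ _) hN.le)).union
      (h1 s hs (le_trans (by exact_mod_cast le_max_right _ _) hN.le))).subset fun m _ => ?_)
    by_contra h2
    simp only [mem_union, mem_ofPred_eq, not_or, not_forall, not_not] at h2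
    obtain ⟨⟨i, hi⟩, j, hj⟩ := h2
    rw [hi] at hj
    have := Nat.cast_injective hj
    omega
  choose s hs1 hs2 hs3 using fun i => hp (2 * i + 1 + p)
  have hn := (hs1 0).node
  obtain ⟨e, hd⟩ := (hs1 0).deg hF
  obtain ⟨E, hE, hE'⟩ := exists_inj_sel (fun k => (fun m => g.ch Q w (s k.unpair.1 m)) ''
      {m | ∀ i : ℕ, (g.ch Q w (s k.unpair.1 m)).encard ≠ (2 * i + 1 + p : ℕ)})
    (fun k => (hs3 _).image fun m _ m' _ h => (hs1 _).eq_of (hn.mem_ch ((hs1 _).mem m))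
      (by rw [← h]; exact hn.mem_ch ((hs1 _).mem m)))
  choose M hM1 hM2 using hE'
  have hM3 : ∀ i n, g.ch Q w (s i (M (Nat.pair i n))) = E (Nat.pair i n) := fun i n => by
    have := hM2 (Nat.pair i n)
    rwa [Nat.unpair_pair] at this
  have hM4 : ∀ i n (j : ℕ), (E (Nat.pair i n)).encard ≠ (2 * j + 1 + p : ℕ) := fun i n j => by
    rw [← hM2]; exact hM1 _ j
  choose A hA1 hA2 hA3 using fun i => (hn.ind_ch hd ((hs1 i).mem (M (Nat.pair i 0)))).grow
    (2 * i + 1 + p) ((hs2 i).trans ((hs1 i).le' (Nat.zero_le _)).encard)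
  simp only [hM3] at hA1
  have hEch : ∀ i n, ∀ x ∈ E (Nat.pair i n), x ∈ w ∧ g.ch Q w x = E (Nat.pair i n) := by
    intro i n x hx
    rw [← hM3] at hx ⊢
    exact ⟨hx.1, hn.ch_eq ((hs1 i).mem _) hx⟩
  set Δ : Set V := {x | x ∈ w ∧ ∃ i, g.Iso (g.ch Q w x) (A i) ∨ g.ch Q w x = E (Nat.pair i 0)}
    with hΔ
  have hΔ1 : ∀ x ∈ Δ, ∀ v ∈ g.ch Q w x, v ∈ Δ := fun x hx v hv =>
    ⟨hv.1, by rw [hn.ch_eq hx.1 hv]; exact hx.2⟩
  have hΔ2 : ∀ i n, ∀ x ∈ E (Nat.pair i (n + 1)), x ∉ Δ := by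
    rintro i n x hx ⟨-, j, h | h⟩ <;> rw [(hEch i _ x hx).2] at h
    · exact hM4 _ _ j (h.encard.trans (hA2 j))
    · have := (Nat.pair_eq_pair.1 (hE h)).2
      omega
  have hAΔ : ∀ i, ∀ x ∈ A i, x ∈ Δ := fun i x hx =>
    ⟨(hEch i 0 x (hA1 i hx)).1, i, Or.inr (hEch i 0 x (hA1 i hx)).2⟩
  obtain ⟨φ, hφ, -⟩ := forth (g := g) (Q := Q) (Δ := Δ) (fun t _ ht F hFf hFQ => by
    obtain ⟨i, hi⟩ := ht.2
    obtain ⟨γ, m, k1, k2, ⟨n, k3⟩, k4⟩ := ((hs1 i).tail (M (Nat.pair i 0))).step hF ht.1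
      (by
        simp only [add_zero, hM3]
        rcases hi with h | h
        · exact h.le.trans (le_of_sub (hA1 i))
        · rw [h]; exact Le.refl _)
      (P := fun m => ∃ n, M (Nat.pair i 0) + m = M (Nat.pair i (n + 1))) (fun n => by
        have : Injective fun n => M (Nat.pair i (n + 1)) := fun a b h => by
          have h2 := hM3 i (a + 1)
          simp only at h
          rw [h, hM3] at h2
          have := (Nat.pair_eq_pair.1 (hE h2)).2
          omega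
        obtain ⟨_, ⟨k, rfl⟩, hk⟩ := (infinite_range_of_injective this).exists_gt
          (M (Nat.pair i 0) + n)
        exact ⟨M (Nat.pair i (k + 1)) - M (Nat.pair i 0), by simp only at hk; omega, k,
          by simp only at hk; omega⟩)
      hFf (fun u hu h => (hFQ u hu).2 (hΔ1 t ht u h))
    refine ⟨γ, k1, k2, hΔ2 i n _ ?_⟩
    rwa [k3, hM3] at k4) finite_empty fun u hu => absurd hu (notMem_empty u)
  set P : Set ℕ → Set V := fun S => (Q \ Δ) ∪ ⋃ i ∈ S, A i with hP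
  have P1 : ∀ S, ∀ i ∈ S, E (Nat.pair i 0) ∩ P S = A i := by
    intro S i hi
    refine Subset.antisymm ?_ (subset_inter (hA1 i) fun x hx => Or.inr (mem_biUnion hi hx))
    rintro x ⟨hx, h | h⟩
    · exact absurd ⟨(hEch i 0 x hx).1, i, Or.inr (hEch i 0 x hx).2⟩ h.2
    · obtain ⟨j, -, hj⟩ := mem_iUnion₂.1 h
      have := (hEch i 0 x hx).2.symm.trans (hEch j 0 x (hA1 j hj)).2
      rwa [(Nat.pair_eq_pair.1 (hE this)).1]
  have P2 : ∀ S, P S ⊆ Q := fun S => union_subset sdiff_subset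
    (iUnion₂_subset fun i _ x hx => hn.sub (hAΔ i x hx).1)
  have m : ∀ n, s 0 (M (Nat.pair 0 n)) ∈ E (Nat.pair 0 n) := fun n => by
    rw [← hM3]; exact hn.mem_ch ((hs1 0).mem _)
  have m' : ∀ S n, s 0 (M (Nat.pair 0 (n + 1))) ∈ w ∩ P S := fun S n =>
    ⟨(hs1 0).mem _, Or.inl ⟨hn.sub ((hs1 0).mem _), hΔ2 0 n _ (m _)⟩⟩
  have hab : g.cl Q (s 0 (M (Nat.pair 0 1))) (s 0 (M (Nat.pair 0 2))) = w :=
    (hs1 0).cl _ _ fun h => by
      have h2 := hM3 0 1
      rw [h, hM3] at h2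
      have := (Nat.pair_eq_pair.1 (hE h2)).2
      omega
  have hbig : ∀ D ∈ g.ch Q w '' Δ, ¬ w ⊆ D := by
    rintro _ ⟨x, hx, rfl⟩ h
    exact hn.ch_ne hx.1 (Subset.antisymm (ch_sub _ _ _) h)
  have hcut : ∀ S, g.Cut Q (P S) (g.ch Q w '' Δ) := by
    refine fun S => ⟨P2 S, fun v hv hv' => ?_, ?_⟩
    · have : v ∈ Δ := by_contra fun h => hv' (Or.inl ⟨hv, h⟩)
      exact ⟨_, mem_image_of_mem _ this, hn.mem_ch this.1⟩
    · rintro _ ⟨x, hx, rfl⟩
      refine ⟨w, e, x, hn, hd, hx.1, rfl, ?_, ⟨_, m' S 0, _, m' S 1, hab⟩, hbig⟩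
      rcases (g.ch Q w x ∩ P S).eq_empty_or_nonempty with h | ⟨v, hv, h | h⟩
      · rw [h]; exact ind_of_subsingleton subsingleton_empty e
      · exact absurd (hΔ1 x hx v hv) h.2
      · obtain ⟨j, hj, hj'⟩ := mem_iUnion₂.1 h
        rw [← hn.ch_eq hx.1 hv, (hEch j 0 v (hA1 j hj')).2, P1 S j hj]
        exact hA3 j
  refine cont_of P [s 0 (M (Nat.pair 0 1)), s 0 (M (Nat.pair 0 2))]
    (fun S => ⟨⟨φ, hφ.mono_right subset_union_left⟩, le_of_sub (P2 S)⟩) (fun S v hv => ?_) ?_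
  · simp only [List.mem_cons, List.not_mem_nil, or_false] at hv
    rcases hv with rfl | rfl
    exacts [(m' S 0).2, (m' S 1).2]
  intro S S' n ψ hψ hfix _ hnS hnS'
  have h0 := hψ.cl_image (m' S 0).2 (m' S 1).2
  rw [hfix _ (by simp), hfix _ (by simp), (hcut S).cl_trace hn hbig (m' S 0) (m' S 1) hab,
    (hcut S').cl_trace hn hbig (m' S' 0) (m' S' 1) hab] at h0
  obtain ⟨x, hx⟩ : (A n).Nonempty := by
    rw [← encard_ne_zero, hA2]
    exact_mod_cast (by omega : 2 * n + 1 + p ≠ 0)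
  have hx1 : x ∈ w ∩ P S := ⟨(hAΔ n x hx).1, Or.inr (mem_biUnion hnS hx)⟩
  have hx2 : ψ x ∈ w ∩ P S' := h0.subset (mem_image_of_mem _ hx1)
  have h1 := hψ.ch_image inter_subset_right hx1
  rw [h0, (hcut S).ch_trace hn hbig hx1, (hcut S').ch_trace hn hbig hx2,
    (hEch n 0 x (hA1 n hx)).2, P1 S n hnS] at h1
  have h2 : g.Iso (A n) (g.ch Q w (ψ x) ∩ P S') :=
    ⟨ψ, h1 ▸ hψ.restrict fun v hv => Or.inr (mem_biUnion hnS hv)⟩
  rcases hx2.2 with h | h
  · refine h.2 ⟨hx2.1, n, Or.inl ?_⟩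
    have h4 : g.ch Q w (ψ x) ⊆ P S' := fun v hv => Or.inl ⟨hn.sub hv.1, fun h3 =>
      h.2 (hΔ1 v h3 _ (hn.ch_symm hx2.1 hv))⟩
    rw [inter_eq_left.2 h4] at h2
    exact h2.symm
  · obtain ⟨j, hj, hj'⟩ := mem_iUnion₂.1 h
    rw [(hEch j 0 _ (hA1 j hj')).2, P1 S' j hj] at h2
    have := h2.encard
    rw [hA2, hA2] at this
    have := Nat.cast_injective this
    obtain rfl : n = j := by omega
    exact hnS' hj

end Gr

end Pool.Agent.MP_2a6d4e_co
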