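import Pool.Agent.MP_2a6d4e_co.Beta

/-! The modular decomposition after shrinking some children of degenerate nodes. -/

namespace Pool.Agent.MP_2a6d4e_co

open Set Function

namespace Gr

variable {V : Type} {g : Gr V}
variable {Q R A B C D X Y Z w : Set V} {a b x y z t u v p : V} {e : Bool} {s : ℕ → V}
  {𝒟 : Set (Set V)}

theorem Node.sub_of_not_ch (h : g.Node Q w) (hX : g.Str Q X) (hx : x ∈ w) (hu : u ∈ X)
    (hu' : u ∈ g.ch Q w x) (hn : ¬ X ⊆ g.ch Q w x) : w ⊆ X := by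
  rcases hX.cmp h.str.mod hu hu'.1 with h1 | h1
  · by_contra h2
    apply hn
    rw [← h.ch_eq hx hu']
    exact h.sub_ch hX h1 (fun h3 => h2 h3.symm.subset) hu
  · exact h1

theorem Node.other (h : g.Node Q w) (ha : a ∈ w) (hb : b ∈ w) (hab : g.cl Q a b = w)
    (hx : x ∈ w) : a ∉ g.ch Q w x ∨ b ∉ g.ch Q w x := by
  by_contra hcon
  push Not at hcon
  exact (h.ch_trans ha (h.ch_symm hx hcon.1) hcon.2).2 hab

theorem Node.deg_unique (h : g.Node Q w) {e' : Bool} (hd : g.Deg Q w e) (hd' : g.Deg Q w e') :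
    e = e' := by
  obtain ⟨a, ha, b, hb, -, hab⟩ := h.exists
  rw [← hd a ha b hb hab, hd' a ha b hb hab]

theorem Node.deg_ch (h : g.Node Q w) (hd : g.Deg Q w e) (hx : x ∈ w) (ha : a ∈ g.ch Q w x)
    (hb : b ∈ w) (hb' : b ∉ g.ch Q w x) : g.c a b = e :=
  hd a ha.1 b hb (h.cl_of_ch hx hb ((not_mem_ch hb).1 hb') ha (h.mem_ch hb))

theorem Node.prime_spread (h : g.Node Q w) (hp : ∀ e, ¬ g.Deg Q w e)
    (hR : ∀ x ∈ w, ∃ r ∈ R, r ∈ g.ch Q w x)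
    (hY : ∀ t ∈ R, t ∈ w → t ∉ Y → ∀ s ∈ Y, s ∈ R → s ∈ w → ∀ s' ∈ Y, s' ∈ R → s' ∈ w →
      g.c s t = g.c s' t) (ha : a ∈ Y ∧ a ∈ R ∧ a ∈ w) (hb : b ∈ Y ∧ b ∈ R ∧ b ∈ w)
    (hab : g.cl Q a b = w) (hv : v ∈ w) : ∃ s ∈ Y, s ∈ R ∧ s ∈ g.ch Q w v := by
  have hm : g.Mod Q {v | v ∈ w ∧ ∃ s ∈ Y, s ∈ R ∧ s ∈ g.ch Q w v} := by
    refine ⟨fun v hv => h.sub hv.1, ?_⟩
    rintro p ⟨hp, s, s1, s2, s3⟩ p' ⟨hp', s', s1', s2', s3'⟩ t ht ht'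
    by_cases htw : t ∈ w
    · obtain ⟨r, r1, r2⟩ := hR t htw
      have key : ∀ p ∈ w, ∀ s ∈ Y, s ∈ R → s ∈ g.ch Q w p → g.c p t = g.c s r := by
        intro p hp s s1 s2 s3
        refine (h.c_of_ch hp htw ((not_mem_ch htw).1 fun h1 => ht' ⟨htw, s, s1, s2, ?_⟩) s3 r2).symm
        exact h.ch_trans htw (h.ch_symm hp h1) s3
      rw [key p hp s s1 s2 s3, key p' hp' s' s1' s2' s3']
      exact hY r r1 r2.1 (fun h1 => ht' ⟨htw, r, h1, r1, r2⟩) s s1 s2 s3.1 s' s1' s2' s3'.1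
    · exact h.str.mod.eq hp hp' ht htw
  exact (h.prime_full hp hm (fun v hv => hv.1) ⟨ha.2.2, a, ha.1, ha.2.1, h.mem_ch ha.2.2⟩
    ⟨hb.2.2, b, hb.1, hb.2.1, h.mem_ch hb.2.2⟩ hab hv).2

theorem Node.prime_all (h : g.Node Q w) (hp : ∀ e, ¬ g.Deg Q w e)
    (hR : ∀ x ∈ w, ∃ r ∈ R, r ∈ g.ch Q w x)
    (hA : ∀ s ∈ w ∩ R, ∀ t ∈ w ∩ R, s ∈ A → t ∉ A → g.c s t = e) (ha : a ∈ w ∩ R) (haA : a ∈ A)
    (hv : v ∈ w) : ∃ s ∈ A, s ∈ R ∧ s ∈ g.ch Q w v := by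
  obtain ⟨y, hy, hy1, hy2⟩ := h.prime_both hp ha.1 (!e)
  obtain ⟨r, r1, r2⟩ := hR y hy
  have hr : r ∈ A := by
    by_contra h1
    have := hA a ha r ⟨r2.1, r1⟩ haA h1
    rw [h.c_of_ch ha.1 hy hy1 (h.mem_ch ha.1) r2, hy2] at this
    revert this; cases e <;> simp
  exact h.prime_spread hp hR (fun t t1 t2 t3 s s1 s2 s3 s' s1' s2' s3' => by
    rw [hA s ⟨s3, s2⟩ t ⟨t2, t1⟩ s1 t3, hA s' ⟨s3', s2'⟩ t ⟨t2, t1⟩ s1' t3])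
    ⟨haA, ha.2, ha.1⟩ ⟨hr, r1, r2.1⟩ (h.cl_of_ch ha.1 hy hy1 (h.mem_ch ha.1) r2) hv

variable (g) in
/-- `R` arises from `Q` by shrinking the members of `𝒟`. -/
structure Cut (Q R : Set V) (𝒟 : Set (Set V)) : Prop where
  sub : R ⊆ Q
  cover : ∀ v ∈ Q, v ∉ R → ∃ D ∈ 𝒟, v ∈ D
  child : ∀ D ∈ 𝒟, ∃ w e x, g.Node Q w ∧ g.Deg Q w e ∧ x ∈ w ∧ D = g.ch Q w x ∧
    g.Ind (D ∩ R) e ∧ (∃ a ∈ w ∩ R, ∃ b ∈ w ∩ R, g.cl Q a b = w) ∧ ∀ D' ∈ 𝒟, ¬ w ⊆ D'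

namespace Cut

variable (H : g.Cut Q R 𝒟)
include H

theorem str (hD : D ∈ 𝒟) : g.Str Q D := by
  obtain ⟨w, e, x, h1, -, h2, rfl, -⟩ := H.child D hD
  exact h1.str_ch h2

theorem meets (hX : g.Str Q X) (hx : x ∈ X) (hb : ∀ D ∈ 𝒟, ¬ X ⊆ D) : ∃ r ∈ R, r ∈ X := by
  by_cases h1 : x ∈ R
  · exact ⟨x, h1, hx⟩
  obtain ⟨D, hD, hxD⟩ := H.cover x (hX.sub hx) h1
  obtain ⟨w, e, y, k1, -, k2, rfl, -, ⟨a, ha, -⟩, -⟩ := H.child D hD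
  exact ⟨a, ha.2, k1.sub_of_not_ch hX k2 hx hxD (hb _ hD) ha.1⟩

theorem semi (hn : g.Node Q w) (hb : ∀ D ∈ 𝒟, ¬ w ⊆ D) (hx : x ∈ w) :
    ∀ D ∈ 𝒟, g.ch Q w x ⊆ D → g.ch Q w x = D := by
  intro D hD hsub
  refine Subset.antisymm hsub ?_
  by_contra h1
  exact hb D hD (hn.sub_of_not_ch (H.str hD) hx (hsub (hn.mem_ch hx)) (hn.mem_ch hx) h1)

theorem prime_child (hn : g.Node Q w) (hb : ∀ D ∈ 𝒟, ¬ w ⊆ D) (hp : ∀ e, ¬ g.Deg Q w e) :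
    ∀ x ∈ w, ∃ r ∈ R, r ∈ g.ch Q w x := by
  intro x hx
  refine H.meets (hn.str_ch hx) (hn.mem_ch hx) fun D hD hsub => ?_
  have h1 := H.semi hn hb hx D hD hsub
  obtain ⟨w', e, y, k1, k2, k3, rfl, -⟩ := H.child D hD
  rw [← hn.parent_unique k1 hx k3 h1] at k2
  exact hp e k2

theorem gens (hn : g.Node Q w) (hb : ∀ D ∈ 𝒟, ¬ w ⊆ D) :
    ∃ a ∈ w ∩ R, ∃ b ∈ w ∩ R, g.cl Q a b = w := by
  by_contra hcon
  have key : ∀ x ∈ w, ∃ r ∈ R, r ∈ g.ch Q w x := by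
    intro x hx
    refine H.meets (hn.str_ch hx) (hn.mem_ch hx) fun D hD hsub => ?_
    have h1 := H.semi hn hb hx D hD hsub
    obtain ⟨w', e, y, k1, -, k3, rfl, -, k4, -⟩ := H.child D hD
    rw [← hn.parent_unique k1 hx k3 h1] at k4
    exact hcon k4
  obtain ⟨a, ha, b, hb, -, hab⟩ := hn.exists
  obtain ⟨r, r1, r2⟩ := key a ha
  obtain ⟨r', r1', r2'⟩ := key b hb
  exact hcon ⟨r, ⟨r2.1, r1⟩, r', ⟨r2'.1, r1'⟩, hn.cl_of_ch ha hb hab r2 r2'⟩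

theorem replace (hX : g.Str Q X) (hb : ∀ D ∈ 𝒟, ¬ X ⊆ D) (hC : g.Str Q C) (hp : p ∈ X)
    (hpC : p ∈ C) (ht : t ∈ C) (ht' : t ∉ X) :
    ∃ r ∈ R, r ∈ C ∧ r ∉ X ∧ g.c r p = g.c t p := by
  by_cases h1 : t ∈ R
  · exact ⟨t, h1, ht, ht', rfl⟩
  obtain ⟨D, hD, htD⟩ := H.cover t (hC.sub ht) h1
  have hpD : p ∉ D := fun h => hb D hD (hX.sub_of (H.str hD).mod hp h htD ht')
  obtain ⟨w, e, y, k1, k2, k3, rfl, -, ⟨a, ha, b, hb', hab⟩, -⟩ := H.child D hD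
  have hwC := k1.sub_of_not_ch hC k3 ht htD fun h => hpD (h hpC)
  by_cases h2 : p ∈ w
  · have hXw : X ⊆ g.ch Q w p := by
      by_contra h3
      exact ht' (k1.sub_of_not_ch hX h2 hp (k1.mem_ch h2) h3 htD.1)
    have key : ∀ a ∈ w ∩ R, a ∉ g.ch Q w p → ∃ r ∈ R, r ∈ C ∧ r ∉ X ∧ g.c r p = g.c t p :=
      fun a ha h3 => ⟨a, ha.2, hwC ha.1, fun h4 => h3 (hXw h4), by
        rw [k1.deg_ch k2 k3 htD h2 hpD, g.symm, k1.deg_ch k2 h2 (k1.mem_ch h2) ha.1 h3]⟩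
    exact (k1.other ha.1 hb'.1 hab h2).elim (key a ha) (key b hb')
  · exact ⟨a, ha.2, hwC ha.1, fun h3 => h2 (hX.sub_of k1.str.mod h3 ha.1 htD.1 ht' hp),
      k1.str.mod.eq ha.1 htD.1 (hX.sub hp) h2⟩

theorem ind (hn : g.Node Q w) (hb : ∀ D ∈ 𝒟, ¬ w ⊆ D) (hd : g.Deg Q w e) (hx : x ∈ w) :
    g.Ind (g.ch Q w x ∩ R) e := by
  by_cases h0 : g.ch Q w x ∈ 𝒟
  · obtain ⟨w', e', y, k1, k2, k3, k4, k5, -⟩ := H.child _ h0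
    rw [← hn.parent_unique k1 hx k3 k4] at k2
    rwa [hn.deg_unique hd k2]
  have hC := hn.str_ch hx
  have hCb : ∀ D ∈ 𝒟, ¬ g.ch Q w x ⊆ D := fun D hD h => h0 (H.semi hn hb hx D hD h ▸ hD)
  intro A hA a ha b hb' haA
  by_contra hbA
  have haQ := H.sub ha.2
  have hbQ := H.sub hb'.2
  have hv : g.Node Q (g.cl Q a b) := node_cl haQ hbQ fun h => hbA (h ▸ haA)
  have a1 := left_mem_cl (g := g) haQ b
  have b1 := right_mem_cl (g := g) a hbQ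
  have hvC : g.cl Q a b ⊆ g.ch Q w x := hC.cl_sub ha.1 hb'.1
  have out : ∀ r ∈ g.ch Q w x ∩ R, g.c r a = g.c r b → g.c r a = e := by
    intro r hr h1
    by_cases h2 : r ∈ A
    · rw [h1]; exact hA r hr b hb' h2 hbA
    · rw [g.symm]; exact hA a ha r hr haA h2
  have hvb : ∀ D ∈ 𝒟, ¬ g.cl Q a b ⊆ D := by
    intro D hD hsub
    obtain ⟨w', e', y, k1, k2, k3, rfl, k5, ⟨a', ha', b', hb'', hab⟩, -⟩ := H.child D hD
    have hwC := k1.sub_of_not_ch hC k3 ha.1 (hsub a1) (hCb _ hD)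
    have key : ∀ r ∈ w' ∩ R, r ∉ g.ch Q w' y → e' = e := by
      intro r hr h1
      have e1 := k1.deg_ch k2 k3 (hsub a1) hr.1 h1
      have e2 := k1.deg_ch k2 k3 (hsub b1) hr.1 h1
      rw [g.symm] at e1 e2
      rw [← e1]
      exact out r ⟨hwC hr.1, hr.2⟩ (e1.trans e2.symm)
    obtain rfl : e' = e := (k1.other ha'.1 hb''.1 hab k3).elim (key a' ha') (key b' hb'')
    exact hbA (k5 A (fun s hs t ht => hA s ⟨hwC hs.1.1, hs.2⟩ t ⟨hwC ht.1.1, ht.2⟩) a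
      ⟨hsub a1, ha.2⟩ b ⟨hsub b1, hb'.2⟩ haA)
  rcases deg_or (g := g) Q (g.cl Q a b) with hp | ⟨e', hd'⟩
  · have hR := H.prime_child hv hvb hp
    refine hp e fun s hs t ht hst => ?_
    obtain ⟨s', s1, s2, s3⟩ := hv.prime_all hp hR (A := A)
      (fun s hs t ht => hA s ⟨hvC hs.1, hs.2⟩ t ⟨hvC ht.1, ht.2⟩) ⟨a1, ha.2⟩ haA hs
    obtain ⟨t', t1, t2, t3⟩ := hv.prime_all hp hR (A := Aᶜ) (e := e)
      (fun s hs t ht h1 h2 => by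
        rw [g.symm]; exact hA t ⟨hvC ht.1, ht.2⟩ s ⟨hvC hs.1, hs.2⟩ (not_not.1 h2) h1)
      ⟨b1, hb'.2⟩ hbA ht
    rw [← hv.c_of_ch hs ht hst s3 t3]
    exact hA s' ⟨hvC s3.1, s2⟩ t' ⟨hvC t3.1, t2⟩ s1 t1
  · obtain rfl : e' = e := (hd' a a1 b b1 rfl).symm.trans (hA a ha b hb' haA hbA)
    obtain ⟨t, ht, ht'⟩ : ∃ t ∈ g.ch Q w x, t ∉ g.cl Q a b := by
      by_contra hcon
      push Not at hcon
      apply hv.not_ind hd'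
      rw [Subset.antisymm hvC hcon]
      exact hn.ind_ch hd hx
    obtain ⟨t0, t1, t2, t3⟩ := hv.other_type hd' hC.mod hvC ht ht'
    obtain ⟨r, r1, r2, r3, r4⟩ := H.replace hv.str hvb hC a1 ha.1 t1 t2
    apply t3 a a1
    rw [← r4]
    exact out r ⟨r2, r1⟩ (hv.str.mod.eq' a1 b1 (H.sub r1) r3)

theorem str_trace (hX : g.Str Q X) (hb : ∀ D ∈ 𝒟, X ⊆ D → X = D) : g.Str R (X ∩ R) := by
  have hm := hX.mod.restrict H.sub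
  by_contra hns
  obtain ⟨Y, hY, u, hu, huY, x, hx, hxY, y, hy, hyX⟩ := (not_str_iff hm).1 hns
  obtain ⟨o1, o2⟩ := overlap hm hY hu huY hx hxY hy hyX
  have hyR := hY.sub hy
  have hyX' : y ∉ X := fun h => hyX ⟨h, hyR⟩
  have hn : g.Node Q (g.cl Q u y) := node_cl (H.sub hu.2) (H.sub hyR) fun h => hyX (h ▸ hu)
  have a1 := left_mem_cl (g := g) (H.sub hu.2) y
  have b1 := right_mem_cl (g := g) u (H.sub hyR)
  have hXw : X ⊆ g.cl Q u y := by rw [cl_comm]; exact hX.sub_cl (H.sub hyR) hyX' hu.1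
  have hXC : X ⊆ g.ch Q (g.cl Q u y) u := hn.sub_ch hX hXw (fun h => hyX' (h ▸ b1)) hu.1
  have hbig : ∀ D ∈ 𝒟, ¬ g.cl Q u y ⊆ D := fun D hD h =>
    hyX' (hb D hD (hXw.trans h) ▸ h b1)
  rcases deg_or (g := g) Q (g.cl Q u y) with hp | ⟨e, hd⟩
  · obtain ⟨z, hz, z1, z2⟩ := hn.prime_both hp (hXw hx.1) (!g.c x y)
    obtain ⟨s, s1, -, s3⟩ := hn.prime_spread hp (H.prime_child hn hbig hp) (Y := Y)
      (fun t t1 _ t3 s s1 _ _ s' s1' _ _ => hY.eq s1 s1' t1 t3) ⟨huY, hu.2, a1⟩ ⟨hy, hyR, b1⟩ rfl hz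
    have := o1 x hx hxY s s1
    rw [hn.c_of_ch (hXw hx.1) hz z1 (hn.mem_ch (hXw hx.1)) s3, z2] at this
    revert this; cases g.c x y <;> simp
  · have he : g.c x y = e := hn.deg_ch hd a1 (hXC hx.1) b1 fun h => h.2 rfl
    have := H.ind hn hbig hd a1 {v | v ∉ X ∨ v ∈ Y} (fun s hs t ht h1 h2 => by
      have t1 : t ∈ X := by_contra fun h => h2 (Or.inl h)
      have t2 : t ∉ Y := fun h => h2 (Or.inr h)
      by_cases h3 : s ∈ Y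
      · rw [g.symm, o1 t ⟨t1, ht.2⟩ t2 s h3, he]
      · rw [hX.mod.eq' t1 hu.1 (H.sub hs.2) (h1.resolve_right h3), hY.eq' huY hy hs.2 h3]
        exact hn.deg_ch hd a1 hs.1 b1 fun h => h.2 rfl)
      u ⟨hXC hu.1, hu.2⟩ x ⟨hXC hx.1, hx.2⟩ (Or.inr huY)
    exact this.elim (fun h => h hx.1) hxY

theorem cl_trace (hn : g.Node Q w) (hb : ∀ D ∈ 𝒟, ¬ w ⊆ D) (ha : a ∈ w ∩ R) (hb' : b ∈ w ∩ R)
    (hab : g.cl Q a b = w) : g.cl R a b = w ∩ R := by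
  refine Subset.antisymm ((H.str_trace hn.str fun D hD h => absurd h (hb D hD)).cl_sub ha hb') ?_
  have hX := str_cl (g := g) R a b
  have a1 := left_mem_cl (g := g) ha.2 b
  have b1 := right_mem_cl (g := g) a hb'.2
  have key : ∀ t ∈ w ∩ R, ∀ s ∈ g.cl R a b, s ∈ g.ch Q w t → t ∈ g.cl R a b := by
    intro t ht s hs hst
    have hC := H.str_trace (hn.str_ch ht.1) (H.semi hn hb ht.1)
    rcases hn.other ha.1 hb'.1 hab ht.1 with h1 | h1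
    · exact hC.sub_of hX.mod ⟨hst, hX.sub hs⟩ hs a1 (fun h => h1 h.1) ⟨hn.mem_ch ht.1, ht.2⟩
    · exact hC.sub_of hX.mod ⟨hst, hX.sub hs⟩ hs b1 (fun h => h1 h.1) ⟨hn.mem_ch ht.1, ht.2⟩
  intro t ht
  by_contra ht'
  rcases deg_or (g := g) Q w with hp | ⟨e, hd⟩
  · obtain ⟨s, s1, -, s3⟩ := hn.prime_spread hp (H.prime_child hn hb hp) (Y := g.cl R a b)
      (fun t t1 _ t3 s s1 _ _ s' s1' _ _ => hX.mod.eq s1 s1' t1 t3) ⟨a1, ha.2, ha.1⟩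
      ⟨b1, hb'.2, hb'.1⟩ hab ht.1
    exact ht' (key t ht s s1 s3)
  · have hm : g.Mod R ((g.ch Q w a ∪ g.ch Q w t) ∩ R) := by
      refine ⟨inter_subset_right, fun s hs s' hs' r hr hr' => ?_⟩
      have k : ∀ s ∈ g.ch Q w a ∪ g.ch Q w t, s ∈ w := fun s hs => hs.elim (·.1) (·.1)
      by_cases h1 : r ∈ w
      · have k2 : ∀ s ∈ g.ch Q w a ∪ g.ch Q w t, g.c s r = e := by
          rintro s (hs | hs)
          · exact hn.deg_ch hd ha.1 hs h1 fun h => hr' ⟨Or.inl h, hr⟩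
          · exact hn.deg_ch hd ht.1 hs h1 fun h => hr' ⟨Or.inr h, hr⟩
        rw [k2 s hs.1, k2 s' hs'.1]
      · exact hn.str.mod.eq (k s hs.1) (k s' hs'.1) (H.sub hr) h1
    rcases (hX.sub_of hm a1 ⟨Or.inl (hn.mem_ch ha.1), ha.2⟩ ⟨Or.inr (hn.mem_ch ht.1), ht.2⟩ ht'
      b1).1 with h1 | h1
    · exact h1.2 hab
    · exact ht' (key t ht b b1 h1)

theorem node_trace (hn : g.Node Q w) (hb : ∀ D ∈ 𝒟, ¬ w ⊆ D) : g.Node R (w ∩ R) := by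
  obtain ⟨a, ha, b, hb', hab⟩ := H.gens hn hb
  exact ⟨a, ha.2, b, hb'.2, hn.ne_of_cl ha.1 hab, H.cl_trace hn hb ha hb' hab⟩

theorem ch_trace (hn : g.Node Q w) (hb : ∀ D ∈ 𝒟, ¬ w ⊆ D) (hx : x ∈ w ∩ R) :
    g.ch R (w ∩ R) x = g.ch Q w x ∩ R := by
  ext v
  constructor
  · exact fun hv => ⟨⟨hv.1.1, fun h => hv.2 (H.cl_trace hn hb hx hv.1 h)⟩, hv.1.2⟩
  · intro hv
    refine ⟨⟨hv.1.1, hv.2⟩, fun h => ?_⟩
    have h1 := (H.str_trace (hn.str_ch hx.1) (H.semi hn hb hx.1)).cl_sub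
      ⟨hn.mem_ch hx.1, hx.2⟩ hv
    rw [h] at h1
    obtain ⟨a, ha, b, hb', hab⟩ := H.gens hn hb
    exact (hn.other ha.1 hb'.1 hab hx.1).elim (fun h => h (h1 ha).1) fun h => h (h1 hb').1

theorem node_of (hs : ∀ D ∈ 𝒟, (D ∩ R).Subsingleton) {w' : Set V} (hn : g.Node R w') :
    ∃ w, g.Node Q w ∧ (∀ D ∈ 𝒟, ¬ w ⊆ D) ∧ w' = w ∩ R := by
  obtain ⟨a, ha, b, hb, hab, rfl⟩ := hn
  have a1 := left_mem_cl (g := g) (H.sub ha) b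
  have b1 := right_mem_cl (g := g) a (H.sub hb)
  have hn := node_cl (g := g) (H.sub ha) (H.sub hb) hab
  have hbig : ∀ D ∈ 𝒟, ¬ g.cl Q a b ⊆ D := fun D hD h => hab (hs D hD ⟨h a1, ha⟩ ⟨h b1, hb⟩)
  exact ⟨_, hn, hbig, H.cl_trace hn hbig ⟨a1, ha⟩ ⟨b1, hb⟩ rfl⟩

theorem chain_up (hn : g.Node Q w) (hb : ∀ D ∈ 𝒟, ¬ w ⊆ D) (hc : g.Chain R (w ∩ R) s)
    (hle : ∀ i, g.Le (g.ch Q w (s i)) (g.ch Q w (s i) ∩ R)) : g.Chain Q w s := by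
  refine ⟨hn, fun i => (hc.mem i).1, fun i j hij => ?_, fun i => (hle i).trans ?_⟩
  · rw [← not_mem_ch (hc.mem j).1]
    intro h
    have : s j ∈ g.ch R (w ∩ R) (s i) := by
      rw [H.ch_trace hn hb (hc.mem i)]; exact ⟨h, (hc.mem j).2⟩
    exact this.2 (hc.cl i j hij)
  · have := hc.le i
    rw [H.ch_trace hn hb (hc.mem _), H.ch_trace hn hb (hc.mem _)] at this
    exact this.trans (le_of_sub inter_subset_left)

theorem chain_down (hb : ∀ D ∈ 𝒟, ¬ w ⊆ D) (hc : g.Chain Q w s)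
    (hR : ∀ i, g.ch Q w (s i) ⊆ R) : g.Chain R (w ∩ R) s := by
  have m : ∀ i, s i ∈ w ∩ R := fun i => ⟨hc.mem i, hR i (hc.node.mem_ch (hc.mem i))⟩
  refine ⟨H.node_trace hc.node hb, m, fun i j hij => H.cl_trace hc.node hb (m i) (m j)
    (hc.cl i j hij), fun i => ?_⟩
  rw [H.ch_trace hc.node hb (m _), H.ch_trace hc.node hb (m _), inter_eq_left.2 (hR _),
    inter_eq_left.2 (hR _)]
  exact hc.le i

end Cut

end Gr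

end Pool.Agent.MP_2a6d4e_co
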